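import Pool.Agent.LibTwPade.R3

set_option autoImplicit false

namespace TwPade

open PowerSeries

/-- `(1 + c x)^(k + 1/2)` as a power series -/
noncomputable def bs (k : ℕ) (c : ℂ) : PowerSeries ℂ := PowerSeries.mk (fun n => ch k n * c ^ n)

private theorem ch0 (k : ℕ) : ch k 0 = 1 := by
  unfold ch
  exact Ring.choose_zero_right _

private theorem ch_shift (k n : ℕ) :
    ((n : ℂ) + 1) * ch (k + 1) (n + 1) = ((k : ℂ) + 3 / 2) * ch k n := by
  unfold ch
  have h1 := Ring.choose_smul_choose (((k + 1 : ℕ) : ℂ) + 1 / 2) (Nat.le_add_left 1 n)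
  rw [Nat.add_sub_cancel, Ring.choose_one_right, nsmul_eq_mul, Nat.choose_one_right] at h1
  have h2 : ((k + 1 : ℕ) : ℂ) + 1 / 2 - ((1 : ℕ) : ℂ) = (k : ℂ) + 1 / 2 := by
    push_cast
    ring
  have h3 : ((k + 1 : ℕ) : ℂ) + 1 / 2 = (k : ℂ) + 3 / 2 := by
    push_cast
    ring
  rw [h2] at h1
  have h4 : ((n : ℂ) + 1) = ((n + 1 : ℕ) : ℂ) := by
    push_cast
    ring
  rw [h4, h1, h3]

/-- Row R6a. Pascal (`ch_succ`, `ch k 0 = 1`), coefficientwise. -/
theorem bs_succ (k : ℕ) (c : ℂ) :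
    bs (k + 1) c = (1 + PowerSeries.C c * PowerSeries.X) * bs k c := by
  ext n
  rw [add_mul, one_mul, map_add, mul_assoc, PowerSeries.coeff_C_mul]
  cases n with
  | zero =>
    rw [PowerSeries.coeff_zero_X_mul]
    unfold bs
    rw [PowerSeries.coeff_mk, PowerSeries.coeff_mk, ch0, ch0, mul_zero, add_zero]
  | succ n =>
    rw [PowerSeries.coeff_succ_X_mul]
    unfold bs
    rw [PowerSeries.coeff_mk, PowerSeries.coeff_mk, PowerSeries.coeff_mk, ch_succ]
    ring

/-- `(n+1) C(s, n+1) = s C(s-1, n)` with `s = k + 3/2`, coefficientwise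
(`PowerSeries.coeff_derivative`). -/
theorem bs_deriv (k : ℕ) (c : ℂ) :
    PowerSeries.derivative ℂ (bs (k + 1) c)
      = PowerSeries.C (((k : ℂ) + 3 / 2) * c) * bs k c := by
  ext n
  rw [PowerSeries.coeff_derivative, PowerSeries.coeff_C_mul]
  unfold bs
  rw [PowerSeries.coeff_mk, PowerSeries.coeff_mk]
  have h1 := ch_shift k n
  calc ch (k + 1) (n + 1) * c ^ (n + 1) * ((n : ℂ) + 1)
      = (((n : ℂ) + 1) * ch (k + 1) (n + 1)) * c ^ (n + 1) := by ring
    _ = ((k : ℂ) + 3 / 2) * c * (ch k n * c ^ n) := by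
      rw [h1]
      ring

end TwPade
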