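import Pool.Agent.LibTwPade.R1
import Pool.Agent.LibTwPade.R6a

set_option autoImplicit false

namespace TwPade

open PowerSeries

/-- the series of `(X + D z)^(k + 1/2) / (X + D a_j)^(1/2)` at `z = a_j` -/
noncomputable def GG (a : Fin 3 → ℂ) (k : ℕ) (X D : ℂ) (j : Fin 3) : PowerSeries ℂ :=
  PowerSeries.C ((X + a j * D) ^ k) * bs k (D / (X + a j * D))

/-- numerator of the exact form `d ((X + D z)^(k + 3/2) r / A^k)` -/
noncomputable def NN (a : Fin 3 → ℂ) (k : ℕ) (X D : ℂ) (r : Polynomial ℂ) : Polynomial ℂ :=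
  Polynomial.C (((k : ℂ) + 3 / 2) * D) * (r * AA a)
    + (Polynomial.C X + Polynomial.C D * Polynomial.X)
      * (Polynomial.derivative r * AA a - Polynomial.C (k : ℂ) * (r * Polynomial.derivative (AA a)))

end TwPade
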