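import Mathlib

/-! Rickert type Hermite-Pade forms for `1, √(1 - ω t), √(1 - ω' t)`: definitions.
No row may use straight double quotes, the tactic `convert` or macros. -/

set_option autoImplicit false

namespace TwPade

open PowerSeries

/-- generalized binomial coefficient `(k + 1/2 choose n)` -/
noncomputable def ch (k n : ℕ) : ℂ := Ring.choose ((k : ℂ) + 1 / 2) n

/-- `∏_{l ≠ j} (x + (a_j - a_l))` as a power series in `x = z - a_j` -/
noncomputable def qs (a : Fin 3 → ℂ) (j : Fin 3) : PowerSeries ℂ :=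
  ∏ l ∈ Finset.univ.erase j, (PowerSeries.X + PowerSeries.C (a j - a l))

/-- Taylor expansion at `a_j` of a polynomial, as a power series in `x = z - a_j` -/
noncomputable def ty (a : Fin 3 → ℂ) (j : Fin 3) (φ : Polynomial ℂ) : PowerSeries ℂ :=
  ((Polynomial.taylor (a j) φ : Polynomial ℂ) : PowerSeries ℂ)

/-- `A(z) = ∏ (z - a_l)` -/
noncomputable def AA (a : Fin 3 → ℂ) : Polynomial ℂ :=
  ∏ l : Fin 3, (Polynomial.X - Polynomial.C (a l))

/-- `s_i(z) = ∏_{l ≠ i} (z - a_l)` -/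
noncomputable def sp (a : Fin 3 → ℂ) (i : Fin 3) : Polynomial ℂ :=
  ∏ l ∈ Finset.univ.erase i, (Polynomial.X - Polynomial.C (a l))

/-- the coefficients of the expansion of `s_i / (∏_{l ≠ j} (z - a_l))^(k+1)` at `a_j` -/
noncomputable def ec (a : Fin 3 → ℂ) (k : ℕ) (i j : Fin 3) (r : ℕ) : ℂ :=
  PowerSeries.coeff r (ty a j (sp a i) * ((qs a j)⁻¹) ^ (k + 1))

/-- the (homogeneous) coefficients of the forms:
`Res_{z = a_j} (X + D z)^(k + 1/2) (X + D a_j)^(-1/2) s_i / A^(k+1)` -/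
noncomputable def Pm (a : Fin 3 → ℂ) (k : ℕ) (X D : ℂ) (i j : Fin 3) : ℂ :=
  ∑ h ∈ Finset.range (k + 1), ch k h * D ^ h * (X + a j * D) ^ (k - h) * ec a k i j (k - h)

/-- the nodes `0, -w, -w'` -/
def nd (w w' : ℂ) : Fin 3 → ℂ := ![0, -w, -w']

/-- `(x, x')` is a pair of conjugate elements of `ℤ[w]` -/
def Sp (w w' x x' : ℂ) : Prop := ∃ A B : ℤ, x = A + B * w ∧ x' = A + B * w'

end TwPade
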