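import Pool.Agent.LibTwPade.Defs

set_option autoImplicit false

namespace TwPade

open PowerSeries

/-- Row R1. `Polynomial.taylor_mul` (or `Polynomial.taylor` is a ring homomorphism,
`Polynomial.taylorAlgHom`), `Polynomial.coe_mul`. -/
theorem ty_mul (a : Fin 3 → ℂ) (j : Fin 3) (φ ψ : Polynomial ℂ) :
    ty a j (φ * ψ) = ty a j φ * ty a j ψ := by
  unfold ty
  rw [Polynomial.taylor_mul, Polynomial.coe_mul]

theorem ty_add (a : Fin 3 → ℂ) (j : Fin 3) (φ ψ : Polynomial ℂ) :
    ty a j (φ + ψ) = ty a j φ + ty a j ψ := by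
  unfold ty
  rw [map_add, Polynomial.coe_add]

theorem ty_C (a : Fin 3 → ℂ) (j : Fin 3) (c : ℂ) :
    ty a j (Polynomial.C c) = PowerSeries.C c := by
  unfold ty
  rw [Polynomial.taylor_C, Polynomial.coe_C]

theorem ty_X (a : Fin 3 → ℂ) (j : Fin 3) :
    ty a j Polynomial.X = PowerSeries.X + PowerSeries.C (a j) := by
  unfold ty
  rw [Polynomial.taylor_X, Polynomial.coe_add, Polynomial.coe_X, Polynomial.coe_C]

private theorem ty_one' (a : Fin 3 → ℂ) (j : Fin 3) : ty a j 1 = 1 := by
  have h := ty_C a j 1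
  rw [map_one, map_one] at h
  exact h

theorem ty_pow (a : Fin 3 → ℂ) (j : Fin 3) (φ : Polynomial ℂ) (n : ℕ) :
    ty a j (φ ^ n) = ty a j φ ^ n := by
  induction n with
  | zero => rw [pow_zero, pow_zero, ty_one']
  | succ n ih => rw [pow_succ, pow_succ, ty_mul, ih]

/-- `(d/dz φ)(a_j + x) = d/dx (φ(a_j + x))`; `PowerSeries.derivative_coe`, and
`Polynomial.derivative (taylor r φ) = taylor r (derivative φ)` (`Polynomial.taylor` is
`φ.comp (X + C r)`, `Polynomial.derivative_comp`). -/
theorem ty_deriv (a : Fin 3 → ℂ) (j : Fin 3) (φ : Polynomial ℂ) :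
    ty a j (Polynomial.derivative φ) = PowerSeries.derivative ℂ (ty a j φ) := by
  unfold ty
  rw [PowerSeries.derivative_coe, Polynomial.taylor_apply, Polynomial.taylor_apply,
    Polynomial.derivative_comp]
  congr 1
  rw [Polynomial.derivative_add, Polynomial.derivative_X, Polynomial.derivative_C, add_zero,
    one_mul]

private theorem ty_prod' (a : Fin 3 → ℂ) (j : Fin 3) (s : Finset (Fin 3))
    (f : Fin 3 → Polynomial ℂ) : ty a j (∏ l ∈ s, f l) = ∏ l ∈ s, ty a j (f l) := by
  induction s using Finset.induction_on with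
  | empty => rw [Finset.prod_empty, Finset.prod_empty, ty_one']
  | insert b s hb ih => rw [Finset.prod_insert hb, Finset.prod_insert hb, ty_mul, ih]

private theorem ty_lin' (a : Fin 3 → ℂ) (j l : Fin 3) :
    ty a j (Polynomial.X - Polynomial.C (a l)) = PowerSeries.X + PowerSeries.C (a j - a l) := by
  have h1 : (Polynomial.X - Polynomial.C (a l) : Polynomial ℂ) =
      Polynomial.X + Polynomial.C (-(a l)) := by
    rw [Polynomial.C_neg, sub_eq_add_neg]
  rw [h1, ty_add, ty_X, ty_C, add_assoc, ← map_add, ← sub_eq_add_neg]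

/-- `A(a_j + x) = x ∏_{l ≠ j} (x + a_j - a_l)`. -/
theorem ty_AA (a : Fin 3 → ℂ) (j : Fin 3) : ty a j (AA a) = PowerSeries.X * qs a j := by
  unfold AA qs
  rw [← Finset.mul_prod_erase Finset.univ _ (Finset.mem_univ j), ty_mul, ty_prod', ty_lin',
    sub_self, map_zero, add_zero]
  congr 1
  exact Finset.prod_congr rfl fun l _ => ty_lin' a j l

/-- the constant coefficient of `qs` is `∏_{l ≠ j} (a_j - a_l) ≠ 0`, `PowerSeries.mul_inv_cancel`. -/
theorem qs_inv (a : Fin 3 → ℂ) (ha : Function.Injective a) (j : Fin 3) :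
    qs a j * (qs a j)⁻¹ = 1 := by
  refine PowerSeries.mul_inv_cancel _ ?_
  unfold qs
  rw [map_prod, Finset.prod_ne_zero_iff]
  intro l hl
  rw [map_add, PowerSeries.constantCoeff_X, PowerSeries.constantCoeff_C, zero_add, sub_ne_zero]
  exact fun h => (Finset.ne_of_mem_erase hl) (ha h).symm

end TwPade
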