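import Pool.Agent.LibTwPade.R3

set_option autoImplicit false

namespace TwPade

/-- Row R10a. `‖Pm‖ ≤ ∑_{h ≤ k} 2^k |D|^h (X + ρ|D|)^(k-h) E ≤ (k+1) 2^k E (2X)^k`. -/
theorem Pm_le (a : Fin 3 → ℂ) (k : ℕ) (X D : ℝ) (i j : Fin 3) (ρ E : ℝ) (hρ : 1 ≤ ρ)
    (hE : 0 ≤ E) (haρ : ∀ j, ‖a j‖ ≤ ρ) (hec : ∀ j r, r ≤ k → ‖ec a k i j r‖ ≤ E)
    (hX : ρ * |D| ≤ X) :
    ‖Pm a k X D i j‖ ≤ ((k : ℝ) + 1) * 4 ^ k * E * X ^ k := by
  have hD0 : 0 ≤ |D| := abs_nonneg D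
  have hX0 : 0 ≤ X := le_trans (mul_nonneg (by linarith) hD0) hX
  have hDX : |D| ≤ X := by nlinarith
  have hterm : ∀ h ∈ Finset.range (k + 1), ‖ch k h * (D : ℂ) ^ h *
      ((X : ℂ) + a j * D) ^ (k - h) * ec a k i j (k - h)‖ ≤ 4 ^ k * E * X ^ k := by
    intro h hh
    have hhk : h ≤ k := Nat.lt_succ_iff.1 (Finset.mem_range.1 hh)
    rw [norm_mul, norm_mul, norm_mul, norm_pow, norm_pow, Complex.norm_real, Real.norm_eq_abs]
    have h1 : ‖(X : ℂ) + a j * D‖ ≤ 2 * X := by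
      calc ‖(X : ℂ) + a j * D‖ ≤ ‖(X : ℂ)‖ + ‖a j * D‖ := norm_add_le _ _
        _ = X + ‖a j‖ * |D| := by
            rw [norm_mul, Complex.norm_real, Complex.norm_real, Real.norm_eq_abs,
              Real.norm_eq_abs, abs_of_nonneg hX0]
        _ ≤ X + ρ * |D| := by
            have := mul_le_mul_of_nonneg_right (haρ j) hD0
            linarith
        _ ≤ 2 * X := by linarith
    have h2 : ‖(X : ℂ) + a j * D‖ ^ (k - h) ≤ (2 * X) ^ (k - h) :=
      pow_le_pow_left₀ (norm_nonneg _) h1 _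
    have h3 : |D| ^ h ≤ X ^ h := pow_le_pow_left₀ hD0 hDX _
    have h4 : (2 : ℝ) ^ (k - h) ≤ 2 ^ k := pow_le_pow_right₀ (by norm_num) (by omega)
    calc ‖ch k h‖ * |D| ^ h * ‖(X : ℂ) + a j * D‖ ^ (k - h) * ‖ec a k i j (k - h)‖
        ≤ 2 ^ k * X ^ h * (2 * X) ^ (k - h) * E := by
          refine mul_le_mul ?_ (hec j _ (by omega)) (norm_nonneg _) (by positivity)
          refine mul_le_mul ?_ h2 (by positivity) (by positivity)
          exact mul_le_mul (ch_le k h) h3 (by positivity) (by positivity)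
      _ = (2 ^ k * 2 ^ (k - h)) * E * (X ^ h * X ^ (k - h)) := by
          rw [mul_pow]
          ring
      _ = (2 ^ k * 2 ^ (k - h)) * E * X ^ k := by
          rw [← pow_add X, Nat.add_sub_cancel' hhk]
      _ ≤ (2 ^ k * 2 ^ k) * E * X ^ k := by
          refine mul_le_mul_of_nonneg_right ?_ (by positivity)
          refine mul_le_mul_of_nonneg_right ?_ hE
          exact mul_le_mul_of_nonneg_left h4 (by positivity)
      _ = 4 ^ k * E * X ^ k := by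
          rw [← mul_pow]
          norm_num
  calc ‖Pm a k X D i j‖ ≤ ∑ h ∈ Finset.range (k + 1), ‖ch k h * (D : ℂ) ^ h *
      ((X : ℂ) + a j * D) ^ (k - h) * ec a k i j (k - h)‖ := norm_sum_le _ _
    _ ≤ ∑ _h ∈ Finset.range (k + 1), 4 ^ k * E * X ^ k := Finset.sum_le_sum hterm
    _ = ((k : ℝ) + 1) * 4 ^ k * E * X ^ k := by
        rw [Finset.sum_const, Finset.card_range, nsmul_eq_mul]
        push_cast
        ring

/-- Row R10b. Homogeneity. -/
theorem Pm_hom (a : Fin 3 → ℂ) (k : ℕ) (X D : ℂ) (hX : X ≠ 0) (i j : Fin 3) :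
    Pm a k X D i j = X ^ k * Pm a k 1 (D / X) i j := by
  unfold Pm
  rw [Finset.mul_sum]
  refine Finset.sum_congr rfl fun h hh => ?_
  have hhk : h ≤ k := Nat.lt_succ_iff.1 (Finset.mem_range.1 hh)
  have h1 : X + a j * D = X * (1 + a j * (D / X)) := by
    field_simp
  have h2 : D ^ h = X ^ h * (D / X) ^ h := by
    rw [← mul_pow, mul_div_cancel₀ _ hX]
  have h3 : X ^ k = X ^ h * X ^ (k - h) := by rw [← pow_add, Nat.add_sub_cancel' hhk]
  rw [h1, mul_pow, h2, h3]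
  ring

end TwPade
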