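import Pool.Agent.LibTwPade.Defs

set_option autoImplicit false

namespace TwPade

/-- Row R10c. `‖(1 + x)^(1/2) - 1‖ ≤ ‖x‖` and `‖(1+x)^(1/2)‖ ≤ 2` for `‖x‖ ≤ 1/2`: the square root
`s` has nonnegative real part, so `‖s + 1‖ ≥ 1` and `(s - 1)(s + 1) = x`. -/
theorem sqrt_near (x : ℂ) (hx : ‖x‖ ≤ 1 / 2) :
    ‖(1 + x) ^ ((1 : ℂ) / 2) - 1‖ ≤ ‖x‖ ∧ ‖(1 + x) ^ ((1 : ℂ) / 2)‖ ≤ 2 := by
  have h0 : (1 : ℂ) + x ≠ 0 := by
    intro h
    have h1 : x = -1 := by linear_combination h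
    rw [h1, norm_neg, norm_one] at hx
    norm_num at hx
  set s := (1 + x) ^ ((1 : ℂ) / 2) with hs
  have hs2 : s ^ 2 = 1 + x := by
    rw [hs, one_div]
    exact_mod_cast Complex.cpow_nat_inv_pow (1 + x) (two_ne_zero)
  have hre : 0 ≤ s.re := by
    rw [hs, Complex.cpow_def_of_ne_zero h0, Complex.exp_re]
    refine mul_nonneg (Real.exp_pos _).le ?_
    have h1 : (Complex.log (1 + x) * (1 / 2)).im = Complex.arg (1 + x) / 2 := by
      rw [Complex.mul_im, Complex.log_im]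
      norm_num
      ring
    rw [h1]
    refine Real.cos_nonneg_of_mem_Icc ⟨?_, ?_⟩
    · have := Complex.neg_pi_lt_arg (1 + x)
      linarith
    · have := Complex.arg_le_pi (1 + x)
      linarith
  have h1 : 1 ≤ ‖s + 1‖ := by
    calc (1 : ℝ) ≤ (s + 1).re := by
          rw [Complex.add_re, Complex.one_re]
          linarith
      _ ≤ ‖s + 1‖ := Complex.re_le_norm _
  have h2 : ‖s - 1‖ * ‖s + 1‖ = ‖x‖ := by
    rw [← norm_mul]
    congr 1
    linear_combination hs2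
  have h3 : ‖s - 1‖ ≤ ‖x‖ := by
    nlinarith [norm_nonneg (s - 1)]
  refine ⟨h3, ?_⟩
  calc ‖s‖ = ‖(s - 1) + 1‖ := by rw [sub_add_cancel]
    _ ≤ ‖s - 1‖ + ‖(1 : ℂ)‖ := norm_add_le _ _
    _ ≤ 2 := by
        rw [norm_one]
        linarith

end TwPade
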