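import Pool.Agent.LibTwPade.R5
import Pool.Agent.LibTwPade.R10a
import Pool.Agent.LibTwPade.R10c

set_option autoImplicit false

namespace TwPade

/-- Row R10. `t₀ = D/X`, `t₁ = D₁/X₁`, `f_j(t) = (1 + a_j t)^(1/2)` (nodes `nd w w'`, `f_0 = 1`);
`Pm i 0 z + Pm i 1 Ω + Pm i 2 Ω' = z ∑_j Pm i j f_j(t₀) + z ∑_{j=1,2} Pm i j f_j(t₀) (f_j(t₁) - 1)`;
`Pm_hom`, `order` (with `E`), `Pm_le`, `sqrt_near`:
`≤ |z| X^k 6 2^k E (2ρ|D|/X)^(3k) + |z| 2 (k+1) 4^k E X^k 2 ρ |D₁|/X₁`. -/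
theorem forms_upper (w w' : ℂ) (hinj : Function.Injective (nd w w')) (k : ℕ) (i : Fin 3)
    (X D X₁ D₁ z : ℝ) (Ω Ω' : ℂ) (ρ E : ℝ)
    (hρ : 1 ≤ ρ) (hE : 0 ≤ E) (haρ : ∀ j, ‖nd w w' j‖ ≤ ρ)
    (hec : ∀ j r, r ≤ k → ‖ec (nd w w') k i j r‖ ≤ E)
    (hX : 0 < X) (hX₁ : 0 < X₁) (h0 : 4 * ρ * |D| ≤ X) (h1 : 4 * ρ * |D₁| ≤ X₁)
    (hΩ : Ω = z * ((1 - w * (D / X : ℝ)) ^ ((1 : ℂ) / 2) * (1 - w * (D₁ / X₁ : ℝ)) ^ ((1 : ℂ) / 2)))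
    (hΩ' : Ω' = z * ((1 - w' * (D / X : ℝ)) ^ ((1 : ℂ) / 2)
      * (1 - w' * (D₁ / X₁ : ℝ)) ^ ((1 : ℂ) / 2))) :
    ‖Pm (nd w w') k X D i 0 * z + Pm (nd w w') k X D i 1 * Ω + Pm (nd w w') k X D i 2 * Ω'‖
      ≤ |z| * E * (6 * 2 ^ k * (2 * ρ * |D|) ^ (3 * k) / X ^ (2 * k)
        + 4 * ((k : ℝ) + 1) * 4 ^ k * X ^ k * (ρ * |D₁| / X₁)) := by
  have hw : ‖w‖ ≤ ρ := by
    have h := haρ 1
    have h2 : nd w w' 1 = -w := rfl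
    rwa [h2, norm_neg] at h
  have hw' : ‖w'‖ ≤ ρ := by
    have h := haρ 2
    have h2 : nd w w' 2 = -w' := rfl
    rwa [h2, norm_neg] at h
  have hD0 : 0 ≤ |D| := abs_nonneg D
  have hD10 : 0 ≤ |D₁| := abs_nonneg D₁
  have hρ0 : 0 < ρ := by linarith
  have hXne : (X : ℂ) ≠ 0 := by exact_mod_cast hX.ne'
  -- the small quantities
  have hsm : ∀ v : ℂ, ‖v‖ ≤ ρ → ‖-v * ((D / X : ℝ) : ℂ)‖ ≤ 1 / 2 := by
    intro v hv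
    rw [norm_mul, norm_neg, Complex.norm_real, Real.norm_eq_abs, abs_div, abs_of_pos hX]
    have h2 : ‖v‖ * (|D| / X) ≤ ρ * (|D| / X) := mul_le_mul_of_nonneg_right hv (by positivity)
    have h3 : ρ * (|D| / X) ≤ 1 / 2 := by
      rw [mul_div_assoc', div_le_div_iff₀ hX (by norm_num)]
      nlinarith
    linarith
  have hsm1 : ∀ v : ℂ, ‖v‖ ≤ ρ → ‖-v * ((D₁ / X₁ : ℝ) : ℂ)‖ ≤ ρ * |D₁| / X₁ := by
    intro v hv
    rw [norm_mul, norm_neg, Complex.norm_real, Real.norm_eq_abs, abs_div, abs_of_pos hX₁,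
      mul_div_assoc]
    exact mul_le_mul_of_nonneg_right hv (by positivity)
  have hquart : ρ * |D₁| / X₁ ≤ 1 / 2 := by
    rw [div_le_div_iff₀ hX₁ (by norm_num)]
    nlinarith
  -- the square roots
  have hf : ∀ v : ℂ, ‖v‖ ≤ ρ → ‖(1 - v * ((D / X : ℝ) : ℂ)) ^ ((1 : ℂ) / 2)‖ ≤ 2 := by
    intro v hv
    have h2 := (sqrt_near (-v * ((D / X : ℝ) : ℂ)) (hsm v hv)).2
    have h3 : 1 + -v * ((D / X : ℝ) : ℂ) = 1 - v * ((D / X : ℝ) : ℂ) := by ring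
    rwa [h3] at h2
  have hg : ∀ v : ℂ, ‖v‖ ≤ ρ →
      ‖(1 - v * ((D₁ / X₁ : ℝ) : ℂ)) ^ ((1 : ℂ) / 2) - 1‖ ≤ ρ * |D₁| / X₁ := by
    intro v hv
    have h2 := (sqrt_near (-v * ((D₁ / X₁ : ℝ) : ℂ)) ((hsm1 v hv).trans hquart)).1
    have h3 : 1 + -v * ((D₁ / X₁ : ℝ) : ℂ) = 1 - v * ((D₁ / X₁ : ℝ) : ℂ) := by ring
    rw [h3] at h2
    exact h2.trans (hsm1 v hv)
  set f1 := (1 - w * ((D / X : ℝ) : ℂ)) ^ ((1 : ℂ) / 2) with hf1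
  set f2 := (1 - w' * ((D / X : ℝ) : ℂ)) ^ ((1 : ℂ) / 2) with hf2
  set g1 := (1 - w * ((D₁ / X₁ : ℝ) : ℂ)) ^ ((1 : ℂ) / 2) with hg1
  set g2 := (1 - w' * ((D₁ / X₁ : ℝ) : ℂ)) ^ ((1 : ℂ) / 2) with hg2
  -- the first sum
  have hord := order (nd w w') hinj k i ((D / X : ℝ) : ℂ) ρ E hρ hE haρ hec (by
    rw [Complex.norm_real, Real.norm_eq_abs, abs_div, abs_of_pos hX, mul_div_assoc',
      div_le_one hX]
    exact h0)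
  have hsum : ∑ j : Fin 3, Pm (nd w w') k 1 ((D / X : ℝ) : ℂ) i j
        * (1 + nd w w' j * ((D / X : ℝ) : ℂ)) ^ ((1 : ℂ) / 2)
      = Pm (nd w w') k 1 ((D / X : ℝ) : ℂ) i 0 + Pm (nd w w') k 1 ((D / X : ℝ) : ℂ) i 1 * f1
        + Pm (nd w w') k 1 ((D / X : ℝ) : ℂ) i 2 * f2 := by
    rw [Fin.sum_univ_three]
    have e0 : (1 : ℂ) + nd w w' 0 * ((D / X : ℝ) : ℂ) = 1 := by
      have h2 : nd w w' 0 = 0 := rfl
      rw [h2]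
      ring
    have e1 : (1 : ℂ) + nd w w' 1 * ((D / X : ℝ) : ℂ) = 1 - w * ((D / X : ℝ) : ℂ) := by
      have h2 : nd w w' 1 = -w := rfl
      rw [h2]
      ring
    have e2 : (1 : ℂ) + nd w w' 2 * ((D / X : ℝ) : ℂ) = 1 - w' * ((D / X : ℝ) : ℂ) := by
      have h2 : nd w w' 2 = -w' := rfl
      rw [h2]
      ring
    rw [e0, e1, e2, Complex.one_cpow, mul_one]
  rw [hsum] at hord
  have hcast : ((D / X : ℝ) : ℂ) = (D : ℂ) / (X : ℂ) := by push_cast; ring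
  have hhom : ∀ j, Pm (nd w w') k X D i j = (X : ℂ) ^ k * Pm (nd w w') k 1 ((D / X : ℝ) : ℂ) i j := by
    intro j
    rw [hcast]
    exact Pm_hom (nd w w') k X D hXne i j
  have hPle : ∀ j, ‖Pm (nd w w') k X D i j‖ ≤ ((k : ℝ) + 1) * 4 ^ k * E * X ^ k := by
    intro j
    apply Pm_le (nd w w') k X D i j ρ E hρ hE haρ hec
    nlinarith
  have hsplit : Pm (nd w w') k X D i 0 * z + Pm (nd w w') k X D i 1 * Ω
        + Pm (nd w w') k X D i 2 * Ω'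
      = (z : ℂ) * ((X : ℂ) ^ k * (Pm (nd w w') k 1 ((D / X : ℝ) : ℂ) i 0
          + Pm (nd w w') k 1 ((D / X : ℝ) : ℂ) i 1 * f1
          + Pm (nd w w') k 1 ((D / X : ℝ) : ℂ) i 2 * f2))
        + (z : ℂ) * (Pm (nd w w') k X D i 1 * f1 * (g1 - 1)
          + Pm (nd w w') k X D i 2 * f2 * (g2 - 1)) := by
    rw [hΩ, hΩ', hhom 0, hhom 1, hhom 2]
    ring
  rw [hsplit]
  have hT1 : ‖(z : ℂ) * ((X : ℂ) ^ k * (Pm (nd w w') k 1 ((D / X : ℝ) : ℂ) i 0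
          + Pm (nd w w') k 1 ((D / X : ℝ) : ℂ) i 1 * f1
          + Pm (nd w w') k 1 ((D / X : ℝ) : ℂ) i 2 * f2))‖
      ≤ |z| * E * (6 * 2 ^ k * (2 * ρ * |D|) ^ (3 * k) / X ^ (2 * k)) := by
    rw [norm_mul, norm_mul, norm_pow, Complex.norm_real, Complex.norm_real, Real.norm_eq_abs,
      Real.norm_eq_abs, abs_of_pos hX]
    have h2 : (2 * ρ * ‖((D / X : ℝ) : ℂ)‖) = (2 * ρ * |D|) / X := by
      rw [Complex.norm_real, Real.norm_eq_abs, abs_div, abs_of_pos hX]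
      ring
    rw [h2, div_pow] at hord
    have h3 : X ^ (3 * k) = X ^ (2 * k) * X ^ k := by rw [← pow_add]; ring_nf
    calc |z| * (X ^ k * ‖Pm (nd w w') k 1 ((D / X : ℝ) : ℂ) i 0
          + Pm (nd w w') k 1 ((D / X : ℝ) : ℂ) i 1 * f1
          + Pm (nd w w') k 1 ((D / X : ℝ) : ℂ) i 2 * f2‖)
        ≤ |z| * (X ^ k * (6 * 2 ^ k * E * ((2 * ρ * |D|) ^ (3 * k) / X ^ (3 * k)))) := by
          gcongr
      _ = |z| * E * (6 * 2 ^ k * (2 * ρ * |D|) ^ (3 * k) / X ^ (2 * k)) := by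
          rw [h3]
          field_simp
  have hT2 : ‖(z : ℂ) * (Pm (nd w w') k X D i 1 * f1 * (g1 - 1)
          + Pm (nd w w') k X D i 2 * f2 * (g2 - 1))‖
      ≤ |z| * E * (4 * ((k : ℝ) + 1) * 4 ^ k * X ^ k * (ρ * |D₁| / X₁)) := by
    rw [norm_mul, Complex.norm_real, Real.norm_eq_abs]
    have hone : ∀ (P f g : ℂ), ‖P‖ ≤ ((k : ℝ) + 1) * 4 ^ k * E * X ^ k → ‖f‖ ≤ 2 →
        ‖g‖ ≤ ρ * |D₁| / X₁ → ‖P * f * g‖ ≤ ((k : ℝ) + 1) * 4 ^ k * E * X ^ k * 2 * (ρ * |D₁| / X₁) := by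
      intro P f g hP hf hg
      rw [norm_mul, norm_mul]
      gcongr
    have e1 := hone _ f1 (g1 - 1) (hPle 1) (hf w hw) (hg w hw)
    have e2 := hone _ f2 (g2 - 1) (hPle 2) (hf w' hw') (hg w' hw')
    calc |z| * ‖Pm (nd w w') k X D i 1 * f1 * (g1 - 1) + Pm (nd w w') k X D i 2 * f2 * (g2 - 1)‖
        ≤ |z| * (((k : ℝ) + 1) * 4 ^ k * E * X ^ k * 2 * (ρ * |D₁| / X₁)
          + ((k : ℝ) + 1) * 4 ^ k * E * X ^ k * 2 * (ρ * |D₁| / X₁)) := by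
          apply mul_le_mul_of_nonneg_left _ (abs_nonneg z)
          exact (norm_add_le _ _).trans (add_le_add e1 e2)
      _ = |z| * E * (4 * ((k : ℝ) + 1) * 4 ^ k * X ^ k * (ρ * |D₁| / X₁)) := by ring
  refine (norm_add_le _ _).trans ((add_le_add hT1 hT2).trans (le_of_eq ?_))
  ring

end TwPade
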