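import Pool.Agent.LibTwPade.Defs

set_option autoImplicit false

namespace TwPade

/-- the square root of a number near one -/
private theorem sq_near (x : ℂ) (hx : ‖x‖ ≤ 1 / 100) :
    ((1 + x) ^ ((1 : ℂ) / 2)) ^ 2 = 1 + x ∧ ‖(1 + x) ^ ((1 : ℂ) / 2) - 1‖ ≤ 1 / 100 := by
  have hne : (1 : ℂ) + x ≠ 0 := by
    intro h0
    have h1 : x = -1 := by linear_combination h0
    rw [h1, norm_neg, norm_one] at hx
    norm_num at hx
  have hsq : ((1 + x) ^ ((1 : ℂ) / 2)) ^ 2 = 1 + x := by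
    rw [← Complex.cpow_nat_mul]
    norm_num
  refine ⟨hsq, ?_⟩
  set s := (1 + x) ^ ((1 : ℂ) / 2) with hs
  have hre : 0 ≤ s.re := by
    have h1 : s = Complex.exp (Complex.log (1 + x) * ((1 : ℂ) / 2)) := by
      rw [hs, Complex.cpow_def_of_ne_zero hne]
    rw [h1, Complex.exp_re]
    apply mul_nonneg (Real.exp_pos _).le
    have h2 : (Complex.log (1 + x) * ((1 : ℂ) / 2)).im = Complex.arg (1 + x) / 2 := by
      have h3 : Complex.log (1 + x) * ((1 : ℂ) / 2) = ((1 / 2 : ℝ) : ℂ) * Complex.log (1 + x) := by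
        push_cast
        ring
      rw [h3, Complex.im_ofReal_mul, Complex.log_im]
      ring
    rw [h2]
    apply Real.cos_nonneg_of_neg_pi_div_two_le_of_le
    · have := Complex.neg_pi_lt_arg (1 + x)
      linarith
    · have := Complex.arg_le_pi (1 + x)
      linarith
  have h3 : (1 : ℝ) ≤ ‖s + 1‖ := by
    calc (1 : ℝ) ≤ (s + 1).re := by
          rw [Complex.add_re, Complex.one_re]
          linarith
      _ ≤ ‖s + 1‖ := Complex.re_le_norm _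
  have h4 : (s - 1) * (s + 1) = x := by
    linear_combination hsq
  have h5 : ‖s - 1‖ * ‖s + 1‖ = ‖x‖ := by rw [← norm_mul, h4]
  have h6 : ‖s - 1‖ ≤ ‖s - 1‖ * ‖s + 1‖ := le_mul_of_one_le_right (norm_nonneg _) h3
  linarith

/-- Row R11. Let `β = (1+x₀)(1+x₁)`, `β' = (1+x₀')(1+x₁')`, `ν^2 = β β'`, `γ^2 = β + β' + 2ν`. Then
`((β + ν)/γ)^2 = β = ((1+x₀)^(1/2) (1+x₁)^(1/2))^2`, so the two numbers agree up to sign; both have
positive real part (`‖β - 1‖ ≤ 1/10`, `ν, γ > 0`; the product of the square roots is within `1/10`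
of `1`). -/
theorem sqrt_id (x₀ x₁ x₀' x₁' : ℂ) (ν γ : ℝ) (h0 : ‖x₀‖ ≤ 1 / 100) (h1 : ‖x₁‖ ≤ 1 / 100)
    (h0' : ‖x₀'‖ ≤ 1 / 100) (h1' : ‖x₁'‖ ≤ 1 / 100) (hν : 0 < ν)
    (hν2 : ((ν : ℂ)) ^ 2 = (1 + x₀) * (1 + x₁) * ((1 + x₀') * (1 + x₁'))) (hγ : 0 < γ)
    (hγ2 : ((γ : ℂ)) ^ 2 = (1 + x₀) * (1 + x₁) + (1 + x₀') * (1 + x₁') + 2 * ν) :
    ((1 + x₀) * (1 + x₁) + ν) / γ
      = (1 + x₀) ^ ((1 : ℂ) / 2) * (1 + x₁) ^ ((1 : ℂ) / 2) := by
  obtain ⟨hs0, hn0⟩ := sq_near x₀ h0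
  obtain ⟨hs1, hn1⟩ := sq_near x₁ h1
  set s := (1 + x₀) ^ ((1 : ℂ) / 2) with hs
  set t := (1 + x₁) ^ ((1 : ℂ) / 2) with ht
  have hγ' : (γ : ℂ) ≠ 0 := by exact_mod_cast hγ.ne'
  have hq : (((1 + x₀) * (1 + x₁) + ν) / γ) ^ 2 = (s * t) ^ 2 := by
    rw [mul_pow, hs0, hs1, div_pow, div_eq_iff (pow_ne_zero 2 hγ'), hγ2]
    linear_combination hν2
  have hre1 : 0 < ((s * t).re) := by
    have h2 : ‖s * t - 1‖ ≤ 3 / 100 := by
      have h3 : s * t - 1 = (s - 1) * (t - 1) + (s - 1) + (t - 1) := by ring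
      rw [h3]
      calc ‖(s - 1) * (t - 1) + (s - 1) + (t - 1)‖ ≤ ‖(s - 1) * (t - 1)‖ + ‖s - 1‖ + ‖t - 1‖ :=
            norm_add₃_le
        _ ≤ 3 / 100 := by
            rw [norm_mul]
            nlinarith [norm_nonneg (s - 1), norm_nonneg (t - 1)]
    have h4 : -(3 / 100 : ℝ) ≤ (s * t - 1).re := by
      have := Complex.abs_re_le_norm (s * t - 1)
      have h5 := abs_le.1 (this.trans h2)
      exact h5.1
    rw [Complex.sub_re, Complex.one_re] at h4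
    linarith
  have hre2 : 0 < ((((1 + x₀) * (1 + x₁) + ν) / γ : ℂ)).re := by
    have h2 : ‖(1 + x₀) * (1 + x₁) - 1‖ ≤ 3 / 100 := by
      have h3 : (1 + x₀) * (1 + x₁) - 1 = x₀ * x₁ + x₀ + x₁ := by ring
      rw [h3]
      calc ‖x₀ * x₁ + x₀ + x₁‖ ≤ ‖x₀ * x₁‖ + ‖x₀‖ + ‖x₁‖ := norm_add₃_le
        _ ≤ 3 / 100 := by
            rw [norm_mul]
            nlinarith [norm_nonneg x₀, norm_nonneg x₁]
    have h4 : -(3 / 100 : ℝ) ≤ ((1 + x₀) * (1 + x₁) - 1).re := by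
      have := Complex.abs_re_le_norm ((1 + x₀) * (1 + x₁) - 1)
      have h5 := abs_le.1 (this.trans h2)
      exact h5.1
    rw [Complex.sub_re, Complex.one_re] at h4
    rw [Complex.div_ofReal_re]
    apply div_pos _ hγ
    rw [Complex.add_re, Complex.ofReal_re]
    linarith
  rcases sq_eq_sq_iff_eq_or_eq_neg.1 hq with h | h
  · exact h
  · exfalso
    rw [h, Complex.neg_re] at hre2
    linarith

end TwPade
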