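import Pool.Agent.LibTwPade.R8

set_option autoImplicit false

namespace TwPade

private theorem omega_aux (a b m X D w₀ X₁ D₁ w₁ c J R : ℤ) (w w' : ℂ) (hs : w + w' = -a)
    (hp : w * w' = b) (hJ : J = X * D₁ + X₁ * D + a * D * D₁)
    (hR : (a ^ 2 - 4 * b) * J = c * R) (hc0 : c ≠ 0)
    (hc : 2 * X * X₁ + a * (X * D₁ + X₁ * D) + (a ^ 2 - 2 * b) * D * D₁ + 2 * m * w₀ * w₁
      = c ^ 2) :
    2 * ((a ^ 2 - 4 * b : ℤ) : ℂ)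
        * ((((X : ℂ) - w * D) * (X₁ - w * D₁) + m * w₀ * w₁) / c)
      = (((a ^ 2 - 4 * b) * c - a * R : ℤ) : ℂ) + ((-2 * R : ℤ) : ℂ) * w := by
  have hcC : (c : ℂ) ≠ 0 := by exact_mod_cast hc0
  have hw : w ^ 2 + a * w + b = 0 := by
    have : (a : ℂ) = -(w + w') := by rw [hs]; ring
    rw [this, ← hp]; ring
  have hRC : (((a : ℂ)) ^ 2 - 4 * b) * (X * D₁ + X₁ * D + a * D * D₁) = c * R := by
    rw [hJ] at hR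
    exact_mod_cast hR
  have hcc : 2 * (X : ℂ) * X₁ + a * (X * D₁ + X₁ * D) + (a ^ 2 - 2 * b) * D * D₁
      + 2 * m * w₀ * w₁ = c ^ 2 := by exact_mod_cast hc
  rw [mul_div_assoc', div_eq_iff hcC]
  push_cast
  linear_combination (-(a + 2 * w)) * hRC + ((a : ℂ) ^ 2 - 4 * b) * hcc
    + 2 * ((a : ℂ) ^ 2 - 4 * b) * D * D₁ * hw

/-- Row R12. `δ = a^2 - 4b`, `β = (X - wD)(X₁ - wD₁)`, `β'` its conjugate, `n = m w₀ w₁`,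
`β β' = n^2` (`h0`, `h1`), `β + β' + 2n = c^2`, `β - β' = (w' - w) J`, `J = X D₁ + X₁ D + a D D₁`,
so `δ J^2 = c^2 (c^2 - 4n)`, `(δ J)^2 = c^2 (δ (c^2 - 4n))`, `c ∣ δ J` (`Int.pow_dvd_pow_iff`),
`δ J = c R`. `Ω + Ω' = c`, `Ω - Ω' = (w' - w) J / c`, `w' - w = -(2w + a)`, hence
`2 δ Ω = δ c - (2w + a) R = (δ c - a R) + (-2R) w`, `2 δ Ω' = (δ c - a R) + (-2R) w'`. -/
theorem omega_int (a b m X D w₀ X₁ D₁ w₁ c : ℤ) (w w' : ℂ) (hs : w + w' = -a) (hp : w * w' = b)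
    (hδ : a ^ 2 - 4 * b ≠ 0) (h0 : X ^ 2 + a * X * D + b * D ^ 2 = m * w₀ ^ 2)
    (h1 : X₁ ^ 2 + a * X₁ * D₁ + b * D₁ ^ 2 = m * w₁ ^ 2) (hc0 : c ≠ 0)
    (hc : 2 * X * X₁ + a * (X * D₁ + X₁ * D) + (a ^ 2 - 2 * b) * D * D₁ + 2 * m * w₀ * w₁
      = c ^ 2) :
    Sp w w' (2 * (a ^ 2 - 4 * b : ℤ)
        * ((((X : ℂ) - w * D) * (X₁ - w * D₁) + m * w₀ * w₁) / c))
      (2 * (a ^ 2 - 4 * b : ℤ)
        * ((((X : ℂ) - w' * D) * (X₁ - w' * D₁) + m * w₀ * w₁) / c)) := by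
  obtain ⟨J, hJ⟩ : ∃ J : ℤ, J = X * D₁ + X₁ * D + a * D * D₁ := ⟨_, rfl⟩
  have hT : 2 * X * X₁ + a * (X * D₁ + X₁ * D) + (a ^ 2 - 2 * b) * D * D₁
      = c ^ 2 - 2 * (m * w₀ * w₁) := by linarith
  have e1 : (a ^ 2 - 4 * b) * J ^ 2
      = (2 * X * X₁ + a * (X * D₁ + X₁ * D) + (a ^ 2 - 2 * b) * D * D₁) ^ 2
        - 4 * (X ^ 2 + a * X * D + b * D ^ 2) * (X₁ ^ 2 + a * X₁ * D₁ + b * D₁ ^ 2) := by
    rw [hJ]; ring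
  rw [h0, h1, hT] at e1
  have e2 : ((a ^ 2 - 4 * b) * J) ^ 2
      = c ^ 2 * ((a ^ 2 - 4 * b) * (c ^ 2 - 4 * (m * w₀ * w₁))) := by
    calc ((a ^ 2 - 4 * b) * J) ^ 2 = (a ^ 2 - 4 * b) * ((a ^ 2 - 4 * b) * J ^ 2) := by ring
      _ = _ := by rw [e1]; ring
  have e3 : c ∣ (a ^ 2 - 4 * b) * J :=
    (Int.pow_dvd_pow_iff (by norm_num : (2 : ℕ) ≠ 0)).1 ⟨_, e2⟩
  obtain ⟨R, hR⟩ := e3
  refine ⟨(a ^ 2 - 4 * b) * c - a * R, -2 * R, ?_, ?_⟩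
  · exact omega_aux a b m X D w₀ X₁ D₁ w₁ c J R w w' hs hp hJ hR hc0 hc
  · exact omega_aux a b m X D w₀ X₁ D₁ w₁ c J R w' w (by rw [add_comm]; exact hs)
      (by rw [mul_comm]; exact hp) hJ hR hc0 hc

end TwPade
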