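import Pool.Agent.LibTwPade.Defs

set_option autoImplicit false

namespace TwPade

/-- Row R13a. Choice of the level. `k = ⌊log u₁ / (3 log u₀)⌋ ≥ 8`: `u₀^(3k) ≤ u₁ < u₀^(3k+3)`, and
`(T^(71k))^16 ≤ u₀^k`. -/
theorem choose_k (T u₀ u₁ : ℝ) (hT : 2 ≤ T) (h0 : T ^ 1136 ≤ u₀) (h1 : u₀ ^ 24 ≤ u₁) :
    ∃ k : ℕ, 1 ≤ k ∧ T ^ (71 * k) * (u₁ * u₀ / u₀ ^ (4 * k)) ≤ 1 / 8 ∧
      T ^ (71 * k) * (u₀ ^ (2 * k + 1) / u₁) ≤ 1 / 8 := by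
  have hT1 : (1 : ℝ) ≤ T := le_trans one_le_two hT
  obtain ⟨v, hv⟩ : ∃ v : ℝ, v = T ^ 71 := ⟨_, rfl⟩
  have hv2 : 2 ≤ v := by
    rw [hv]
    exact le_trans hT (le_self_pow₀ hT1 (by norm_num))
  have hv1 : 1 ≤ v := le_trans one_le_two hv2
  have hvu : v ^ 16 ≤ u₀ := by
    rw [hv, ← pow_mul]
    exact h0
  have hu1 : 1 ≤ u₀ := le_trans (one_le_pow₀ hv1) hvu
  have hu2 : 2 ≤ u₀ := le_trans hv2 (le_trans (le_self_pow₀ hv1 (by norm_num)) hvu)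
  have hu0 : 0 < u₀ := lt_of_lt_of_le one_pos hu1
  have h8 : 8 * v ^ 8 ≤ u₀ := by
    have h2 : (8 : ℝ) ≤ v ^ 3 := by
      have h3 : (2 : ℝ) ^ 3 ≤ v ^ 3 := pow_le_pow_left₀ (by norm_num) hv2 3
      norm_num at h3
      exact h3
    calc 8 * v ^ 8 ≤ v ^ 3 * v ^ 8 := mul_le_mul_of_nonneg_right h2 (pow_nonneg (by linarith) _)
      _ = v ^ 11 := by ring
      _ ≤ v ^ 16 := pow_le_pow_right₀ hv1 (by norm_num)
      _ ≤ u₀ := hvu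
  have hvu' : v ≤ u₀ := le_trans (le_self_pow₀ hv1 (by norm_num)) hvu
  classical
  have hex : ∃ n : ℕ, u₁ < (u₀ ^ 3) ^ n := by
    refine pow_unbounded_of_one_lt u₁ ?_
    exact one_lt_pow₀ (by linarith) (by norm_num)
  have hn := Nat.find_spec hex
  have hmin : ∀ m < Nat.find hex, (u₀ ^ 3) ^ m ≤ u₁ := fun m hm => not_lt.1 (Nat.find_min hex hm)
  generalize Nat.find hex = n at hn hmin
  have hn8 : 8 < n := by
    by_contra hcon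
    push Not at hcon
    have h2 : (u₀ ^ 3) ^ n ≤ (u₀ ^ 3) ^ 8 := pow_le_pow_right₀ (one_le_pow₀ hu1) hcon
    have h3 : (u₀ ^ 3) ^ 8 = u₀ ^ 24 := by rw [← pow_mul]
    rw [h3] at h2
    linarith
  obtain ⟨j, rfl⟩ : ∃ j, n = j + 9 := ⟨n - 9, by omega⟩
  have hlow : u₀ ^ (3 * (j + 8)) ≤ u₁ := by
    have h2 := hmin (j + 8) (by omega)
    rwa [← pow_mul] at h2
  have hup : u₁ ≤ u₀ ^ (3 * (j + 9)) := by
    rw [← pow_mul] at hn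
    exact hn.le
  have hu1pos : 0 < u₁ := lt_of_lt_of_le (pow_pos hu0 _) hlow
  have hTk : T ^ (71 * (j + 8)) = v ^ j * v ^ 8 := by
    rw [hv, ← pow_add, ← pow_mul]
  have hvj : v ^ j ≤ u₀ ^ j := pow_le_pow_left₀ (by linarith) hvu' j
  have hvj0 : 0 ≤ v ^ j := pow_nonneg (by linarith) _
  refine ⟨j + 8, by omega, ?_, ?_⟩
  · rw [hTk, ← mul_div_assoc, div_le_iff₀ (pow_pos hu0 _)]
    have h2 : 8 * v ^ 8 * v ^ j ≤ u₀ * u₀ ^ j :=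
      mul_le_mul h8 hvj hvj0 hu0.le
    have h3 : u₁ * u₀ ≤ u₀ ^ (3 * (j + 9)) * u₀ := mul_le_mul_of_nonneg_right hup hu0.le
    have h4 : (u₀ * u₀ ^ j) * (u₀ ^ (3 * (j + 9)) * u₀) = u₀ ^ (4 * j + 29) := by
      rw [show 4 * j + 29 = 1 + j + (3 * (j + 9) + 1) by ring]
      simp only [pow_add, pow_one]
    have h5 : u₀ ^ (4 * j + 29) ≤ u₀ ^ (4 * (j + 8)) := pow_le_pow_right₀ hu1 (by omega)
    have h6 : (8 * v ^ 8 * v ^ j) * (u₁ * u₀) ≤ (u₀ * u₀ ^ j) * (u₀ ^ (3 * (j + 9)) * u₀) :=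
      mul_le_mul h2 h3 (mul_nonneg hu1pos.le hu0.le) (mul_nonneg hu0.le (pow_nonneg hu0.le _))
    rw [h4] at h6
    linarith
  · rw [hTk, ← mul_div_assoc, div_le_iff₀ hu1pos]
    have h2 : 8 * v ^ 8 * v ^ j ≤ u₀ * u₀ ^ j :=
      mul_le_mul h8 hvj hvj0 hu0.le
    have h3 : (8 * v ^ 8 * v ^ j) * u₀ ^ (2 * (j + 8) + 1) ≤ (u₀ * u₀ ^ j) * u₀ ^ (2 * (j + 8) + 1) :=
      mul_le_mul_of_nonneg_right h2 (pow_nonneg hu0.le _)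
    have h4 : (u₀ * u₀ ^ j) * u₀ ^ (2 * (j + 8) + 1) = u₀ ^ (3 * j + 18) := by
      rw [show 3 * j + 18 = 1 + j + (2 * (j + 8) + 1) by ring]
      simp only [pow_add, pow_one]
    have h5 : u₀ ^ (3 * j + 18) ≤ u₀ ^ (3 * (j + 8)) := pow_le_pow_right₀ hu1 (by omega)
    rw [h4] at h3
    linarith

end TwPade
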