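import Pool.Agent.LibTwPade.Defs

set_option autoImplicit false

namespace TwPade

/-- Row R13b. Collecting the constants, `2 ≤ T`: with `δ ≤ 3T^2`, `ρ = 2T`,
`E = 9 2^(4k) (2T)^(3k+4)`, `|z| ≤ T u₀ u₁`, `u₀^2 ≤ X ≤ T u₀^2`, `u₁^2 ≤ X₁`, `|D|, |D₁| ≤ T`. The
left side is at most `T^(71k) (u₁ u₀^(1-4k) + u₀^(2k+1)/u₁)` for `k ≥ 1` (in fact
`T^(40k+31)` and `T^(31k+33)`; `3 ≤ T^2`, `k + 1 ≤ 2^k ≤ T^k`, ...). -/
theorem constants (T u₀ u₁ X X₁ z D D₁ δ β : ℝ) (k : ℕ) (hk : 1 ≤ k) (hT : 2 ≤ T)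
    (hu₀ : 1 ≤ u₀) (hu₁ : 1 ≤ u₁) (hX : u₀ ^ 2 ≤ X) (hX' : X ≤ T * u₀ ^ 2) (hX₁ : u₁ ^ 2 ≤ X₁)
    (hz : |z| ≤ T * u₀ * u₁) (hD : |D| ≤ T) (hD₁ : |D₁| ≤ T) (hδ : |δ| ≤ 3 * T ^ 2)
    (hβ : |β| ≤ T) :
    2 * |δ| * 4 ^ k * |β * δ| ^ (3 * k + 2)
      * (|z| * (9 * 2 ^ (4 * k) * (2 * T) ^ (3 * k + 4))
        * (6 * 2 ^ k * (2 * (2 * T) * |D|) ^ (3 * k) / X ^ (2 * k)
          + 4 * ((k : ℝ) + 1) * 4 ^ k * X ^ k * ((2 * T) * |D₁| / X₁)))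
      ≤ T ^ (71 * k) * (u₁ * u₀ / u₀ ^ (4 * k)) + T ^ (71 * k) * (u₀ ^ (2 * k + 1) / u₁) := by
  have hT0 : 0 < T := by linarith
  have hT1 : 1 ≤ T := by linarith
  have hT2 : 4 ≤ T ^ 2 := by nlinarith
  have hT3 : 8 ≤ T ^ 3 := by
    have h1 : (2 : ℝ) ^ 3 ≤ T ^ 3 := pow_le_pow_left₀ (by norm_num) hT 3
    linarith
  have hT4 : 16 ≤ T ^ 4 := by
    have h1 : (2 : ℝ) ^ 4 ≤ T ^ 4 := pow_le_pow_left₀ (by norm_num) hT 4
    linarith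
  have hu₀0 : 0 < u₀ := by linarith
  have hu₁0 : 0 < u₁ := by linarith
  have hX0 : 0 < X := lt_of_lt_of_le (by positivity) hX
  have hX₁0 : 0 < X₁ := lt_of_lt_of_le (by positivity) hX₁
  have q2 : (2 : ℝ) ^ k ≤ T ^ k := pow_le_pow_left₀ (by norm_num) hT k
  have q4 : (4 : ℝ) ^ k ≤ (T ^ 2) ^ k := pow_le_pow_left₀ (by norm_num) hT2 k
  have q16 : (2 : ℝ) ^ (4 * k) ≤ T ^ (4 * k) := pow_le_pow_left₀ (by norm_num) hT _
  have p1 : 2 * |δ| ≤ T ^ 5 := by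
    have h1 : T ^ 5 = T ^ 3 * T ^ 2 := by ring
    have h2 : 8 * T ^ 2 ≤ T ^ 3 * T ^ 2 := mul_le_mul_of_nonneg_right hT3 (by positivity)
    nlinarith
  have p3 : |β * δ| ≤ T ^ 5 := by
    rw [abs_mul]
    have h1 : |β| * |δ| ≤ T * (3 * T ^ 2) := mul_le_mul hβ hδ (abs_nonneg _) hT0.le
    have h2 : 4 * T ^ 3 ≤ T ^ 2 * T ^ 3 := mul_le_mul_of_nonneg_right hT2 (by positivity)
    have h3 : T ^ 5 = T ^ 2 * T ^ 3 := by ring
    have h4 : T * (3 * T ^ 2) = 3 * T ^ 3 := by ring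
    have h5 : 0 < T ^ 3 := by positivity
    linarith
  have p3' : |β * δ| ^ (3 * k + 2) ≤ (T ^ 5) ^ (3 * k + 2) := pow_le_pow_left₀ (abs_nonneg _) p3 _
  have P : 2 * |δ| * 4 ^ k * |β * δ| ^ (3 * k + 2) ≤ T ^ 5 * (T ^ 2) ^ k * (T ^ 5) ^ (3 * k + 2) :=
    mul_le_mul (mul_le_mul p1 q4 (by positivity) (by positivity)) p3' (by positivity) (by positivity)
  have hE1 : (2 * T) ^ (3 * k + 4) ≤ (T ^ 2) ^ (3 * k + 4) :=
    pow_le_pow_left₀ (by positivity) (by nlinarith) _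
  have hE : 9 * 2 ^ (4 * k) * (2 * T) ^ (3 * k + 4) ≤ T ^ 4 * T ^ (4 * k) * (T ^ 2) ^ (3 * k + 4) :=
    mul_le_mul (mul_le_mul (by linarith) q16 (by positivity) (by positivity)) hE1 (by positivity)
      (by positivity)
  have hA1 : (2 * (2 * T) * |D|) ^ (3 * k) ≤ (T ^ 4) ^ (3 * k) := by
    refine pow_le_pow_left₀ (by positivity) ?_ _
    have h1 : 2 * (2 * T) * |D| ≤ 2 * (2 * T) * T := mul_le_mul_of_nonneg_left hD (by positivity)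
    have h2 : 4 * T ^ 2 ≤ T ^ 2 * T ^ 2 := mul_le_mul_of_nonneg_right hT2 (by positivity)
    have h3 : T ^ 4 = T ^ 2 * T ^ 2 := by ring
    have h4 : 2 * (2 * T) * T = 4 * T ^ 2 := by ring
    linarith
  have hA2 : u₀ ^ (4 * k) ≤ X ^ (2 * k) := by
    have h1 : (u₀ ^ 2) ^ (2 * k) ≤ X ^ (2 * k) := pow_le_pow_left₀ (by positivity) hX _
    rw [← pow_mul] at h1
    have h2 : 2 * (2 * k) = 4 * k := by ring
    rw [h2] at h1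
    exact h1
  have hA : 6 * 2 ^ k * (2 * (2 * T) * |D|) ^ (3 * k) / X ^ (2 * k) ≤
      T ^ 3 * T ^ k * (T ^ 4) ^ (3 * k) / u₀ ^ (4 * k) := by
    refine div_le_div₀ (by positivity) ?_ (by positivity) hA2
    exact mul_le_mul (mul_le_mul (by linarith) q2 (by positivity) (by positivity)) hA1
      (by positivity) (by positivity)
  have hk2 : (k : ℝ) + 1 ≤ T ^ k := by
    have h1 : k + 1 ≤ 2 ^ k := Nat.lt_two_pow_self
    have h2 : ((k + 1 : ℕ) : ℝ) ≤ ((2 ^ k : ℕ) : ℝ) := by exact_mod_cast h1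
    push_cast at h2
    exact h2.trans q2
  have hB1 : X ^ k ≤ (T * u₀ ^ 2) ^ k := pow_le_pow_left₀ hX0.le hX' k
  have hB2 : 2 * T * |D₁| / X₁ ≤ T ^ 3 / u₁ ^ 2 := by
    refine div_le_div₀ (by positivity) ?_ (by positivity) hX₁
    have h1 : 2 * T * |D₁| ≤ 2 * T * T := mul_le_mul_of_nonneg_left hD₁ (by positivity)
    have h2 : 2 * T ^ 2 ≤ T * T ^ 2 := mul_le_mul_of_nonneg_right hT (by positivity)
    have h3 : T ^ 3 = T * T ^ 2 := by ring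
    have h4 : 2 * T * T = 2 * T ^ 2 := by ring
    linarith
  have hB : 4 * ((k : ℝ) + 1) * 4 ^ k * X ^ k * ((2 * T) * |D₁| / X₁) ≤
      T ^ 2 * T ^ k * (T ^ 2) ^ k * (T * u₀ ^ 2) ^ k * (T ^ 3 / u₁ ^ 2) := by
    refine mul_le_mul (mul_le_mul (mul_le_mul (mul_le_mul hT2 hk2 (by positivity) (by positivity))
      q4 (by positivity) (by positivity)) hB1 (by positivity) (by positivity)) hB2 ?_ (by positivity)
    positivity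
  have hAB0 : 0 ≤ 6 * 2 ^ k * (2 * (2 * T) * |D|) ^ (3 * k) / X ^ (2 * k)
      + 4 * ((k : ℝ) + 1) * 4 ^ k * X ^ k * ((2 * T) * |D₁| / X₁) := by positivity
  have hmain : 2 * |δ| * 4 ^ k * |β * δ| ^ (3 * k + 2)
      * (|z| * (9 * 2 ^ (4 * k) * (2 * T) ^ (3 * k + 4))
        * (6 * 2 ^ k * (2 * (2 * T) * |D|) ^ (3 * k) / X ^ (2 * k)
          + 4 * ((k : ℝ) + 1) * 4 ^ k * X ^ k * ((2 * T) * |D₁| / X₁))) ≤
      T ^ 5 * (T ^ 2) ^ k * (T ^ 5) ^ (3 * k + 2) *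
        ((T * u₀ * u₁) * (T ^ 4 * T ^ (4 * k) * (T ^ 2) ^ (3 * k + 4)) *
          (T ^ 3 * T ^ k * (T ^ 4) ^ (3 * k) / u₀ ^ (4 * k) +
            T ^ 2 * T ^ k * (T ^ 2) ^ k * (T * u₀ ^ 2) ^ k * (T ^ 3 / u₁ ^ 2))) := by
    refine mul_le_mul P ?_ (by positivity) (by positivity)
    refine mul_le_mul (mul_le_mul hz hE (by positivity) (by positivity)) (add_le_add hA hB) hAB0
      (by positivity)
  refine hmain.trans ?_
  have heq : T ^ 5 * (T ^ 2) ^ k * (T ^ 5) ^ (3 * k + 2) *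
        ((T * u₀ * u₁) * (T ^ 4 * T ^ (4 * k) * (T ^ 2) ^ (3 * k + 4)) *
          (T ^ 3 * T ^ k * (T ^ 4) ^ (3 * k) / u₀ ^ (4 * k) +
            T ^ 2 * T ^ k * (T ^ 2) ^ k * (T * u₀ ^ 2) ^ k * (T ^ 3 / u₁ ^ 2))) =
      T ^ (40 * k + 31) * (u₁ * u₀ / u₀ ^ (4 * k)) +
        T ^ (31 * k + 33) * (u₀ ^ (2 * k + 1) / u₁) := by
    have e1 : u₀ ^ (4 * k) ≠ 0 := by positivity
    field_simp
    ring
  rw [heq]
  refine add_le_add (mul_le_mul_of_nonneg_right (pow_le_pow_right₀ hT1 (by omega)) (by positivity))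
    (mul_le_mul_of_nonneg_right (pow_le_pow_right₀ hT1 (by omega)) (by positivity))

end TwPade
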