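import Pool.Agent.LibTwPade.Defs

set_option autoImplicit false

namespace TwPade

/-- Row R13c. Roots: `w = (-a + s)/2`, `w' = (-a - s)/2`, `s^2 = a^2 - 4b` in `ℂ`;
`‖s‖ ≤ T + 2` as `T^2 + 4T ≤ (T+2)^2`; `‖w⁻¹‖ = ‖w'‖/|b|`, `‖(w - w')⁻¹‖ = ‖s‖⁻¹ ≤ 1`. -/
theorem roots (T : ℝ) (hT : 2 ≤ T) (a b : ℤ) (ha : |(a : ℝ)| ≤ T) (hbT : |(b : ℝ)| ≤ T)
    (hb : b ≠ 0) (hδ : a ^ 2 - 4 * b ≠ 0) :
    ∃ w w' : ℂ, w + w' = -a ∧ w * w' = b ∧ (∀ j, ‖nd w w' j‖ ≤ 2 * T) ∧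
      (∀ j l, j ≠ l → ‖(nd w w' j - nd w w' l)⁻¹‖ ≤ 2 * T) := by
  obtain ⟨s, hs⟩ := IsAlgClosed.exists_pow_nat_eq ((a : ℂ) ^ 2 - 4 * b) (n := 2) (by norm_num)
  have hnorm : ‖s‖ ^ 2 = |(a : ℝ) ^ 2 - 4 * b| := by
    rw [← norm_pow, hs]
    have h1 : ((a : ℂ) ^ 2 - 4 * b) = (((a : ℝ) ^ 2 - 4 * b : ℝ) : ℂ) := by push_cast; ring
    rw [h1, Complex.norm_real, Real.norm_eq_abs]
  have hsup : ‖s‖ ≤ T + 2 := by
    refine abs_le_of_sq_le_sq' ?_ (by linarith) |>.2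
    rw [hnorm]
    have h1 : |(a : ℝ) ^ 2 - 4 * b| ≤ |(a : ℝ) ^ 2| + |4 * (b : ℝ)| := abs_sub _ _
    have h2 : |(a : ℝ) ^ 2| ≤ T ^ 2 := by
      rw [abs_pow]
      exact pow_le_pow_left₀ (abs_nonneg _) ha 2
    have h3 : |4 * (b : ℝ)| ≤ 4 * T := by
      rw [abs_mul, abs_of_pos (by norm_num : (0 : ℝ) < 4)]
      linarith
    nlinarith
  have hslow : 1 ≤ ‖s‖ := by
    by_contra hcon
    push Not at hcon
    have h1 : ‖s‖ ^ 2 < 1 := by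
      have := norm_nonneg s
      nlinarith
    rw [hnorm] at h1
    have h2 : ((1 : ℤ) : ℝ) ≤ ((|a ^ 2 - 4 * b| : ℤ) : ℝ) := Int.cast_le.2 (Int.one_le_abs hδ)
    push_cast at h2
    linarith
  have hs0 : s ≠ 0 := by
    intro h
    rw [h, norm_zero] at hslow
    linarith
  have hac : ‖(a : ℂ)‖ ≤ T := by
    rw [Complex.norm_intCast]
    exact ha
  obtain ⟨w, hw⟩ : ∃ w : ℂ, w = (-a + s) / 2 := ⟨_, rfl⟩
  obtain ⟨w', hw'⟩ : ∃ w' : ℂ, w' = (-a - s) / 2 := ⟨_, rfl⟩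
  have hsum : w + w' = -a := by
    rw [hw, hw']
    ring
  have hprod : w * w' = b := by
    rw [hw, hw']
    linear_combination (-1 / 4 : ℂ) * hs
  have hdiff : w - w' = s := by
    rw [hw, hw']
    ring
  have h2 : ‖(2 : ℂ)‖ = 2 := by simp
  have hwn : ‖w‖ ≤ 2 * T := by
    rw [hw, norm_div, h2, div_le_iff₀ (by norm_num)]
    have h3 : ‖-(a : ℂ) + s‖ ≤ ‖(a : ℂ)‖ + ‖s‖ := by
      have := norm_add_le (-(a : ℂ)) s
      rwa [norm_neg] at this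
    linarith
  have hwn' : ‖w'‖ ≤ 2 * T := by
    rw [hw', norm_div, h2, div_le_iff₀ (by norm_num)]
    have h3 : ‖-(a : ℂ) - s‖ ≤ ‖(a : ℂ)‖ + ‖s‖ := by
      have := norm_sub_le (-(a : ℂ)) s
      rwa [norm_neg] at this
    linarith
  have hbc : (b : ℂ) ≠ 0 := by exact_mod_cast hb
  have hbn : 1 ≤ ‖(b : ℂ)‖ := by
    rw [Complex.norm_intCast]
    exact_mod_cast Int.one_le_abs hb
  have hw0 : w ≠ 0 := by
    intro h
    rw [h, zero_mul] at hprod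
    exact hbc hprod.symm
  have hw0' : w' ≠ 0 := by
    intro h
    rw [h, mul_zero] at hprod
    exact hbc hprod.symm
  have hinv : ‖w⁻¹‖ ≤ 2 * T := by
    have h3 : w⁻¹ = w' / b := by
      rw [← hprod]
      field_simp
    rw [h3, norm_div]
    exact le_trans (div_le_self (norm_nonneg _) hbn) hwn'
  have hinv' : ‖w'⁻¹‖ ≤ 2 * T := by
    have h3 : w'⁻¹ = w / b := by
      rw [← hprod]
      field_simp
    rw [h3, norm_div]
    exact le_trans (div_le_self (norm_nonneg _) hbn) hwn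
  have hinvs : ‖s⁻¹‖ ≤ 2 * T := by
    rw [norm_inv]
    exact le_trans (inv_le_one_of_one_le₀ hslow) (by linarith)
  refine ⟨w, w', hsum, hprod, ?_, ?_⟩
  · intro j
    fin_cases j
    · change ‖(0 : ℂ)‖ ≤ 2 * T
      rw [norm_zero]
      linarith
    · change ‖-w‖ ≤ 2 * T
      rw [norm_neg]
      exact hwn
    · change ‖-w'‖ ≤ 2 * T
      rw [norm_neg]
      exact hwn'
  · have key : ∀ x : ℂ, ‖x⁻¹‖ ≤ 2 * T → ‖(-x)⁻¹‖ ≤ 2 * T := fun x hx => by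
      rw [inv_neg, norm_neg]
      exact hx
    intro j l hjl
    fin_cases j <;> fin_cases l
    · exact absurd rfl hjl
    · change ‖((0 : ℂ) - -w)⁻¹‖ ≤ 2 * T
      rw [zero_sub, neg_neg]
      exact hinv
    · change ‖((0 : ℂ) - -w')⁻¹‖ ≤ 2 * T
      rw [zero_sub, neg_neg]
      exact hinv'
    · change ‖(-w - (0 : ℂ))⁻¹‖ ≤ 2 * T
      rw [sub_zero]
      exact key _ hinv
    · exact absurd rfl hjl
    · change ‖(-w - -w')⁻¹‖ ≤ 2 * T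
      rw [show -w - -w' = -(w - w') by ring, hdiff]
      exact key _ hinvs
    · change ‖(-w' - (0 : ℂ))⁻¹‖ ≤ 2 * T
      rw [sub_zero]
      exact key _ hinv'
    · change ‖(-w' - -w)⁻¹‖ ≤ 2 * T
      rw [show -w' - -w = w - w' by ring, hdiff]
      exact hinvs
    · exact absurd rfl hjl

end TwPade
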