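import Pool.Agent.LibTwPade.Defs

set_option autoImplicit false

namespace TwPade

/-- Row R8a. -/
theorem Sp_int (w w' : ℂ) (n : ℤ) : Sp w w' n n := ⟨n, 0, by simp, by simp⟩

theorem Sp_add {w w' x x' y y' : ℂ} (h : Sp w w' x x') (g : Sp w w' y y') :
    Sp w w' (x + y) (x' + y') := by
  obtain ⟨A, B, h1, h2⟩ := h
  obtain ⟨C, D, g1, g2⟩ := g
  refine ⟨A + C, B + D, ?_, ?_⟩
  · rw [h1, g1]
    push_cast
    ring
  · rw [h2, g2]
    push_cast
    ring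

private lemma quad {w w' : ℂ} (a b : ℤ) (hs : w + w' = -a) (hp : w * w' = b) :
    w ^ 2 + a * w + b = 0 ∧ w' ^ 2 + a * w' + b = 0 := by
  constructor
  · linear_combination w * hs - hp
  · linear_combination w' * hs - hp

/-- `w^2 = -a w - b` and `w'^2 = -a w' - b`. -/
theorem Sp_mul {w w' x x' y y' : ℂ} (a b : ℤ) (hs : w + w' = -a) (hp : w * w' = b)
    (h : Sp w w' x x') (g : Sp w w' y y') : Sp w w' (x * y) (x' * y') := by
  obtain ⟨A, B, h1, h2⟩ := h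
  obtain ⟨C, D, g1, g2⟩ := g
  obtain ⟨q1, q2⟩ := quad a b hs hp
  refine ⟨A * C - b * (B * D), A * D + B * C - a * (B * D), ?_, ?_⟩
  · rw [h1, g1]
    push_cast
    linear_combination (B : ℂ) * D * q1
  · rw [h2, g2]
    push_cast
    linear_combination (B : ℂ) * D * q2

theorem Sp_pow {w w' x x' : ℂ} (a b : ℤ) (hs : w + w' = -a) (hp : w * w' = b)
    (h : Sp w w' x x') (n : ℕ) : Sp w w' (x ^ n) (x' ^ n) := by
  induction n with
  | zero =>
    rw [pow_zero, pow_zero]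
    exact ⟨1, 0, by simp, by simp⟩
  | succ n ih =>
    rw [pow_succ, pow_succ]
    exact Sp_mul a b hs hp ih h

theorem Sp_sum {ι : Type*} {w w' : ℂ} (s : Finset ι) (f f' : ι → ℂ)
    (h : ∀ i ∈ s, Sp w w' (f i) (f' i)) : Sp w w' (∑ i ∈ s, f i) (∑ i ∈ s, f' i) := by
  classical
  induction s using Finset.induction_on with
  | empty =>
    rw [Finset.sum_empty, Finset.sum_empty]
    exact ⟨0, 0, by simp, by simp⟩
  | insert i s hi ih =>
    rw [Finset.sum_insert hi, Finset.sum_insert hi]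
    exact Sp_add (h i (Finset.mem_insert_self i s))
      (ih fun j hj => h j (Finset.mem_insert_of_mem hj))

/-- `w` and `w'`; `w' = -a - w`. -/
theorem Sp_w {w w' : ℂ} (a : ℤ) (hs : w + w' = -a) : Sp w w' w w' ∧ Sp w w' w' w := by
  refine ⟨⟨0, 1, by simp, by simp⟩, ⟨-a, -1, ?_, ?_⟩⟩
  · push_cast
    linear_combination hs
  · push_cast
    linear_combination hs

/-- Row R8b. A small pair is zero: `x - x' = B (w - w')`, `‖w - w'‖^2 = |a^2 - 4b| ≥ 1`. -/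
theorem Sp_small {w w' x x' : ℂ} (a b : ℤ) (hs : w + w' = -a) (hp : w * w' = b)
    (hδ : a ^ 2 - 4 * b ≠ 0) (h : Sp w w' x x') (hx : ‖x‖ < 1 / 2) (hx' : ‖x'‖ < 1 / 2) :
    x = 0 ∧ x' = 0 := by
  obtain ⟨A, B, h1, h2⟩ := h
  have hsq : (w - w') ^ 2 = ((a ^ 2 - 4 * b : ℤ) : ℂ) := by
    push_cast
    linear_combination (w + w' - a) * hs - 4 * hp
  have hB : B = 0 := by
    by_contra hB
    have h3 : x - x' = B * (w - w') := by
      rw [h1, h2]
      ring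
    have h4 : (x - x') ^ 2 = ((B ^ 2 * (a ^ 2 - 4 * b) : ℤ) : ℂ) := by
      rw [h3, mul_pow, hsq]
      push_cast
      ring
    have h5 : ‖x - x'‖ ^ 2 = |((B ^ 2 * (a ^ 2 - 4 * b) : ℤ) : ℝ)| := by
      rw [← norm_pow, h4, Complex.norm_intCast]
    have h6 : (1 : ℝ) ≤ |((B ^ 2 * (a ^ 2 - 4 * b) : ℤ) : ℝ)| := by
      have h7 : B ^ 2 * (a ^ 2 - 4 * b) ≠ 0 := mul_ne_zero (pow_ne_zero 2 hB) hδ
      have h8 := Int.one_le_abs h7
      exact_mod_cast h8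
    have h9 : ‖x - x'‖ < 1 := by
      have := norm_sub_le x x'
      linarith
    have h10 := norm_nonneg (x - x')
    nlinarith
  rw [hB] at h1 h2
  simp only [Int.cast_zero, zero_mul, add_zero] at h1 h2
  have hA : A = 0 := by
    by_contra hA
    have h3 := Int.one_le_abs hA
    rw [h1, Complex.norm_intCast] at hx
    have h4 : (1 : ℝ) ≤ |(A : ℝ)| := by exact_mod_cast h3
    linarith
  rw [h1, h2, hA]
  simp

private lemma ne_zero_pair {w w' : ℂ} (a b : ℤ) (hs : w + w' = -a) (hp : w * w' = b) (hb : b ≠ 0)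
    (hδ : a ^ 2 - 4 * b ≠ 0) : w ≠ 0 ∧ w' ≠ 0 ∧ w - w' ≠ 0 := by
  have hbC : (b : ℂ) ≠ 0 := by exact_mod_cast hb
  refine ⟨?_, ?_, ?_⟩
  · rintro rfl
    apply hbC
    rw [← hp, zero_mul]
  · rintro rfl
    apply hbC
    rw [← hp, mul_zero]
  · intro h0
    have hsq : (w - w') ^ 2 = ((a ^ 2 - 4 * b : ℤ) : ℂ) := by
      push_cast
      linear_combination (w + w' - a) * hs - 4 * hp
    rw [h0] at hsq
    have h1 : ((a ^ 2 - 4 * b : ℤ) : ℂ) = 0 := by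
      rw [← hsq]
      ring
    exact hδ (by exact_mod_cast h1)

/-- Row R8c. Inverses of differences of nodes: `w⁻¹ b = w'`, `(w - w')⁻¹ (a^2-4b) = w - w'`. -/
theorem Sp_inv {w w' : ℂ} (a b : ℤ) (hs : w + w' = -a) (hp : w * w' = b) (hb : b ≠ 0)
    (hδ : a ^ 2 - 4 * b ≠ 0) (j l : Fin 3) (hjl : j ≠ l) :
    Sp w w' ((b * (a ^ 2 - 4 * b) : ℤ) * (nd w w' j - nd w w' l)⁻¹)
      ((b * (a ^ 2 - 4 * b) : ℤ) * (nd w' w j - nd w' w l)⁻¹) := by
  obtain ⟨q1, q2⟩ := quad a b hs hp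
  obtain ⟨n1, n2, n3⟩ := ne_zero_pair a b hs hp hb hδ
  have n4 : w' - w ≠ 0 := by
    intro h
    apply n3
    rw [← neg_sub, h, neg_zero]
  have v0 : ∀ u u' : ℂ, nd u u' 0 = 0 := fun u u' => rfl
  have v1 : ∀ u u' : ℂ, nd u u' 1 = -u := fun u u' => rfl
  have v2 : ∀ u u' : ℂ, nd u u' 2 = -u' := fun u u' => rfl
  have m1 : (0 : ℂ) - -w ≠ 0 := by simpa using n1
  have m2 : (0 : ℂ) - -w' ≠ 0 := by simpa using n2
  have m3 : -w - 0 ≠ 0 := by simpa using n1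
  have m4 : -w' - 0 ≠ 0 := by simpa using n2
  have m5 : -w - -w' ≠ 0 := by
    intro h
    apply n4
    linear_combination h
  have m6 : -w' - -w ≠ 0 := by
    intro h
    apply n3
    linear_combination h
  fin_cases j <;> fin_cases l
  · exact absurd rfl hjl
  · refine ⟨-a * (a ^ 2 - 4 * b), -(a ^ 2 - 4 * b), ?_, ?_⟩
    · change ((b * (a ^ 2 - 4 * b) : ℤ) : ℂ) * (nd w w' 0 - nd w w' 1)⁻¹ = _
      rw [v0, v1, mul_inv_eq_iff_eq_mul₀ m1]
      push_cast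
      linear_combination ((a : ℂ) ^ 2 - 4 * b) * q1
    · change ((b * (a ^ 2 - 4 * b) : ℤ) : ℂ) * (nd w' w 0 - nd w' w 1)⁻¹ = _
      rw [v0, v1, mul_inv_eq_iff_eq_mul₀ m2]
      push_cast
      linear_combination ((a : ℂ) ^ 2 - 4 * b) * q2
  · refine ⟨0, a ^ 2 - 4 * b, ?_, ?_⟩
    · change ((b * (a ^ 2 - 4 * b) : ℤ) : ℂ) * (nd w w' 0 - nd w w' 2)⁻¹ = _
      rw [v0, v2, mul_inv_eq_iff_eq_mul₀ m2]
      push_cast
      linear_combination -((a : ℂ) ^ 2 - 4 * b) * hp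
    · change ((b * (a ^ 2 - 4 * b) : ℤ) : ℂ) * (nd w' w 0 - nd w' w 2)⁻¹ = _
      rw [v0, v2, mul_inv_eq_iff_eq_mul₀ m1]
      push_cast
      linear_combination -((a : ℂ) ^ 2 - 4 * b) * hp
  · refine ⟨a * (a ^ 2 - 4 * b), a ^ 2 - 4 * b, ?_, ?_⟩
    · change ((b * (a ^ 2 - 4 * b) : ℤ) : ℂ) * (nd w w' 1 - nd w w' 0)⁻¹ = _
      rw [v0, v1, mul_inv_eq_iff_eq_mul₀ m3]
      push_cast
      linear_combination ((a : ℂ) ^ 2 - 4 * b) * q1
    · change ((b * (a ^ 2 - 4 * b) : ℤ) : ℂ) * (nd w' w 1 - nd w' w 0)⁻¹ = _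
      rw [v0, v1, mul_inv_eq_iff_eq_mul₀ m4]
      push_cast
      linear_combination ((a : ℂ) ^ 2 - 4 * b) * q2
  · exact absurd rfl hjl
  · refine ⟨-(a * b), -(2 * b), ?_, ?_⟩
    · change ((b * (a ^ 2 - 4 * b) : ℤ) : ℂ) * (nd w w' 1 - nd w w' 2)⁻¹ = _
      rw [v1, v2, mul_inv_eq_iff_eq_mul₀ m5]
      push_cast
      linear_combination ((b : ℂ) * (a + 2 * w)) * hs - 4 * (b : ℂ) * q1
    · change ((b * (a ^ 2 - 4 * b) : ℤ) : ℂ) * (nd w' w 1 - nd w' w 2)⁻¹ = _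
      rw [v1, v2, mul_inv_eq_iff_eq_mul₀ m6]
      push_cast
      linear_combination ((b : ℂ) * (a + 2 * w')) * hs - 4 * (b : ℂ) * q2
  · refine ⟨0, -(a ^ 2 - 4 * b), ?_, ?_⟩
    · change ((b * (a ^ 2 - 4 * b) : ℤ) : ℂ) * (nd w w' 2 - nd w w' 0)⁻¹ = _
      rw [v0, v2, mul_inv_eq_iff_eq_mul₀ m4]
      push_cast
      linear_combination -((a : ℂ) ^ 2 - 4 * b) * hp
    · change ((b * (a ^ 2 - 4 * b) : ℤ) : ℂ) * (nd w' w 2 - nd w' w 0)⁻¹ = _
      rw [v0, v2, mul_inv_eq_iff_eq_mul₀ m3]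
      push_cast
      linear_combination -((a : ℂ) ^ 2 - 4 * b) * hp
  · refine ⟨a * b, 2 * b, ?_, ?_⟩
    · change ((b * (a ^ 2 - 4 * b) : ℤ) : ℂ) * (nd w w' 2 - nd w w' 1)⁻¹ = _
      rw [v1, v2, mul_inv_eq_iff_eq_mul₀ m6]
      push_cast
      linear_combination ((b : ℂ) * (a + 2 * w)) * hs - 4 * (b : ℂ) * q1
    · change ((b * (a ^ 2 - 4 * b) : ℤ) : ℂ) * (nd w' w 2 - nd w' w 1)⁻¹ = _
      rw [v1, v2, mul_inv_eq_iff_eq_mul₀ m5]
      push_cast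
      linear_combination ((b : ℂ) * (a + 2 * w')) * hs - 4 * (b : ℂ) * q2
  · exact absurd rfl hjl

/-- Row R8d. The nodes are distinct. -/
theorem nd_inj {w w' : ℂ} (a b : ℤ) (hs : w + w' = -a) (hp : w * w' = b) (hb : b ≠ 0)
    (hδ : a ^ 2 - 4 * b ≠ 0) : Function.Injective (nd w w') := by
  obtain ⟨n1, n2, n3⟩ := ne_zero_pair a b hs hp hb hδ
  have v0 : nd w w' 0 = 0 := rfl
  have v1 : nd w w' 1 = -w := rfl
  have v2 : nd w w' 2 = -w' := rfl
  intro j l h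
  fin_cases j <;> fin_cases l
  · rfl
  · exfalso
    change nd w w' 0 = nd w w' 1 at h
    rw [v0, v1] at h
    exact n1 (by linear_combination h)
  · exfalso
    change nd w w' 0 = nd w w' 2 at h
    rw [v0, v2] at h
    exact n2 (by linear_combination h)
  · exfalso
    change nd w w' 1 = nd w w' 0 at h
    rw [v0, v1] at h
    exact n1 (by linear_combination -h)
  · rfl
  · exfalso
    change nd w w' 1 = nd w w' 2 at h
    rw [v1, v2] at h
    exact n3 (by linear_combination -h)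
  · exfalso
    change nd w w' 2 = nd w w' 0 at h
    rw [v0, v2] at h
    exact n2 (by linear_combination -h)
  · exfalso
    change nd w w' 2 = nd w w' 1 at h
    rw [v1, v2] at h
    exact n3 (by linear_combination h)
  · rfl

end TwPade
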