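import Pool.Agent.LibTwPade.R7
import Pool.Agent.LibTwPade.R8

set_option autoImplicit false

namespace TwPade

open PowerSeries

private theorem R8e_two (j : Fin 3) : ∃ l l' : Fin 3, l ≠ j ∧ l' ≠ j ∧ l ≠ l' := by
  revert j
  decide

private theorem R8e_coeff (a : Fin 3 → ℂ) (ha : Function.Injective a) (j l l' : Fin 3)
    (h : l ≠ j) (h' : l' ≠ j) (hl : l ≠ l') (M : ℂ) (n r : ℕ) :
    M ^ (2 * n + r) * PowerSeries.coeff r (((qs a j)⁻¹) ^ n) =
      ∑ p ∈ Finset.HasAntidiagonal.antidiagonal r,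
        ((((-1) ^ p.1 * ((n + p.1 - 1).choose p.1 : ℤ)) *
          ((-1) ^ p.2 * ((n + p.2 - 1).choose p.2 : ℤ)) : ℤ) : ℂ) *
        ((M * (a j - a l)⁻¹) ^ (n + p.1) * (M * (a j - a l')⁻¹) ^ (n + p.2)) := by
  have hu : a j - a l ≠ 0 := sub_ne_zero.2 fun h1 => h (ha h1).symm
  have hv : a j - a l' ≠ 0 := sub_ne_zero.2 fun h1 => h' (ha h1).symm
  rw [qs_inv_pow a ha j l l' h h' hl n, PowerSeries.coeff_mul, Finset.mul_sum]
  apply Finset.sum_congr rfl
  intro p hp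
  rw [Finset.HasAntidiagonal.mem_antidiagonal] at hp
  rw [coeff_inv_pow _ hu, coeff_inv_pow _ hv, mul_pow, mul_pow]
  have h1 : 2 * n + r = (n + p.1) + (n + p.2) := by omega
  rw [h1, pow_add M]
  push_cast
  ring

/-- Row R8e. `coeff_inv_pow`, `qs_inv_pow`, `Sp_inv`, `Sp_sum`, `Sp_mul`, `Sp_pow`: the coefficient is
`∑_{r₁ + r₂ = r} ± binomials * u⁻¹^(n + r₁) v⁻¹^(n + r₂)` and `2n + r = (n + r₁) + (n + r₂)`. -/
theorem Sp_qs {w w' : ℂ} (a b : ℤ) (hs : w + w' = -a) (hp : w * w' = b) (hb : b ≠ 0)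
    (hδ : a ^ 2 - 4 * b ≠ 0) (j : Fin 3) (n r : ℕ) :
    Sp w w' (((b * (a ^ 2 - 4 * b) : ℤ) : ℂ) ^ (2 * n + r)
        * PowerSeries.coeff r (((qs (nd w w') j)⁻¹) ^ n))
      (((b * (a ^ 2 - 4 * b) : ℤ) : ℂ) ^ (2 * n + r)
        * PowerSeries.coeff r (((qs (nd w' w) j)⁻¹) ^ n)) := by
  obtain ⟨l, l', h, h', hl⟩ := R8e_two j
  have hs' : w' + w = -a := by rw [add_comm]; exact hs
  have hp' : w' * w = b := by rw [mul_comm]; exact hp
  rw [R8e_coeff (nd w w') (nd_inj a b hs hp hb hδ) j l l' h h' hl,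
    R8e_coeff (nd w' w) (nd_inj a b hs' hp' hb hδ) j l l' h h' hl]
  apply Sp_sum
  intro p _
  apply Sp_mul a b hs hp (Sp_int w w' _)
  apply Sp_mul a b hs hp
  · exact Sp_pow a b hs hp (Sp_inv a b hs hp hb hδ j l (Ne.symm h)) _
  · exact Sp_pow a b hs hp (Sp_inv a b hs hp hb hδ j l' (Ne.symm h')) _

private theorem R8e_nd {w w' : ℂ} (a b : ℤ) (hs : w + w' = -a) (hp : w * w' = b) (j : Fin 3) :
    Sp w w' (nd w w' j) (nd w' w j) := by
  have h1 := Sp_w (w := w) (w' := w') a hs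
  have hneg : ∀ x x' : ℂ, Sp w w' x x' → Sp w w' (-x) (-x') := by
    intro x x' h
    have h2 := Sp_mul a b hs hp (Sp_int w w' (-1)) h
    have h3 : (((-1 : ℤ) : ℂ)) * x = -x := by push_cast; ring
    have h4 : (((-1 : ℤ) : ℂ)) * x' = -x' := by push_cast; ring
    rwa [h3, h4] at h2
  fin_cases j
  · have h2 := Sp_int w w' 0
    rw [Int.cast_zero] at h2
    exact h2
  · exact hneg _ _ h1.1
  · exact hneg _ _ h1.2

private theorem R8e_sub {w w' : ℂ} (a b : ℤ) (hs : w + w' = -a) (hp : w * w' = b) {x x' y y' : ℂ}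
    (h : Sp w w' x x') (g : Sp w w' y y') : Sp w w' (x - y) (x' - y') := by
  have h2 := Sp_add h (Sp_mul a b hs hp (Sp_int w w' (-1)) g)
  have h3 : x + (((-1 : ℤ) : ℂ)) * y = x - y := by push_cast; ring
  have h4 : x' + (((-1 : ℤ) : ℂ)) * y' = x' - y' := by push_cast; ring
  rwa [h3, h4] at h2

private theorem R8e_lin {w w' u u' : ℂ} (h : Sp w w' u u') (m : ℕ) :
    Sp w w' (PowerSeries.coeff m (PowerSeries.X + PowerSeries.C u : PowerSeries ℂ))
      (PowerSeries.coeff m (PowerSeries.X + PowerSeries.C u' : PowerSeries ℂ)) := by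
  rw [map_add, map_add, PowerSeries.coeff_X, PowerSeries.coeff_C, PowerSeries.coeff_C]
  apply Sp_add
  · split_ifs
    · have h2 := Sp_int w w' 1
      rw [Int.cast_one] at h2
      exact h2
    · have h2 := Sp_int w w' 0
      rw [Int.cast_zero] at h2
      exact h2
  · split_ifs
    · exact h
    · have h2 := Sp_int w w' 0
      rw [Int.cast_zero] at h2
      exact h2

/-- Row R8f. With `ty_sp` and `Sp_qs` (`r ≤ k`, multiply by the missing power of the integer). -/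
theorem Sp_ec {w w' : ℂ} (a b : ℤ) (hs : w + w' = -a) (hp : w * w' = b) (hb : b ≠ 0)
    (hδ : a ^ 2 - 4 * b ≠ 0) (k : ℕ) (i j : Fin 3) (r : ℕ) (hr : r ≤ k) :
    Sp w w' (((b * (a ^ 2 - 4 * b) : ℤ) : ℂ) ^ (3 * k + 2) * ec (nd w w') k i j r)
      (((b * (a ^ 2 - 4 * b) : ℤ) : ℂ) ^ (3 * k + 2) * ec (nd w' w) k i j r) := by
  obtain ⟨l, l', h, h', hl⟩ := R8e_two i
  have key : ∀ v v' : ℂ, ((b * (a ^ 2 - 4 * b) : ℤ) : ℂ) ^ (3 * k + 2) * ec (nd v v') k i j r =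
      ∑ p ∈ Finset.HasAntidiagonal.antidiagonal r,
        (((b * (a ^ 2 - 4 * b)) ^ (3 * k + 2 - (2 * (k + 1) + p.2)) : ℤ) : ℂ) *
        (PowerSeries.coeff p.1 ((PowerSeries.X + PowerSeries.C (nd v v' j - nd v v' l)) *
          (PowerSeries.X + PowerSeries.C (nd v v' j - nd v v' l')) : PowerSeries ℂ) *
        (((b * (a ^ 2 - 4 * b) : ℤ) : ℂ) ^ (2 * (k + 1) + p.2) *
          PowerSeries.coeff p.2 (((qs (nd v v') j)⁻¹) ^ (k + 1)))) := by
    intro v v'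
    unfold ec
    rw [ty_sp _ i j l l' h h' hl, PowerSeries.coeff_mul, Finset.mul_sum]
    apply Finset.sum_congr rfl
    intro p hpr
    rw [Finset.HasAntidiagonal.mem_antidiagonal] at hpr
    have h1 : 3 * k + 2 = (3 * k + 2 - (2 * (k + 1) + p.2)) + (2 * (k + 1) + p.2) := by omega
    generalize 3 * k + 2 - (2 * (k + 1) + p.2) = e at h1
    rw [h1, pow_add]
    push_cast
    ring
  rw [key w w', key w' w]
  apply Sp_sum
  intro p _
  apply Sp_mul a b hs hp (Sp_int w w' _)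
  apply Sp_mul a b hs hp
  · rw [PowerSeries.coeff_mul, PowerSeries.coeff_mul]
    apply Sp_sum
    intro q _
    exact Sp_mul a b hs hp
      (R8e_lin (R8e_sub a b hs hp (R8e_nd a b hs hp j) (R8e_nd a b hs hp l)) _)
      (R8e_lin (R8e_sub a b hs hp (R8e_nd a b hs hp j) (R8e_nd a b hs hp l')) _)
  · exact Sp_qs a b hs hp hb hδ j (k + 1) p.2

end TwPade
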