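import Pool.Agent.LibTwPade.R3c
import Pool.Agent.LibTwPade.R8e

set_option autoImplicit false

namespace TwPade

open PowerSeries

private theorem R8g_nd {w w' : ℂ} (a b : ℤ) (hs : w + w' = -a) (hp : w * w' = b) (j : Fin 3) :
    Sp w w' (nd w w' j) (nd w' w j) := by
  have h1 := Sp_w (w := w) (w' := w') a hs
  have hneg : ∀ x x' : ℂ, Sp w w' x x' → Sp w w' (-x) (-x') := by
    intro x x' h
    have h2 := Sp_mul a b hs hp (Sp_int w w' (-1)) h
    have h3 : (((-1 : ℤ) : ℂ)) * x = -x := by push_cast; ring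
    have h4 : (((-1 : ℤ) : ℂ)) * x' = -x' := by push_cast; ring
    rwa [h3, h4] at h2
  fin_cases j
  · have h2 := Sp_int w w' 0
    rw [Int.cast_zero] at h2
    exact h2
  · exact hneg _ _ h1.1
  · exact hneg _ _ h1.2

/-- Row R8g. With `ch_int` (`4^k ch k h` is an integer for `h ≤ k`) and `Sp_ec`. -/
theorem Sp_Pm {w w' : ℂ} (a b : ℤ) (hs : w + w' = -a) (hp : w * w' = b) (hb : b ≠ 0)
    (hδ : a ^ 2 - 4 * b ≠ 0) (k : ℕ) (X D : ℤ) (i j : Fin 3) :
    Sp w w' (4 ^ k * ((b * (a ^ 2 - 4 * b) : ℤ) : ℂ) ^ (3 * k + 2) * Pm (nd w w') k X D i j)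
      (4 ^ k * ((b * (a ^ 2 - 4 * b) : ℤ) : ℂ) ^ (3 * k + 2) * Pm (nd w' w) k X D i j) := by
  choose z hz using fun h => ch_int k h
  have key : ∀ v v' : ℂ,
      4 ^ k * ((b * (a ^ 2 - 4 * b) : ℤ) : ℂ) ^ (3 * k + 2) * Pm (nd v v') k X D i j =
      ∑ h ∈ Finset.range (k + 1), ((4 ^ (k - h) * z h * D ^ h : ℤ) : ℂ) *
        (((X : ℂ) + nd v v' j * (D : ℂ)) ^ (k - h) *
        (((b * (a ^ 2 - 4 * b) : ℤ) : ℂ) ^ (3 * k + 2) * ec (nd v v') k i j (k - h))) := by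
    intro v v'
    unfold Pm
    rw [Finset.mul_sum]
    apply Finset.sum_congr rfl
    intro h hh
    rw [Finset.mem_range] at hh
    have h1 : (4 : ℂ) ^ k = 4 ^ (k - h) * 4 ^ h := by
      rw [← pow_add]
      congr 1
      omega
    rw [h1]
    push_cast
    rw [← hz h]
    ring
  rw [key w w', key w' w]
  apply Sp_sum
  intro h _
  apply Sp_mul a b hs hp (Sp_int w w' _)
  apply Sp_mul a b hs hp
  · apply Sp_pow a b hs hp
    apply Sp_add (Sp_int w w' X)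
    exact Sp_mul a b hs hp (R8g_nd a b hs hp j) (Sp_int w w' D)
  · exact Sp_ec a b hs hp hb hδ k i j (k - h) (Nat.sub_le _ _)

end TwPade
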