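import Pool.Agent.LibTwPade.Defs

set_option autoImplicit false

namespace TwPade

open PowerSeries

private theorem r8h_qs (a : Fin 3 → ℂ) (σ : Equiv.Perm (Fin 3)) (j : Fin 3) :
    qs (a ∘ σ) j = qs a (σ j) := by
  unfold qs
  refine Finset.prod_equiv σ (fun l => ?_) (fun l _ => rfl)
  rw [Finset.mem_erase, Finset.mem_erase]
  simp [σ.injective.eq_iff]

private theorem r8h_sp (a : Fin 3 → ℂ) (σ : Equiv.Perm (Fin 3)) (i : Fin 3) :
    sp (a ∘ σ) i = sp a (σ i) := by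
  unfold sp
  refine Finset.prod_equiv σ (fun l => ?_) (fun l _ => rfl)
  rw [Finset.mem_erase, Finset.mem_erase]
  simp [σ.injective.eq_iff]

private theorem r8h_pm (a : Fin 3 → ℂ) (σ : Equiv.Perm (Fin 3)) (k : ℕ) (X D : ℂ)
    (i j : Fin 3) : Pm (a ∘ σ) k X D i j = Pm a k X D (σ i) (σ j) := by
  unfold Pm ec
  rw [r8h_qs, r8h_sp]
  rfl

/-- Row R8h. Symmetry: exchanging `w` and `w'` exchanges the nodes `1` and `2`: for a permutation
`σ` of `Fin 3`, `qs (a ∘ σ) j = qs a (σ j)`, `sp (a ∘ σ) i = sp a (σ i)`, hence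
`Pm (a ∘ σ) k X D i j = Pm a k X D (σ i) (σ j)`; `nd w' w = nd w w' ∘ swap 1 2`. -/
theorem Pm_swap (w w' : ℂ) (k : ℕ) (X D : ℂ) (i j : Fin 3) :
    Pm (nd w' w) k X D i j
      = Pm (nd w w') k X D (Equiv.swap (1 : Fin 3) 2 i) (Equiv.swap (1 : Fin 3) 2 j) := by
  have h : nd w' w = nd w w' ∘ (Equiv.swap (1 : Fin 3) 2) := by
    funext l
    fin_cases l <;> rfl
  rw [h, r8h_pm]

end TwPade
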