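import Pool.Agent.LibTwPade.R6
import Pool.Agent.LibTwPade.R8g
import Pool.Agent.LibTwPade.R8h

set_option autoImplicit false

namespace TwPade

private theorem Sp_swap' {w w' x x' : ℂ} (a : ℤ) (hs : w + w' = -a) (h : Sp w w' x x') :
    Sp w w' x' x := by
  obtain ⟨A, B, hA, hB⟩ := h
  refine ⟨A - a * B, -B, ?_, ?_⟩
  · rw [hB]
    push_cast
    linear_combination (B : ℂ) * hs
  · rw [hA]
    push_cast
    linear_combination (B : ℂ) * hs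

/-- Row R9. Suppose all three numbers
`Z_i = 2 δ 4^k (bδ)^(3k+2) (Pm i 0 z + Pm i 1 Ω + Pm i 2 Ω')` have norm `< 1/2`. By `Sp_Pm`,
`Pm_swap`, `hΩ`: `(Z_0, Z_0)`, `(Z_1, Z_2)`, `(Z_2, Z_1)` are pairs `Sp`, so all are `0`
(`Sp_small`); the factor in front is nonzero, so `nonvanish` with `y = (z, Ω, Ω')` gives `z = 0`. -/
theorem forms_lower (a b X D z : ℤ) (w w' Ω Ω' : ℂ) (hs : w + w' = -a) (hp : w * w' = b)
    (hb : b ≠ 0) (hδ : a ^ 2 - 4 * b ≠ 0) (hD : D ≠ 0) (hX : X ≠ 0) (hz : z ≠ 0)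
    (h1 : (X : ℂ) - w * D ≠ 0) (h2 : (X : ℂ) - w' * D ≠ 0)
    (hΩ : Sp w w' (2 * (a ^ 2 - 4 * b : ℤ) * Ω) (2 * (a ^ 2 - 4 * b : ℤ) * Ω')) (k : ℕ) :
    ∃ i : Fin 3, 1 / 2 ≤ ‖2 * ((a ^ 2 - 4 * b : ℤ) : ℂ) * 4 ^ k
      * ((b * (a ^ 2 - 4 * b) : ℤ) : ℂ) ^ (3 * k + 2)
      * (Pm (nd w w') k X D i 0 * z + Pm (nd w w') k X D i 1 * Ω
        + Pm (nd w w') k X D i 2 * Ω')‖ := by
  by_contra hcon
  push Not at hcon
  set c : ℂ := 4 ^ k * ((b * (a ^ 2 - 4 * b) : ℤ) : ℂ) ^ (3 * k + 2) with hc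
  set δ : ℂ := ((a ^ 2 - 4 * b : ℤ) : ℂ) with hδ'
  set Z : Fin 3 → ℂ := fun i => 2 * δ * 4 ^ k * ((b * (a ^ 2 - 4 * b) : ℤ) : ℂ) ^ (3 * k + 2)
      * (Pm (nd w w') k X D i 0 * z + Pm (nd w w') k X D i 1 * Ω
        + Pm (nd w w') k X D i 2 * Ω') with hZ
  have hZlt : ∀ i, ‖Z i‖ < 1 / 2 := fun i => hcon i
  have hΩ2 : Sp w w' (2 * δ * Ω') (2 * δ * Ω) := Sp_swap' a hs hΩ
  have hz2 : Sp w w' (2 * δ * z) (2 * δ * z) := by
    have h := Sp_int w w' (2 * (a ^ 2 - 4 * b) * z)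
    have h3 : ((2 * (a ^ 2 - 4 * b) * z : ℤ) : ℂ) = 2 * δ * z := by
      rw [hδ']
      push_cast
      ring
    rwa [h3] at h
  have hσ0 : (Equiv.swap (1 : Fin 3) 2) 0 = 0 := by decide
  have hσ1 : (Equiv.swap (1 : Fin 3) 2) 1 = 2 := by decide
  have hσ2 : (Equiv.swap (1 : Fin 3) 2) 2 = 1 := by decide
  have hpair : ∀ i, Sp w w' (Z i) (Z ((Equiv.swap (1 : Fin 3) 2) i)) := by
    intro i
    have g0 := Sp_mul a b hs hp (Sp_Pm a b hs hp hb hδ k X D i 0) hz2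
    have g1 := Sp_mul a b hs hp (Sp_Pm a b hs hp hb hδ k X D i 1) hΩ
    have g2 := Sp_mul a b hs hp (Sp_Pm a b hs hp hb hδ k X D i 2) hΩ2
    rw [Pm_swap w w' k X D i 0, hσ0] at g0
    rw [Pm_swap w w' k X D i 1, hσ1] at g1
    rw [Pm_swap w w' k X D i 2, hσ2] at g2
    have g := Sp_add (Sp_add g0 g1) g2
    have e1 : Z i = 4 ^ k * ((b * (a ^ 2 - 4 * b) : ℤ) : ℂ) ^ (3 * k + 2) * Pm (nd w w') k X D i 0
          * (2 * δ * z)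
        + 4 ^ k * ((b * (a ^ 2 - 4 * b) : ℤ) : ℂ) ^ (3 * k + 2) * Pm (nd w w') k X D i 1
          * (2 * δ * Ω)
        + 4 ^ k * ((b * (a ^ 2 - 4 * b) : ℤ) : ℂ) ^ (3 * k + 2) * Pm (nd w w') k X D i 2
          * (2 * δ * Ω') := by
      rw [hZ]
      ring
    have e2 : Z ((Equiv.swap (1 : Fin 3) 2) i)
        = 4 ^ k * ((b * (a ^ 2 - 4 * b) : ℤ) : ℂ) ^ (3 * k + 2)
            * Pm (nd w w') k X D ((Equiv.swap (1 : Fin 3) 2) i) 0 * (2 * δ * z)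
        + 4 ^ k * ((b * (a ^ 2 - 4 * b) : ℤ) : ℂ) ^ (3 * k + 2)
            * Pm (nd w w') k X D ((Equiv.swap (1 : Fin 3) 2) i) 2 * (2 * δ * Ω')
        + 4 ^ k * ((b * (a ^ 2 - 4 * b) : ℤ) : ℂ) ^ (3 * k + 2)
            * Pm (nd w w') k X D ((Equiv.swap (1 : Fin 3) 2) i) 1 * (2 * δ * Ω) := by
      rw [hZ]
      ring
    rw [e1, e2]
    exact g
  have hZ0 : ∀ i, Z i = 0 := fun i =>
    (Sp_small a b hs hp hδ (hpair i) (hZlt i) (hZlt _)).1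
  have hδ0 : δ ≠ 0 := by
    rw [hδ']
    exact_mod_cast hδ
  have hbδ : ((b * (a ^ 2 - 4 * b) : ℤ) : ℂ) ≠ 0 := by
    exact_mod_cast mul_ne_zero hb hδ
  have hfac : 2 * δ * 4 ^ k * ((b * (a ^ 2 - 4 * b) : ℤ) : ℂ) ^ (3 * k + 2) ≠ 0 :=
    mul_ne_zero (mul_ne_zero (mul_ne_zero two_ne_zero hδ0) (pow_ne_zero _ (by norm_num)))
      (pow_ne_zero _ hbδ)
  have hlin : ∀ i, ∑ j : Fin 3, Pm (nd w w') k X D i j * (![(z : ℂ), Ω, Ω'] : Fin 3 → ℂ) j = 0 := by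
    intro i
    rw [Fin.sum_univ_three]
    have h3 : Z i = 0 := hZ0 i
    rw [hZ] at h3
    exact (mul_eq_zero.1 h3).resolve_left hfac
  have hnd : ∀ j, (X : ℂ) + nd w w' j * D ≠ 0 := by
    intro j
    fin_cases j
    · show (X : ℂ) + 0 * D ≠ 0
      rw [zero_mul, add_zero]
      exact_mod_cast hX
    · show (X : ℂ) + -w * D ≠ 0
      rw [neg_mul, ← sub_eq_add_neg]
      exact h1
    · show (X : ℂ) + -w' * D ≠ 0
      rw [neg_mul, ← sub_eq_add_neg]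
      exact h2
  have hy := nonvanish (nd w w') (nd_inj a b hs hp hb hδ) k X D (by exact_mod_cast hD) hnd _ hlin
  have hy0 := congrFun hy 0
  have hy1 : (z : ℂ) = 0 := hy0
  exact hz (by exact_mod_cast hy1)

end TwPade
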