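import Pool.Agent.LibTwPade.R7d
import Pool.Agent.LibTwPade.R9
import Pool.Agent.LibTwPade.R10
import Pool.Agent.LibTwPade.R11
import Pool.Agent.LibTwPade.R12
import Pool.Agent.LibTwPade.R13a
import Pool.Agent.LibTwPade.R13b
import Pool.Agent.LibTwPade.R13c

set_option autoImplicit false

namespace TwPade

private theorem small_norm (w : ℂ) (X D : ℝ) (hX : 0 < X) (h : ‖w‖ * |D| ≤ X / 100) :
    ‖-(w * ((D / X : ℝ) : ℂ))‖ ≤ 1 / 100 := by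
  rw [norm_neg, norm_mul, Complex.norm_real, Real.norm_eq_abs, abs_div, abs_of_pos hX,
    ← mul_div_assoc, div_le_iff₀ hX]
  linarith

private theorem omega_eq (w w' : ℂ) (a b X₀ D₀ X₁ D₁ z n c : ℝ) (hs : w + w' = -(a : ℂ))
    (hp : w * w' = (b : ℂ)) (hX₀ : 0 < X₀) (hX₁ : 0 < X₁) (hz : 0 < z) (hz2 : z ^ 2 = X₀ * X₁)
    (hn : 0 < n) (hc : 0 < c)
    (hn2 : (X₀ ^ 2 + a * X₀ * D₀ + b * D₀ ^ 2) * (X₁ ^ 2 + a * X₁ * D₁ + b * D₁ ^ 2) = n ^ 2)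
    (hc2 : 2 * X₀ * X₁ + a * (X₀ * D₁ + X₁ * D₀) + (a ^ 2 - 2 * b) * D₀ * D₁ + 2 * n = c ^ 2)
    (h0 : ‖w‖ * |D₀| ≤ X₀ / 100) (h1 : ‖w‖ * |D₁| ≤ X₁ / 100)
    (h0' : ‖w'‖ * |D₀| ≤ X₀ / 100) (h1' : ‖w'‖ * |D₁| ≤ X₁ / 100) :
    (((X₀ : ℂ) - w * D₀) * (X₁ - w * D₁) + n) / c
      = (z : ℂ) * ((1 - w * ((D₀ / X₀ : ℝ) : ℂ)) ^ ((1 : ℂ) / 2)
        * (1 - w * ((D₁ / X₁ : ℝ) : ℂ)) ^ ((1 : ℂ) / 2)) := by
  have cX₀ : (X₀ : ℂ) ≠ 0 := by exact_mod_cast hX₀.ne'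
  have cX₁ : (X₁ : ℂ) ≠ 0 := by exact_mod_cast hX₁.ne'
  have cz : (z : ℂ) ≠ 0 := by exact_mod_cast hz.ne'
  have cc : (c : ℂ) ≠ 0 := by exact_mod_cast hc.ne'
  have cz2 : (z : ℂ) ^ 2 = X₀ * X₁ := by exact_mod_cast hz2
  have cn2 : ((X₀ : ℂ) ^ 2 + a * X₀ * D₀ + b * D₀ ^ 2) * ((X₁ : ℂ) ^ 2 + a * X₁ * D₁ + b * D₁ ^ 2)
      = (n : ℂ) ^ 2 := by exact_mod_cast hn2
  have cc2 : 2 * (X₀ : ℂ) * X₁ + a * (X₀ * D₁ + X₁ * D₀) + ((a : ℂ) ^ 2 - 2 * b) * D₀ * D₁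
      + 2 * n = (c : ℂ) ^ 2 := by exact_mod_cast hc2
  have f : ∀ (v : ℂ) (X D : ℝ), (X : ℂ) ≠ 0 → 1 + -(v * ((D / X : ℝ) : ℂ))
      = ((X : ℂ) - v * D) / X := by
    intro v X D hX
    push_cast
    field_simp
    ring
  have hsum : ((X₀ : ℂ) - w * D₀) * (X₁ - w * D₁) + ((X₀ : ℂ) - w' * D₀) * (X₁ - w' * D₁)
      = 2 * (X₀ : ℂ) * X₁ + a * (X₀ * D₁ + X₁ * D₀) + ((a : ℂ) ^ 2 - 2 * b) * D₀ * D₁ := by
    have e1 : (a : ℂ) = -(w + w') := by rw [hs]; ring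
    rw [e1, ← hp]
    ring
  have hprod : ((X₀ : ℂ) - w * D₀) * (X₁ - w * D₁) * (((X₀ : ℂ) - w' * D₀) * (X₁ - w' * D₁))
      = (n : ℂ) ^ 2 := by
    rw [← cn2]
    have e1 : (a : ℂ) = -(w + w') := by rw [hs]; ring
    rw [e1, ← hp]
    ring
  have key := sqrt_id (-(w * ((D₀ / X₀ : ℝ) : ℂ))) (-(w * ((D₁ / X₁ : ℝ) : ℂ)))
    (-(w' * ((D₀ / X₀ : ℝ) : ℂ))) (-(w' * ((D₁ / X₁ : ℝ) : ℂ))) (n / z ^ 2) (c / z)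
    (small_norm w X₀ D₀ hX₀ h0) (small_norm w X₁ D₁ hX₁ h1)
    (small_norm w' X₀ D₀ hX₀ h0') (small_norm w' X₁ D₁ hX₁ h1') (by positivity)
    (by
      rw [f w X₀ D₀ cX₀, f w X₁ D₁ cX₁, f w' X₀ D₀ cX₀, f w' X₁ D₁ cX₁]
      have g1 : ((X₀ : ℂ) - w * D₀) / X₀ * (((X₁ : ℂ) - w * D₁) / X₁)
          * (((X₀ : ℂ) - w' * D₀) / X₀ * (((X₁ : ℂ) - w' * D₁) / X₁))
          = (((X₀ : ℂ) - w * D₀) * (X₁ - w * D₁) * (((X₀ : ℂ) - w' * D₀) * (X₁ - w' * D₁)))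
            / (X₀ * X₁) ^ 2 := by
        field_simp
      rw [g1, hprod, ← cz2]
      push_cast
      rw [div_pow])
    (by positivity)
    (by
      rw [f w X₀ D₀ cX₀, f w X₁ D₁ cX₁, f w' X₀ D₀ cX₀, f w' X₁ D₁ cX₁]
      have g1 : ((X₀ : ℂ) - w * D₀) / X₀ * (((X₁ : ℂ) - w * D₁) / X₁)
          + ((X₀ : ℂ) - w' * D₀) / X₀ * (((X₁ : ℂ) - w' * D₁) / X₁)
          = (((X₀ : ℂ) - w * D₀) * (X₁ - w * D₁) + ((X₀ : ℂ) - w' * D₀) * (X₁ - w' * D₁))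
            / (X₀ * X₁) := by
        field_simp
      rw [g1, hsum, ← cz2]
      push_cast
      rw [div_pow, ← cc2, ← mul_div_assoc, ← add_div])
  rw [sub_eq_add_neg 1 (w * ((D₀ / X₀ : ℝ) : ℂ)), sub_eq_add_neg 1 (w * ((D₁ / X₁ : ℝ) : ℂ)),
    ← key, f w X₀ D₀ cX₀, f w X₁ D₁ cX₁]
  have g2 : ((X₀ : ℂ) - w * D₀) / X₀ * (((X₁ : ℂ) - w * D₁) / X₁)
      = (((X₀ : ℂ) - w * D₀) * (X₁ - w * D₁)) / (z : ℂ) ^ 2 := by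
    rw [cz2]
    field_simp
  rw [g2]
  push_cast
  field_simp

/-- Row R14. LEMMA P. Suppose `u₀^24 ≤ u₁`. `X_i = H u_i^2`, `z = H u₀ u₁` (`z^2 = X₀ X₁`), `roots`,
WLOG `c > 0`, `n = m w₀ w₁ > 0`, `t_i = D_i / X_i` (`|w t_i| ≤ 2T·T/u₀^2 ≤ 1/100`).
`sqrt_id` with `x_i = -w t_i`, `x_i' = -w' t_i`, `ν = n / z^2`, `γ = c / z`
(`ν^2 = β β'` because `q(X_i, D_i) = (X_i - w D_i)(X_i - w' D_i) = m w_i^2`) gives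
`Ω = ((X₀ - w D₀)(X₁ - w D₁) + n)/c = z (1 - w t₀)^(1/2) (1 - w t₁)^(1/2)`, same for `Ω'` (exchange
`w`, `w'`). Take `k` from `choose_k`; `forms_lower` (with `omega_int`), `forms_upper` with `ρ = 2T`,
`E = 9 2^(4k) (2T)^(3k+4)` (`ec_le`) and `constants` give `1/2 ≤ 1/8 + 1/8`. -/
theorem lemmaP (T : ℕ) (hT : 2 ≤ T) (a b H m D₀ D₁ w₀ w₁ u₀ u₁ c : ℤ) (ha : |a| ≤ T)
    (hbT : |b| ≤ T) (hb : b ≠ 0) (hδ : a ^ 2 - 4 * b ≠ 0) (hH : 0 < H) (hHT : H ≤ T)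
    (hm : 0 < m) (hD₀ : D₀ ≠ 0) (hD₀T : |D₀| ≤ T) (hD₁T : |D₁| ≤ T) (hw₀ : 0 < w₀) (hw₁ : 0 < w₁)
    (hu₀ : (T : ℤ) ^ 1136 ≤ u₀) (hu₁ : 0 < u₁)
    (h0 : (H * u₀ ^ 2) ^ 2 + a * (H * u₀ ^ 2) * D₀ + b * D₀ ^ 2 = m * w₀ ^ 2)
    (h1 : (H * u₁ ^ 2) ^ 2 + a * (H * u₁ ^ 2) * D₁ + b * D₁ ^ 2 = m * w₁ ^ 2)
    (hc : 2 * (H * u₀ ^ 2) * (H * u₁ ^ 2) + a * ((H * u₀ ^ 2) * D₁ + (H * u₁ ^ 2) * D₀)
      + (a ^ 2 - 2 * b) * D₀ * D₁ + 2 * m * w₀ * w₁ = c ^ 2) :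
    u₁ < u₀ ^ 24 := by
  by_contra hcon
  rw [not_lt] at hcon
  have hT2 : (2 : ℤ) ≤ (T : ℤ) := by exact_mod_cast hT
  have hTr : (2 : ℝ) ≤ (T : ℝ) := by exact_mod_cast hT
  -- sizes
  have hTbig : 400 * (T : ℤ) ^ 4 ≤ u₀ := by
    have e1 : (T : ℤ) ^ 1136 = (T : ℤ) ^ 4 * (T : ℤ) ^ 1132 := by
      rw [← pow_add]
    have e2 : (2 : ℤ) ^ 1132 ≤ (T : ℤ) ^ 1132 := pow_le_pow_left₀ (by norm_num) hT2 _
    have e3 : (400 : ℤ) ≤ 2 ^ 1132 := by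
      calc (400 : ℤ) ≤ 2 ^ 9 := by norm_num
        _ ≤ 2 ^ 1132 := pow_le_pow_right₀ (by norm_num) (by norm_num)
    have e4 : (0 : ℤ) ≤ (T : ℤ) ^ 4 := by positivity
    calc 400 * (T : ℤ) ^ 4 = (T : ℤ) ^ 4 * 400 := by ring
      _ ≤ (T : ℤ) ^ 4 * (T : ℤ) ^ 1132 := mul_le_mul_of_nonneg_left (le_trans e3 e2) e4
      _ ≤ u₀ := by rw [← e1]; exact hu₀
  have hT4 : (T : ℤ) ^ 2 ≤ (T : ℤ) ^ 4 := pow_le_pow_right₀ (by omega) (by norm_num)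
  have hT4' : (1 : ℤ) ≤ (T : ℤ) ^ 2 := one_le_pow₀ (by omega)
  have hu₀1 : 1 ≤ u₀ := by linarith
  have hu₀u₁ : u₀ ≤ u₁ := by
    calc u₀ = u₀ ^ 1 := (pow_one _).symm
      _ ≤ u₀ ^ 24 := pow_le_pow_right₀ hu₀1 (by norm_num)
      _ ≤ u₁ := hcon
  have hu₁1 : 1 ≤ u₁ := by linarith
  have hX₀lb : 400 * (T : ℤ) ^ 4 ≤ H * u₀ ^ 2 := by nlinarith
  have hX₁lb : 400 * (T : ℤ) ^ 4 ≤ H * u₁ ^ 2 := by nlinarith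
  obtain ⟨X₀, hX₀⟩ : ∃ X₀ : ℤ, X₀ = H * u₀ ^ 2 := ⟨_, rfl⟩
  obtain ⟨X₁, hX₁⟩ : ∃ X₁ : ℤ, X₁ = H * u₁ ^ 2 := ⟨_, rfl⟩
  obtain ⟨z, hz⟩ : ∃ z : ℤ, z = H * u₀ * u₁ := ⟨_, rfl⟩
  rw [← hX₀] at h0 hc hX₀lb
  rw [← hX₁] at h1 hc hX₁lb
  have hz2 : z ^ 2 = X₀ * X₁ := by
    rw [hz, hX₀, hX₁]
    ring
  have hzpos : 0 < z := by
    rw [hz]
    positivity
  have hX₀pos : 0 < X₀ := by linarith
  have hX₁pos : 0 < X₁ := by linarith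
  have hn : 0 < m * w₀ * w₁ := by positivity
  -- c is nonzero
  have hcpos : 0 < c ^ 2 := by
    have b1 : |a * (X₀ * D₁ + X₁ * D₀)| ≤ (T : ℤ) ^ 2 * (X₀ + X₁) := by
      rw [abs_mul]
      have c1 : |X₀ * D₁ + X₁ * D₀| ≤ (X₀ + X₁) * T := by
        calc |X₀ * D₁ + X₁ * D₀| ≤ |X₀ * D₁| + |X₁ * D₀| := abs_add_le _ _
          _ = X₀ * |D₁| + X₁ * |D₀| := by
              rw [abs_mul, abs_mul, abs_of_pos hX₀pos, abs_of_pos hX₁pos]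
          _ ≤ X₀ * T + X₁ * T := add_le_add (mul_le_mul_of_nonneg_left hD₁T hX₀pos.le)
              (mul_le_mul_of_nonneg_left hD₀T hX₁pos.le)
          _ = (X₀ + X₁) * T := by ring
      calc |a| * |X₀ * D₁ + X₁ * D₀| ≤ (T : ℤ) * ((X₀ + X₁) * T) :=
            mul_le_mul ha c1 (abs_nonneg _) (by omega)
        _ = (T : ℤ) ^ 2 * (X₀ + X₁) := by ring
    have b2 : |(a ^ 2 - 2 * b) * D₀ * D₁| ≤ 2 * (T : ℤ) ^ 4 := by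
      have c1 : |a ^ 2 - 2 * b| ≤ 2 * (T : ℤ) ^ 2 := by
        have d1 : a ^ 2 ≤ (T : ℤ) ^ 2 := by
          rw [← sq_abs]
          exact pow_le_pow_left₀ (abs_nonneg a) ha 2
        have d2 := abs_le.mp hbT
        rw [abs_le]
        constructor <;> nlinarith [sq_nonneg a]
      rw [abs_mul, abs_mul]
      calc |a ^ 2 - 2 * b| * |D₀| * |D₁| ≤ (2 * (T : ℤ) ^ 2) * T * T := by
            apply mul_le_mul (mul_le_mul c1 hD₀T (abs_nonneg _) (by positivity)) hD₁T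
              (abs_nonneg _) (by positivity)
        _ = 2 * (T : ℤ) ^ 4 := by ring
    have b3 := (abs_le.mp b1).1
    have b4 := (abs_le.mp b2).1
    have b5 : (T : ℤ) ^ 2 * (X₀ + X₁) + 2 * (T : ℤ) ^ 4 < 2 * X₀ * X₁ := by
      have c1 : (T : ℤ) ^ 4 * X₀ ≤ X₁ * X₀ :=
        mul_le_mul_of_nonneg_right (by linarith) hX₀pos.le
      have c2 : (T : ℤ) ^ 4 * X₁ ≤ X₀ * X₁ :=
        mul_le_mul_of_nonneg_right (by linarith) hX₁pos.le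
      have c4 : (4 : ℤ) ≤ (T : ℤ) ^ 2 := by nlinarith
      have c3 : 4 * (T : ℤ) ^ 2 ≤ (T : ℤ) ^ 4 := by
        calc 4 * (T : ℤ) ^ 2 ≤ (T : ℤ) ^ 2 * (T : ℤ) ^ 2 :=
              mul_le_mul_of_nonneg_right c4 (by positivity)
          _ = (T : ℤ) ^ 4 := by ring
      have c5 : 4 * (T : ℤ) ^ 2 * (X₀ + X₁) ≤ (T : ℤ) ^ 4 * (X₀ + X₁) :=
        mul_le_mul_of_nonneg_right c3 (by linarith)
      have c6 : (T : ℤ) ^ 2 * (X₀ + X₁) ≤ (T : ℤ) ^ 2 * (X₀ + X₁) * 4 := by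
        have : 0 ≤ (T : ℤ) ^ 2 * (X₀ + X₁) := by positivity
        linarith
      have c7 : 2 * (T : ℤ) ^ 4 < (T : ℤ) ^ 2 * (X₀ + X₁) := by
        have d1 : 1 * (X₀ + X₁) ≤ (T : ℤ) ^ 2 * (X₀ + X₁) :=
          mul_le_mul_of_nonneg_right hT4' (by linarith)
        have d2 : 1 ≤ (T : ℤ) ^ 4 := by linarith
        linarith
      linarith
    rw [← hc]
    nlinarith
  have hc0 : c ≠ 0 := by
    rintro rfl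
    simp at hcpos
  have hcabs : 0 < |c| := abs_pos.mpr hc0
  rw [← sq_abs c] at hc
  generalize |c| = c' at hc hcabs
  -- reals
  have haR : |(a : ℝ)| ≤ (T : ℝ) := by
    rw [← Int.cast_abs]
    exact_mod_cast ha
  have hbR : |(b : ℝ)| ≤ (T : ℝ) := by
    rw [← Int.cast_abs]
    exact_mod_cast hbT
  have hD₀R : |(D₀ : ℝ)| ≤ (T : ℝ) := by
    rw [← Int.cast_abs]
    exact_mod_cast hD₀T
  have hD₁R : |(D₁ : ℝ)| ≤ (T : ℝ) := by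
    rw [← Int.cast_abs]
    exact_mod_cast hD₁T
  have hX₀R : 400 * (T : ℝ) ^ 4 ≤ (X₀ : ℝ) := by exact_mod_cast hX₀lb
  have hX₁R : 400 * (T : ℝ) ^ 4 ≤ (X₁ : ℝ) := by exact_mod_cast hX₁lb
  have hT4R : (T : ℝ) ^ 2 ≤ (T : ℝ) ^ 4 := pow_le_pow_right₀ (by linarith) (by norm_num)
  have hX₀P : (0 : ℝ) < (X₀ : ℝ) := by exact_mod_cast hX₀pos
  have hX₁P : (0 : ℝ) < (X₁ : ℝ) := by exact_mod_cast hX₁pos
  obtain ⟨w, w', hs, hp, hnd, hndi⟩ := roots (T : ℝ) hTr a b haR hbR hb hδ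
  have hwn : ‖w‖ ≤ 2 * T := by
    have := hnd 1
    rwa [show nd w w' 1 = -w from rfl, norm_neg] at this
  have hwn' : ‖w'‖ ≤ 2 * T := by
    have := hnd 2
    rwa [show nd w w' 2 = -w' from rfl, norm_neg] at this
  have hsm : ∀ (v : ℂ) (D X : ℝ), ‖v‖ ≤ 2 * T → |D| ≤ T → 400 * (T : ℝ) ^ 4 ≤ X →
      ‖v‖ * |D| ≤ X / 100 := by
    intro v D X hv hD hX
    calc ‖v‖ * |D| ≤ (2 * T) * T := mul_le_mul hv hD (abs_nonneg _) (by linarith)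
      _ = 2 * (T : ℝ) ^ 2 := by ring
      _ ≤ X / 100 := by
          have : (0 : ℝ) ≤ (T : ℝ) ^ 4 := by positivity
          linarith
  have hinj := nd_inj a b hs hp hb hδ
  have hz2R : (z : ℝ) ^ 2 = (X₀ : ℝ) * X₁ := by exact_mod_cast hz2
  have hn2R : ((X₀ : ℝ) ^ 2 + a * X₀ * D₀ + b * D₀ ^ 2) * ((X₁ : ℝ) ^ 2 + a * X₁ * D₁ + b * D₁ ^ 2)
      = ((m : ℝ) * w₀ * w₁) ^ 2 := by
    have e0 : ((X₀ : ℝ) ^ 2 + a * X₀ * D₀ + b * D₀ ^ 2) = m * w₀ ^ 2 := by exact_mod_cast h0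
    have e1 : ((X₁ : ℝ) ^ 2 + a * X₁ * D₁ + b * D₁ ^ 2) = m * w₁ ^ 2 := by exact_mod_cast h1
    rw [e0, e1]
    ring
  have hc2R : 2 * (X₀ : ℝ) * X₁ + a * (X₀ * D₁ + X₁ * D₀) + ((a : ℝ) ^ 2 - 2 * b) * D₀ * D₁
      + 2 * ((m : ℝ) * w₀ * w₁) = (c' : ℝ) ^ 2 := by
    have e0 : 2 * (X₀ : ℝ) * X₁ + a * (X₀ * D₁ + X₁ * D₀) + ((a : ℝ) ^ 2 - 2 * b) * D₀ * D₁
      + 2 * m * w₀ * w₁ = (c' : ℝ) ^ 2 := by exact_mod_cast hc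
    rw [← e0]
    ring
  have hnR : (0 : ℝ) < (m : ℝ) * w₀ * w₁ := by exact_mod_cast hn
  have hzR : (0 : ℝ) < (z : ℝ) := by exact_mod_cast hzpos
  have hcR : (0 : ℝ) < (c' : ℝ) := by exact_mod_cast hcabs
  have hsR : w + w' = -(((a : ℝ)) : ℂ) := by rw [hs]; push_cast; rfl
  have hpR : w * w' = (((b : ℝ)) : ℂ) := by rw [hp]; push_cast; rfl
  have hsR' : w' + w = -(((a : ℝ)) : ℂ) := by rw [add_comm]; exact hsR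
  have hpR' : w' * w = (((b : ℝ)) : ℂ) := by rw [mul_comm]; exact hpR
  have hΩ := omega_eq w w' a b X₀ D₀ X₁ D₁ z ((m : ℝ) * w₀ * w₁) c' hsR hpR hX₀P hX₁P hzR hz2R
    hnR hcR hn2R hc2R (hsm w D₀ X₀ hwn hD₀R hX₀R) (hsm w D₁ X₁ hwn hD₁R hX₁R)
    (hsm w' D₀ X₀ hwn' hD₀R hX₀R) (hsm w' D₁ X₁ hwn' hD₁R hX₁R)
  have hΩ' := omega_eq w' w a b X₀ D₀ X₁ D₁ z ((m : ℝ) * w₀ * w₁) c' hsR' hpR' hX₀P hX₁P hzR hz2R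
    hnR hcR hn2R hc2R (hsm w' D₀ X₀ hwn' hD₀R hX₀R) (hsm w' D₁ X₁ hwn' hD₁R hX₁R)
    (hsm w D₀ X₀ hwn hD₀R hX₀R) (hsm w D₁ X₁ hwn hD₁R hX₁R)
  have hc'0 : c' ≠ 0 := hcabs.ne'
  have hint := omega_int a b m X₀ D₀ w₀ X₁ D₁ w₁ c' w w' hs hp hδ h0 h1 hc'0 hc
  -- the level
  have hu₀R : (T : ℝ) ^ 1136 ≤ (u₀ : ℝ) := by exact_mod_cast hu₀
  have hconR : (u₀ : ℝ) ^ 24 ≤ (u₁ : ℝ) := by exact_mod_cast hcon
  obtain ⟨k, hk1, hk2, hk3⟩ := choose_k (T : ℝ) u₀ u₁ hTr hu₀R hconR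
  have hX1 : (X₀ : ℂ) - w * D₀ ≠ 0 := by
    intro hzero
    have e1 : (X₀ : ℂ) = w * D₀ := by linear_combination hzero
    have e2 : ‖(X₀ : ℂ)‖ = ‖w‖ * |(D₀ : ℝ)| := by
      rw [e1, norm_mul]
      congr 1
      rw [← Complex.ofReal_intCast, Complex.norm_real, Real.norm_eq_abs]
    have e3 : ‖(X₀ : ℂ)‖ = (X₀ : ℝ) := by
      rw [← Complex.ofReal_intCast, Complex.norm_real, Real.norm_eq_abs, abs_of_pos hX₀P]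
    have e4 := hsm w D₀ X₀ hwn hD₀R hX₀R
    rw [← e2, e3] at e4
    linarith
  have hX2 : (X₀ : ℂ) - w' * D₀ ≠ 0 := by
    intro hzero
    have e1 : (X₀ : ℂ) = w' * D₀ := by linear_combination hzero
    have e2 : ‖(X₀ : ℂ)‖ = ‖w'‖ * |(D₀ : ℝ)| := by
      rw [e1, norm_mul]
      congr 1
      rw [← Complex.ofReal_intCast, Complex.norm_real, Real.norm_eq_abs]
    have e3 : ‖(X₀ : ℂ)‖ = (X₀ : ℝ) := by
      rw [← Complex.ofReal_intCast, Complex.norm_real, Real.norm_eq_abs, abs_of_pos hX₀P]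
    have e4 := hsm w' D₀ X₀ hwn' hD₀R hX₀R
    rw [← e2, e3] at e4
    linarith
  obtain ⟨i, hi⟩ := forms_lower a b X₀ D₀ z w w' _ _ hs hp hb hδ hD₀ hX₀pos.ne' hzpos.ne'
    hX1 hX2 hint k
  have hρ : (1 : ℝ) ≤ 2 * T := by linarith
  have hup := forms_upper w w' hinj k i X₀ D₀ X₁ D₁ z _ _ (2 * T)
    (9 * 2 ^ (4 * k) * (2 * T) ^ (3 * k + 4)) hρ (by positivity) hnd
    (fun j r hr => ec_le (nd w w') hinj k i j r hr (2 * T) hρ hnd hndi) hX₀P hX₁P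
    (by
      calc 4 * (2 * (T : ℝ)) * |(D₀ : ℝ)| ≤ 4 * (2 * (T : ℝ)) * T :=
            mul_le_mul_of_nonneg_left hD₀R (by positivity)
        _ = 8 * (T : ℝ) ^ 2 := by ring
        _ ≤ X₀ := by linarith [sq_nonneg (T : ℝ)])
    (by
      calc 4 * (2 * (T : ℝ)) * |(D₁ : ℝ)| ≤ 4 * (2 * (T : ℝ)) * T :=
            mul_le_mul_of_nonneg_left hD₁R (by positivity)
        _ = 8 * (T : ℝ) ^ 2 := by ring
        _ ≤ X₁ := by linarith [sq_nonneg (T : ℝ)]) hΩ hΩ'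
  have hδR : |((a ^ 2 - 4 * b : ℤ) : ℝ)| ≤ 3 * (T : ℝ) ^ 2 := by
    have d1 : (a : ℝ) ^ 2 ≤ (T : ℝ) ^ 2 := by
      rw [← sq_abs]
      exact pow_le_pow_left₀ (abs_nonneg _) haR 2
    have d2 := abs_le.mp hbR
    push_cast
    rw [abs_le]
    constructor <;> nlinarith [sq_nonneg (a : ℝ)]
  have hu₀1R : (1 : ℝ) ≤ (u₀ : ℝ) := by exact_mod_cast hu₀1
  have hu₁1R : (1 : ℝ) ≤ (u₁ : ℝ) := by exact_mod_cast hu₁1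
  have hH1 : (1 : ℤ) ≤ H := hH
  have hcst := constants (T : ℝ) u₀ u₁ X₀ X₁ z D₀ D₁ ((a ^ 2 - 4 * b : ℤ) : ℝ) b k hk1 hTr
    hu₀1R hu₁1R
    (by
      have : u₀ ^ 2 ≤ X₀ := by
        rw [hX₀]
        nlinarith [sq_nonneg u₀]
      exact_mod_cast this)
    (by
      have : X₀ ≤ T * u₀ ^ 2 := by
        rw [hX₀]
        nlinarith [sq_nonneg u₀]
      exact_mod_cast this)
    (by
      have : u₁ ^ 2 ≤ X₁ := by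
        rw [hX₁]
        nlinarith [sq_nonneg u₁]
      exact_mod_cast this)
    (by
      rw [abs_of_pos hzR]
      have : z ≤ T * u₀ * u₁ := by
        rw [hz]
        apply mul_le_mul_of_nonneg_right _ (by omega)
        exact mul_le_mul_of_nonneg_right hHT (by omega)
      exact_mod_cast this)
    hD₀R hD₁R hδR hbR
  have hfin : ‖2 * ((a ^ 2 - 4 * b : ℤ) : ℂ) * 4 ^ k
      * ((b * (a ^ 2 - 4 * b) : ℤ) : ℂ) ^ (3 * k + 2)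
      * (Pm (nd w w') k X₀ D₀ i 0 * z + Pm (nd w w') k X₀ D₀ i 1
          * ((((X₀ : ℂ) - w * D₀) * (X₁ - w * D₁) + m * w₀ * w₁) / c')
        + Pm (nd w w') k X₀ D₀ i 2
          * ((((X₀ : ℂ) - w' * D₀) * (X₁ - w' * D₁) + m * w₀ * w₁) / c'))‖ ≤ 1 / 4 := by
    have hn1 : ‖((a ^ 2 - 4 * b : ℤ) : ℂ)‖ = |((a ^ 2 - 4 * b : ℤ) : ℝ)| := by
      rw [← Complex.ofReal_intCast, Complex.norm_real, Real.norm_eq_abs]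
    have hn2 : ‖((b * (a ^ 2 - 4 * b) : ℤ) : ℂ)‖ = |(b : ℝ) * ((a ^ 2 - 4 * b : ℤ) : ℝ)| := by
      rw [← Complex.ofReal_intCast, Complex.norm_real, Real.norm_eq_abs, Int.cast_mul]
    rw [norm_mul, norm_mul, norm_mul, norm_mul, norm_pow, norm_pow, hn1, hn2]
    have hn3 : ‖(2 : ℂ)‖ = 2 := by norm_num
    have hn4 : ‖(4 : ℂ)‖ = 4 := by norm_num
    rw [hn3, hn4]
    have hpos : 0 ≤ 2 * |((a ^ 2 - 4 * b : ℤ) : ℝ)| * 4 ^ k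
        * |(b : ℝ) * ((a ^ 2 - 4 * b : ℤ) : ℝ)| ^ (3 * k + 2) := by positivity
    have hup' : ‖(Pm (nd w w') k X₀ D₀ i 0 * z + Pm (nd w w') k X₀ D₀ i 1
          * ((((X₀ : ℂ) - w * D₀) * (X₁ - w * D₁) + m * w₀ * w₁) / c')
        + Pm (nd w w') k X₀ D₀ i 2
          * ((((X₀ : ℂ) - w' * D₀) * (X₁ - w' * D₁) + m * w₀ * w₁) / c'))‖
        ≤ |(z : ℝ)| * (9 * 2 ^ (4 * k) * (2 * T) ^ (3 * k + 4))
        * (6 * 2 ^ k * (2 * (2 * T) * |(D₀ : ℝ)|) ^ (3 * k) / (X₀ : ℝ) ^ (2 * k)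
          + 4 * ((k : ℝ) + 1) * 4 ^ k * (X₀ : ℝ) ^ k * ((2 * T) * |(D₁ : ℝ)| / X₁)) := by
      have := hup
      push_cast at this
      exact this
    calc _ ≤ 2 * |((a ^ 2 - 4 * b : ℤ) : ℝ)| * 4 ^ k
        * |(b : ℝ) * ((a ^ 2 - 4 * b : ℤ) : ℝ)| ^ (3 * k + 2)
        * (|(z : ℝ)| * (9 * 2 ^ (4 * k) * (2 * T) ^ (3 * k + 4))
        * (6 * 2 ^ k * (2 * (2 * T) * |(D₀ : ℝ)|) ^ (3 * k) / (X₀ : ℝ) ^ (2 * k)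
          + 4 * ((k : ℝ) + 1) * 4 ^ k * (X₀ : ℝ) ^ k * ((2 * T) * |(D₁ : ℝ)| / X₁))) :=
          mul_le_mul_of_nonneg_left hup' hpos
      _ ≤ _ := hcst
      _ ≤ 1 / 4 := by linarith
  linarith

end TwPade
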