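import Pool.Agent.LibTwPade.Defs

set_option autoImplicit false

namespace TwPade

/-- Row R2b. Let `v` be the Lagrange interpolation polynomial (`Lagrange.interpolate`, degree `≤ 2`)
with `v(a_j) = φ(a_j) / A'(a_j)` (`A'(a_j) = ∏_{l ≠ j} (a_j - a_l) ≠ 0`). Then `φ - v A'` vanishes
at the three distinct points `a_j`, so it is `u A`, and
`natDegree (φ - v A') ≤ max (3 n + 4) 4 = 3 n + 4` gives `natDegree u ≤ 3 n + 1`. -/
theorem hermite (a : Fin 3 → ℂ) (ha : Function.Injective a) (n : ℕ) (φ : Polynomial ℂ)
    (hφ : φ.natDegree ≤ 3 * n + 4) :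
    ∃ u v : Polynomial ℂ, φ = u * AA a + v * Polynomial.derivative (AA a) ∧
      v.natDegree ≤ 2 ∧ u.natDegree ≤ 3 * n + 1 := by
  classical
  have hmon : (AA a).Monic := Polynomial.monic_prod_of_monic _ _ fun l _ => Polynomial.monic_X_sub_C _
  have hdeg : (AA a).natDegree = 3 := by
    unfold AA
    rw [Polynomial.natDegree_prod_of_monic _ _ fun l _ => Polynomial.monic_X_sub_C _]
    simp
  have hroot : ∀ j, (AA a).eval (a j) = 0 := by
    intro j
    unfold AA
    rw [Polynomial.eval_prod]
    exact Finset.prod_eq_zero (Finset.mem_univ j) (by simp)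
  have hsep : (AA a).Separable := Polynomial.separable_prod_X_sub_C_iff.2 ha
  have hne : ∀ j, (Polynomial.derivative (AA a)).eval (a j) ≠ 0 := by
    intro j h0
    obtain ⟨p, q, hpq⟩ := hsep
    have h1 := congrArg (Polynomial.eval (a j)) hpq
    rw [Polynomial.eval_add, Polynomial.eval_mul, Polynomial.eval_mul, hroot j, h0] at h1
    simp at h1
  set v : Polynomial ℂ := Lagrange.interpolate Finset.univ a
    (fun j => φ.eval (a j) / (Polynomial.derivative (AA a)).eval (a j)) with hv
  have hinj : Set.InjOn a (Finset.univ : Finset (Fin 3)) := ha.injOn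
  have hvdeg : v.degree < 3 := by
    have h1 := Lagrange.degree_interpolate_lt
      (fun j => φ.eval (a j) / (Polynomial.derivative (AA a)).eval (a j)) hinj
    rwa [Finset.card_univ, Fintype.card_fin] at h1
  have hvn : v.natDegree ≤ 2 := by
    by_cases h0 : v = 0
    · rw [h0]; simp
    · have h1 : v.natDegree < 3 := (Polynomial.natDegree_lt_iff_degree_lt h0).2 hvdeg
      omega
  have hve : ∀ j, v.eval (a j) = φ.eval (a j) / (Polynomial.derivative (AA a)).eval (a j) :=
    fun j => Lagrange.eval_interpolate_at_node _ hinj (Finset.mem_univ j)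
  have hdvd : AA a ∣ φ - v * Polynomial.derivative (AA a) := by
    unfold AA
    refine Finset.prod_dvd_of_coprime ?_ ?_
    · intro i _ j _ hij
      exact Polynomial.pairwise_coprime_X_sub_C ha hij
    · intro j _
      rw [Polynomial.dvd_iff_isRoot, Polynomial.IsRoot, Polynomial.eval_sub, Polynomial.eval_mul]
      have h1 := hve j
      have h2 := hne j
      unfold AA at h1 h2
      rw [h1, div_mul_cancel₀ _ h2, sub_self]
  obtain ⟨u, hu⟩ := hdvd
  refine ⟨u, v, ?_, hvn, ?_⟩
  · rw [mul_comm u, ← hu]
    ring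
  · by_cases h0 : u = 0
    · rw [h0]; simp
    have h1 : (AA a * u).natDegree = 3 + u.natDegree := by
      rw [Polynomial.natDegree_mul hmon.ne_zero h0, hdeg]
    have h2 : (Polynomial.derivative (AA a)).natDegree ≤ 2 := by
      have := Polynomial.natDegree_derivative_le (AA a)
      omega
    have h3 : (v * Polynomial.derivative (AA a)).natDegree ≤ 4 :=
      Polynomial.natDegree_mul_le.trans (by omega)
    have h4 : (φ - v * Polynomial.derivative (AA a)).natDegree ≤ 3 * n + 4 :=
      (Polynomial.natDegree_sub_le _ _).trans (max_le hφ (by omega))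
    rw [hu, h1] at h4
    omega

end TwPade
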