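import Pool.Agent.LibTwPade.R1

set_option autoImplicit false

namespace TwPade

open PowerSeries

/-- Row R2c. `φ = c + d z`; the constant coefficient of `qs⁻¹` is `(∏_{l ≠ j} (a_j - a_l))⁻¹`; the
sum `∑_j φ(a_j) / ∏_{l ≠ j} (a_j - a_l)` vanishes: three explicit fractions, `field_simp`, `ring`. -/
theorem sum_res_zero (a : Fin 3 → ℂ) (ha : Function.Injective a) (φ : Polynomial ℂ)
    (hφ : φ.natDegree ≤ 1) :
    ∑ j : Fin 3, PowerSeries.coeff 0 (ty a j φ * ((qs a j)⁻¹) ^ 1) = 0 := by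
  obtain ⟨c, d, rfl⟩ := Polynomial.exists_eq_X_add_C_of_natDegree_le_one hφ
  have h : ∀ j : Fin 3, PowerSeries.coeff 0
      (ty a j (Polynomial.C c * Polynomial.X + Polynomial.C d) * ((qs a j)⁻¹) ^ 1) =
      (c * a j + d) * (∏ l ∈ Finset.univ.erase j, (a j - a l))⁻¹ := by
    intro j
    rw [pow_one, PowerSeries.coeff_zero_eq_constantCoeff, map_mul, PowerSeries.constantCoeff_inv,
      qs, map_prod]
    congr 1
    · rw [ty_add, ty_mul, ty_C, ty_C, ty_X]
      simp
    · congr 1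
      refine Finset.prod_congr rfl fun l _ => ?_
      simp
  rw [Fin.sum_univ_three, h, h, h]
  have e0 : (Finset.univ.erase (0 : Fin 3)) = {1, 2} := by decide
  have e1 : (Finset.univ.erase (1 : Fin 3)) = {0, 2} := by decide
  have e2 : (Finset.univ.erase (2 : Fin 3)) = {0, 1} := by decide
  rw [e0, e1, e2, Finset.prod_pair (by decide), Finset.prod_pair (by decide),
    Finset.prod_pair (by decide)]
  have h01 : a 0 - a 1 ≠ 0 := sub_ne_zero.2 fun h => absurd (ha h) (by decide)
  have h02 : a 0 - a 2 ≠ 0 := sub_ne_zero.2 fun h => absurd (ha h) (by decide)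
  have h12 : a 1 - a 2 ≠ 0 := sub_ne_zero.2 fun h => absurd (ha h) (by decide)
  have h10 : a 1 - a 0 = -(a 0 - a 1) := by ring
  have h20 : a 2 - a 0 = -(a 0 - a 2) := by ring
  have h21 : a 2 - a 1 = -(a 1 - a 2) := by ring
  rw [h10, h20, h21]
  field_simp
  ring

end TwPade
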