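import Pool.Agent.LibTwPade.R2a
import Pool.Agent.LibTwPade.R2b
import Pool.Agent.LibTwPade.R2c

set_option autoImplicit false

namespace TwPade

open PowerSeries

/-- Row R2. Sum of the residues of `φ / A^(n+1)`. Induction on `n`: `n = 0` is `sum_res_zero`. Step:
`φ = u A + v A'` (`hermite`), by `res_exact` the residue of `v A' / A^(n+2)` is `(n+1)⁻¹` times the one
of `v' A / A^(n+2)`, and by `res_AA` the total is the residue of `(u + (n+1)⁻¹ v') / A^(n+1)`, whose
numerator has degree `≤ 3 n + 1`. -/
theorem sum_res (a : Fin 3 → ℂ) (ha : Function.Injective a) (n : ℕ) (φ : Polynomial ℂ)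
    (hφ : φ.natDegree ≤ 3 * n + 1) :
    ∑ j : Fin 3, PowerSeries.coeff n (ty a j φ * ((qs a j)⁻¹) ^ (n + 1)) = 0 := by
  induction n generalizing φ with
  | zero => exact sum_res_zero a ha φ (by omega)
  | succ n ih =>
    obtain ⟨u, v, huv, hv, hu⟩ := hermite a ha n φ (by omega)
    have hc : ((n : ℂ) + 1) ≠ 0 := Nat.cast_add_one_ne_zero n
    have hdeg : (Polynomial.C ((n : ℂ) + 1) * u + Polynomial.derivative v).natDegree ≤
        3 * n + 1 := by
      refine (Polynomial.natDegree_add_le _ _).trans (max_le ?_ ?_)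
      · exact (Polynomial.natDegree_C_mul_le _ _).trans hu
      · exact (Polynomial.natDegree_derivative_le v).trans (by omega)
    have key : ∀ j : Fin 3, ((n : ℂ) + 1) *
        PowerSeries.coeff (n + 1) (ty a j φ * ((qs a j)⁻¹) ^ (n + 1 + 1)) =
        PowerSeries.coeff n (ty a j (Polynomial.C ((n : ℂ) + 1) * u + Polynomial.derivative v) *
          ((qs a j)⁻¹) ^ (n + 1)) := by
      intro j
      have h1 := res_exact a ha j n v
      have h2 := res_AA a ha j n (Polynomial.C ((n : ℂ) + 1) * u + Polynomial.derivative v)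
      rw [← h2]
      have h3 : ((n : ℂ) + 1) *
          PowerSeries.coeff (n + 1) (ty a j φ * ((qs a j)⁻¹) ^ (n + 1 + 1)) =
          PowerSeries.coeff (n + 1) (ty a j (Polynomial.C ((n : ℂ) + 1) * φ) *
            ((qs a j)⁻¹) ^ (n + 2)) := by
        rw [ty_mul, ty_C, mul_assoc, PowerSeries.coeff_C_mul]
      have h4 : (Polynomial.C ((n : ℂ) + 1) * u + Polynomial.derivative v) * AA a =
          Polynomial.C ((n : ℂ) + 1) * φ + (Polynomial.derivative v * AA a
            - Polynomial.C ((n : ℂ) + 1) * (v * Polynomial.derivative (AA a))) := by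
        rw [huv]
        ring
      rw [h3, h4, ty_add, add_mul, LinearMap.map_add, h1, add_zero]
    have h5 := ih (Polynomial.C ((n : ℂ) + 1) * u + Polynomial.derivative v) hdeg
    rw [← Finset.sum_congr rfl (fun j _ => key j), ← Finset.mul_sum] at h5
    exact (mul_eq_zero.1 h5).resolve_left hc

end TwPade
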