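import Pool.Agent.LibTwPade.R1

set_option autoImplicit false

namespace TwPade

open PowerSeries

private theorem r2a_sub (a : Fin 3 → ℂ) (j : Fin 3) (φ ψ : Polynomial ℂ) :
    ty a j (φ - ψ) = ty a j φ - ty a j ψ := by
  unfold ty
  rw [map_sub, Polynomial.coe_sub]

private theorem r2a_pow (a : Fin 3 → ℂ) (ha : Function.Injective a) (j : Fin 3) (m : ℕ) :
    qs a j * ((qs a j)⁻¹) ^ (m + 1) = ((qs a j)⁻¹) ^ m := by
  rw [pow_succ', ← mul_assoc, qs_inv a ha j, one_mul]

private theorem r2a_key (a : Fin 3 → ℂ) (ha : Function.Injective a) (j : Fin 3) (n : ℕ)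
    (v : Polynomial ℂ) :
    ty a j (Polynomial.derivative v * AA a
      - Polynomial.C ((n : ℂ) + 1) * (v * Polynomial.derivative (AA a))) * ((qs a j)⁻¹) ^ (n + 2)
      = PowerSeries.X * PowerSeries.derivative ℂ (ty a j v * ((qs a j)⁻¹) ^ (n + 1))
        - ((n : PowerSeries ℂ) + 1) * (ty a j v * ((qs a j)⁻¹) ^ (n + 1)) := by
  have h1 := r2a_pow a ha j (n + 1)
  rw [r2a_sub, ty_mul, ty_mul, ty_mul, ty_C, ty_deriv, ty_deriv, ty_AA]
  have h2 : PowerSeries.derivative ℂ (PowerSeries.X * qs a j) =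
      qs a j + PowerSeries.X * PowerSeries.derivative ℂ (qs a j) := by
    rw [Derivation.leibniz, smul_eq_mul, smul_eq_mul, PowerSeries.derivative_X]
    ring
  have h3 : PowerSeries.derivative ℂ (ty a j v * ((qs a j)⁻¹) ^ (n + 1)) =
      PowerSeries.derivative ℂ (ty a j v) * ((qs a j)⁻¹) ^ (n + 1) -
        ((n : PowerSeries ℂ) + 1) * (ty a j v * ((qs a j)⁻¹) ^ (n + 2) *
          PowerSeries.derivative ℂ (qs a j)) := by
    rw [Derivation.leibniz, Derivation.leibniz_pow, PowerSeries.derivative_inv']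
    simp only [smul_eq_mul, nsmul_eq_mul, Nat.add_sub_cancel]
    push_cast
    ring
  have h4 : (PowerSeries.C ((n : ℂ) + 1) : PowerSeries ℂ) = (n : PowerSeries ℂ) + 1 := by
    rw [map_add, map_natCast, map_one]
  rw [h2, h3, h4]
  linear_combination (PowerSeries.derivative ℂ (ty a j v) * PowerSeries.X -
    ((n : PowerSeries ℂ) + 1) * ty a j v) * h1

/-- Row R2a. The residue of an exact form is `0`. Let `q = qs a j`, `V = ty a j v`,
`S = V * (q⁻¹)^(n+1)`. By `ty_mul`, `ty_deriv`, `ty_AA` (and `derivative (X * q) = q + X q'`),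
with `q * q⁻¹ = 1` (`qs_inv`) and `PowerSeries.derivative_inv'` (`d q⁻¹ = - q⁻¹^2 d q`):
`ty (v' A - (n+1) v A') * (q⁻¹)^(n+2) = X * d S - (n+1) S`, and
`coeff (n+1) (X * d S) = (n+1) coeff (n+1) S` (`PowerSeries.coeff_succ_X_mul`,
`PowerSeries.coeff_derivative`). -/
theorem res_exact (a : Fin 3 → ℂ) (ha : Function.Injective a) (j : Fin 3) (n : ℕ)
    (v : Polynomial ℂ) :
    PowerSeries.coeff (n + 1) (ty a j (Polynomial.derivative v * AA a
      - Polynomial.C ((n : ℂ) + 1) * (v * Polynomial.derivative (AA a))) * ((qs a j)⁻¹) ^ (n + 2))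
      = 0 := by
  rw [r2a_key a ha j n v]
  generalize ty a j v * ((qs a j)⁻¹) ^ (n + 1) = S
  rw [map_sub, PowerSeries.coeff_succ_X_mul, PowerSeries.coeff_derivative]
  have h4 : ((n : PowerSeries ℂ) + 1) = PowerSeries.C ((n : ℂ) + 1) := by
    rw [map_add, map_natCast, map_one]
  rw [h4, PowerSeries.coeff_C_mul]
  ring

/-- `ty (u A) = ty u * X * q`, so `(q⁻¹)^(n+2)` loses one factor and `X` shifts the coefficient. -/
theorem res_AA (a : Fin 3 → ℂ) (ha : Function.Injective a) (j : Fin 3) (n : ℕ)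
    (u : Polynomial ℂ) :
    PowerSeries.coeff (n + 1) (ty a j (u * AA a) * ((qs a j)⁻¹) ^ (n + 2))
      = PowerSeries.coeff n (ty a j u * ((qs a j)⁻¹) ^ (n + 1)) := by
  have h1 := r2a_pow a ha j (n + 1)
  have h2 : ty a j (u * AA a) * ((qs a j)⁻¹) ^ (n + 2) =
      PowerSeries.X * (ty a j u * ((qs a j)⁻¹) ^ (n + 1)) := by
    rw [ty_mul, ty_AA]
    linear_combination (ty a j u * PowerSeries.X) * h1
  rw [h2, PowerSeries.coeff_succ_X_mul]

end TwPade
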