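import Pool.Agent.LibTwPade.Defs

set_option autoImplicit false

namespace TwPade

/-- Row R3a. Pascal: `Ring.choose_succ_succ`. -/
theorem ch_succ (k n : ℕ) : ch (k + 1) (n + 1) = ch k n + ch k (n + 1) := by
  unfold ch
  have h1 : ((k + 1 : ℕ) : ℂ) + 1 / 2 = ((k : ℂ) + 1 / 2) + 1 := by
    push_cast
    ring
  rw [h1, Ring.choose_succ_succ]

theorem ch_zero_right (k : ℕ) : ch k 0 = 1 := by
  unfold ch
  exact Ring.choose_zero_right _

theorem ch_rec (k n : ℕ) : ((n : ℂ) + 1) * ch k (n + 1) = ch k n * ((k : ℂ) + 1 / 2 - n) := by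
  unfold ch
  have h1 := Ring.choose_smul_choose ((k : ℂ) + 1 / 2) (Nat.le_succ n)
  rw [Nat.succ_eq_add_one, Nat.add_sub_cancel_left, Ring.choose_one_right, nsmul_eq_mul,
    Nat.choose_succ_self_right] at h1
  rw [← h1]
  push_cast
  ring

theorem ch_zero_le (n : ℕ) : ‖ch 0 n‖ ≤ 1 := by
  induction n with
  | zero =>
    rw [ch_zero_right]
    simp
  | succ n ih =>
    have h1 := ch_rec 0 n
    have h2 := congrArg norm h1
    rw [norm_mul, norm_mul] at h2
    have h3 : ‖((n : ℂ) + 1)‖ = (n : ℝ) + 1 := by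
      have h4 : ((n : ℂ) + 1) = (((n : ℝ) + 1 : ℝ) : ℂ) := by
        push_cast
        ring
      rw [h4, Complex.norm_real, Real.norm_eq_abs, abs_of_nonneg (by positivity)]
    have h5 : ‖(((0 : ℕ) : ℂ) + 1 / 2 - n)‖ ≤ (n : ℝ) + 1 := by
      have h4 : (((0 : ℕ) : ℂ) + 1 / 2 - n) = (((1 / 2 : ℝ) - n : ℝ) : ℂ) := by
        push_cast
        ring
      rw [h4, Complex.norm_real, Real.norm_eq_abs, abs_le]
      have h6 : (0 : ℝ) ≤ n := Nat.cast_nonneg n
      constructor <;> linarith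
    rw [h3] at h2
    have h6 : (0 : ℝ) < (n : ℝ) + 1 := by positivity
    have h7 : ((n : ℝ) + 1) * ‖ch 0 (n + 1)‖ ≤ ((n : ℝ) + 1) * 1 := by
      rw [h2, mul_one]
      calc ‖ch 0 n‖ * ‖(((0 : ℕ) : ℂ) + 1 / 2 - n)‖ ≤ 1 * ((n : ℝ) + 1) :=
            mul_le_mul ih h5 (norm_nonneg _) zero_le_one
        _ = (n : ℝ) + 1 := one_mul _
    exact le_of_mul_le_mul_left h7 h6

/-- Row R3b. First `|Ring.choose (1/2) n| ≤ 1` (product `∏ |1/2 - i| / (i + 1) ≤ 1`), then
induction on `k` with `ch_succ` (all `n`; `ch k 0 = 1`). -/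
theorem ch_le (k n : ℕ) : ‖ch k n‖ ≤ 2 ^ k := by
  induction k generalizing n with
  | zero =>
    rw [pow_zero]
    exact ch_zero_le n
  | succ k ih =>
    cases n with
    | zero =>
      rw [ch_zero_right, norm_one]
      exact one_le_pow₀ (by norm_num)
    | succ n =>
      rw [ch_succ]
      calc ‖ch k n + ch k (n + 1)‖ ≤ ‖ch k n‖ + ‖ch k (n + 1)‖ := norm_add_le _ _
        _ ≤ 2 ^ k + 2 ^ k := add_le_add (ih n) (ih (n + 1))
        _ = 2 ^ (k + 1) := by ring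

end TwPade
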