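import Pool.Agent.LibTwPade.R3

set_option autoImplicit false

namespace TwPade

theorem R3c_rec (a : ℂ) (n : ℕ) :
    ((n : ℂ) + 1) * Ring.choose a (n + 1) = Ring.choose a n * (a - n) := by
  have h1 := Ring.choose_smul_choose a (Nat.le_succ n)
  rw [Nat.succ_eq_add_one, Nat.choose_succ_self_right, nsmul_eq_mul, Nat.add_sub_cancel_left,
    Ring.choose_one_right] at h1
  push_cast at h1
  exact h1

theorem R3c_half (n : ℕ) :
    (4 : ℂ) ^ n * Ring.choose (-1 / 2 : ℂ) n = (-1) ^ n * (Nat.centralBinom n : ℂ) := by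
  induction n with
  | zero => simp
  | succ n ih =>
    have h1 := R3c_rec (-1 / 2) n
    have h2 := Nat.succ_mul_centralBinom_succ n
    have h3 : ((n : ℂ) + 1) * (Nat.centralBinom (n + 1) : ℂ)
        = 2 * (2 * (n : ℂ) + 1) * (Nat.centralBinom n : ℂ) := by exact_mod_cast h2
    have h4 : ((n : ℂ) + 1) ≠ 0 := by exact_mod_cast Nat.succ_ne_zero n
    apply mul_left_cancel₀ h4
    calc ((n : ℂ) + 1) * ((4 : ℂ) ^ (n + 1) * Ring.choose (-1 / 2 : ℂ) (n + 1))
        = 4 ^ (n + 1) * (((n : ℂ) + 1) * Ring.choose (-1 / 2 : ℂ) (n + 1)) := by ring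
      _ = 4 ^ (n + 1) * (Ring.choose (-1 / 2 : ℂ) n * (-1 / 2 - n)) := by rw [h1]
      _ = (4 ^ n * Ring.choose (-1 / 2 : ℂ) n) * (-2 * (2 * (n : ℂ) + 1)) := by ring
      _ = ((-1) ^ n * (Nat.centralBinom n : ℂ)) * (-2 * (2 * (n : ℂ) + 1)) := by rw [ih]
      _ = (-1) ^ (n + 1) * (2 * (2 * (n : ℂ) + 1) * (Nat.centralBinom n : ℂ)) := by ring
      _ = (-1) ^ (n + 1) * (((n : ℂ) + 1) * (Nat.centralBinom (n + 1) : ℂ)) := by rw [h3]
      _ = ((n : ℂ) + 1) * ((-1) ^ (n + 1) * (Nat.centralBinom (n + 1) : ℂ)) := by ring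

/-- Row R3c. `4^n * Ring.choose (-1/2) n = (-1)^n * Nat.centralBinom n` by induction on `n`
(`Nat.succ_mul_centralBinom_succ`), then `Ring.choose (1/2) (n+1) = Ring.choose (-1/2) n +
Ring.choose (-1/2) (n+1)` (Pascal), then induction on `k` with `ch_succ`. -/
theorem ch_int (k n : ℕ) : ∃ z : ℤ, 4 ^ n * ch k n = (z : ℂ) := by
  induction k generalizing n with
  | zero =>
    cases n with
    | zero =>
      refine ⟨1, ?_⟩
      simp [ch]
    | succ n =>
      refine ⟨4 * ((-1) ^ n * (Nat.centralBinom n : ℤ)) + (-1) ^ (n + 1) * (Nat.centralBinom (n + 1) : ℤ), ?_⟩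
      have h1 : ch 0 (n + 1) = Ring.choose (-1 / 2 : ℂ) n + Ring.choose (-1 / 2 : ℂ) (n + 1) := by
        rw [← Ring.choose_succ_succ]
        unfold ch
        congr 1
        push_cast
        ring
      rw [h1]
      push_cast
      rw [← R3c_half n, ← R3c_half (n + 1)]
      ring
  | succ k ih =>
    cases n with
    | zero =>
      refine ⟨1, ?_⟩
      simp [ch]
    | succ n =>
      obtain ⟨z1, hz1⟩ := ih n
      obtain ⟨z2, hz2⟩ := ih (n + 1)
      refine ⟨4 * z1 + z2, ?_⟩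
      rw [ch_succ]
      push_cast
      rw [← hz1, ← hz2]
      ring

end TwPade
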