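import Pool.Agent.LibTwPade.Defs

set_option autoImplicit false

namespace TwPade

/-- Row R3d. `C(s, h) C(s - h, r) = C(s, h + r) C(h + r, h)` with `s = k + 1/2`
(`s - h = (k - h) + 1/2`): write both sides with products `∏_{i < n} (s - i) / n!`
(`Ring.choose_eq_smul` / `descPochhammer`, `Ring.descPochhammer_eq_factorial_smul_choose`). -/
theorem ch_mul (k h r : ℕ) (hh : h ≤ k) :
    ch k h * ch (k - h) r = ch k (h + r) * ((h + r).choose h : ℂ) := by
  unfold ch
  have h1 := Ring.choose_smul_choose ((k : ℂ) + 1 / 2) (Nat.le_add_right h r)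
  rw [Nat.add_sub_cancel_left, nsmul_eq_mul] at h1
  have h2 : ((k - h : ℕ) : ℂ) + 1 / 2 = (k : ℂ) + 1 / 2 - h := by
    rw [Nat.cast_sub hh]
    ring
  rw [h2, ← h1]
  ring

end TwPade
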