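import Pool.Agent.LibTwPade.Defs

set_option autoImplicit false

namespace TwPade

/-- Row R3e. `Complex.one_add_cpow_hasFPowerSeriesOnBall_zero` (Mathlib/Analysis/Analytic/
Binomial.lean) for the exponent `k + 1/2`, and `(1+x)^(k+1/2) = (1+x)^k (1+x)^(1/2)` (`1 + x ≠ 0`,
`Complex.cpow_add`, `Complex.cpow_natCast`). -/
theorem ch_hasSum (k : ℕ) (x : ℂ) (hx : ‖x‖ < 1) :
    HasSum (fun n => ch k n * x ^ n) ((1 + x) ^ k * (1 + x) ^ ((1 : ℂ) / 2)) := by
  have h1 := Complex.one_add_cpow_hasFPowerSeriesOnBall_zero (a := (k : ℂ) + 1 / 2)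
  have hx' : x ∈ Metric.eball (0 : ℂ) 1 := by
    rw [← ENNReal.ofReal_one, Metric.eball_ofReal]
    simpa using hx
  have h2 := h1.hasSum hx'
  have h3 : (1 : ℂ) + x ≠ 0 := by
    intro h
    have h4 : x = -1 := by linear_combination h
    rw [h4, norm_neg, norm_one] at hx
    exact lt_irrefl _ hx
  have h4 : (1 + (0 + x)) ^ ((k : ℂ) + 1 / 2) = (1 + x) ^ k * (1 + x) ^ ((1 : ℂ) / 2) := by
    rw [zero_add, Complex.cpow_add _ _ h3, Complex.cpow_natCast]
  rw [h4] at h2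
  have h5 : (fun n => (binomialSeries ℂ ((k : ℂ) + 1 / 2) n) fun _ => x) = fun n => ch k n * x ^ n := by
    funext n
    rw [binomialSeries_apply, smul_eq_mul, List.ofFn_const, List.prod_replicate]
    rfl
  rw [h5] at h2
  exact h2

end TwPade
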