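import Pool.Agent.LibTwPade.R2

set_option autoImplicit false

namespace TwPade

open PowerSeries

/-- Row R4a. Coefficient `k` of `(a_j + x)^m s_i(a_j + x) q_j^(-(k+1))`, expanded by the binomial
theorem (`add_pow`, `PowerSeries.coeff_mul` with `(X + C c)^m`, whose coefficient `h` is
`(m.choose h) c^(m-h)`). Terms with `h > m` vanish (`Nat.choose_eq_zero_of_lt`). -/
theorem coeff_zpow (a : Fin 3 → ℂ) (k m : ℕ) (i j : Fin 3) :
    PowerSeries.coeff k (ty a j (Polynomial.X ^ m * sp a i) * ((qs a j)⁻¹) ^ (k + 1))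
      = ∑ h ∈ Finset.range (k + 1), (m.choose h : ℂ) * a j ^ (m - h) * ec a k i j (k - h) := by
  have h1 : ty a j (Polynomial.X ^ m * sp a i) * ((qs a j)⁻¹) ^ (k + 1) =
      (PowerSeries.X + PowerSeries.C (a j)) ^ m * (ty a j (sp a i) * ((qs a j)⁻¹) ^ (k + 1)) := by
    rw [ty_mul, ty_pow, ty_X, mul_assoc]
  have h2 : ∀ h, PowerSeries.coeff h ((PowerSeries.X + PowerSeries.C (a j)) ^ m) =
      (m.choose h : ℂ) * a j ^ (m - h) := by
    intro h
    have h3 : (PowerSeries.X + PowerSeries.C (a j)) ^ m =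
        (((Polynomial.X + Polynomial.C (a j)) ^ m : Polynomial ℂ) : PowerSeries ℂ) := by
      rw [Polynomial.coe_pow, Polynomial.coe_add, Polynomial.coe_X, Polynomial.coe_C]
    rw [h3, Polynomial.coeff_coe, Polynomial.coeff_X_add_C_pow, mul_comm]
  rw [h1, PowerSeries.coeff_mul, Finset.Nat.sum_antidiagonal_eq_sum_range_succ_mk]
  refine Finset.sum_congr rfl fun h _ => ?_
  rw [h2]
  rfl

/-- Row R4b. From `coeff_zpow` and `sum_res` (degree `m + 2 ≤ 3 k + 1`). -/
theorem sum_zpow (a : Fin 3 → ℂ) (ha : Function.Injective a) (k m : ℕ) (hm : m + 1 ≤ 3 * k)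
    (i : Fin 3) :
    ∑ j : Fin 3, ∑ h ∈ Finset.range (k + 1),
      (m.choose h : ℂ) * a j ^ (m - h) * ec a k i j (k - h) = 0 := by
  have h1 : (sp a i).natDegree ≤ 2 := by
    unfold sp
    refine (Polynomial.natDegree_prod_le _ _).trans ?_
    refine (Finset.sum_le_card_nsmul _ _ 1 fun l _ => ?_).trans ?_
    · exact (Polynomial.natDegree_X_sub_C (a l)).le
    · rw [Finset.card_erase_of_mem (Finset.mem_univ i), Finset.card_univ, Fintype.card_fin]
      norm_num
  have h2 : (Polynomial.X ^ m * sp a i).natDegree ≤ 3 * k + 1 := by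
    refine Polynomial.natDegree_mul_le.trans ?_
    rw [Polynomial.natDegree_X_pow]
    omega
  have h3 := sum_res a ha k _ h2
  rw [← h3]
  exact Finset.sum_congr rfl fun j _ => (coeff_zpow a k m i j).symm

end TwPade
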