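import Pool.Agent.LibTwPade.R3
import Pool.Agent.LibTwPade.R3d
import Pool.Agent.LibTwPade.R3e
import Pool.Agent.LibTwPade.R4

set_option autoImplicit false

namespace TwPade

private lemma sum_choose_le (k m : ℕ) : ∑ h ∈ Finset.range (k + 1), m.choose h ≤ 2 ^ m := by
  have h1 : ∑ h ∈ Finset.range (k + 1), m.choose h ≤ ∑ h ∈ Finset.range (m + 1 + k), m.choose h := by
    apply Finset.sum_le_sum_of_subset
    intro h hh
    rw [Finset.mem_range] at hh ⊢
    omega
  have h2 : ∑ h ∈ Finset.range (m + 1 + k), m.choose h = 2 ^ m := by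
    rw [Finset.sum_range_add, Nat.sum_range_choose]
    have h3 : ∑ x ∈ Finset.range k, m.choose (m + 1 + x) = 0 := by
      apply Finset.sum_eq_zero
      intro x _
      exact Nat.choose_eq_zero_of_lt (by omega)
    rw [h3, add_zero]
  exact h1.trans h2.le

/-- the term of degree `m` -/
private noncomputable def tm (a : Fin 3 → ℂ) (k : ℕ) (i : Fin 3) (t : ℂ) (j : Fin 3) (h m : ℕ) : ℂ :=
  ch k m * t ^ m * ((m.choose h : ℂ) * a j ^ (m - h) * ec a k i j (k - h))

private lemma hasSum_tm (a : Fin 3 → ℂ) (k : ℕ) (i : Fin 3) (t : ℂ) (j : Fin 3) (h : ℕ) (hh : h ≤ k)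
    (hx : ‖a j * t‖ < 1) :
    HasSum (tm a k i t j h)
      (ch k h * t ^ h * (1 + a j * t) ^ (k - h) * ec a k i j (k - h)
        * (1 + a j * t) ^ ((1 : ℂ) / 2)) := by
  have h1 := (ch_hasSum (k - h) (a j * t) hx).mul_left (ch k h * t ^ h * ec a k i j (k - h))
  have h2 : ∑ m ∈ Finset.range h, tm a k i t j h m = 0 := by
    apply Finset.sum_eq_zero
    intro m hm
    rw [Finset.mem_range] at hm
    unfold tm
    rw [Nat.choose_eq_zero_of_lt hm]
    simp
  have h3 : HasSum (fun n => tm a k i t j h (n + h))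
      (ch k h * t ^ h * (1 + a j * t) ^ (k - h) * ec a k i j (k - h)
        * (1 + a j * t) ^ ((1 : ℂ) / 2)) := by
    have h4 : ch k h * t ^ h * (1 + a j * t) ^ (k - h) * ec a k i j (k - h)
        * (1 + a j * t) ^ ((1 : ℂ) / 2)
        = ch k h * t ^ h * ec a k i j (k - h)
          * ((1 + a j * t) ^ (k - h) * (1 + a j * t) ^ ((1 : ℂ) / 2)) := by ring
    rw [h4]
    refine h1.congr_fun ?_
    intro n
    unfold tm
    have h5 := ch_mul k h n hh
    have h6 : n + h = h + n := add_comm n h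
    have h7 : h + n - h = n := by omega
    rw [h6, h7]
    calc ch k (h + n) * t ^ (h + n) * (((h + n).choose h : ℂ) * a j ^ n * ec a k i j (k - h))
        = (ch k (h + n) * ((h + n).choose h : ℂ)) * (t ^ (h + n) * a j ^ n * ec a k i j (k - h)) := by
          ring
      _ = (ch k h * ch (k - h) n) * (t ^ (h + n) * a j ^ n * ec a k i j (k - h)) := by rw [h5]
      _ = ch k h * t ^ h * ec a k i j (k - h) * (ch (k - h) n * (a j * t) ^ n) := by
          rw [mul_pow, pow_add]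
          ring
  have h8 := (hasSum_nat_add_iff (f := tm a k i t j h) h).1 h3
  rwa [h2, add_zero] at h8

/-- Row R5. Order of vanishing, quantitatively. For `X = 1`, `D = t`:
`∑_j Pm a k 1 t i j (1 + a_j t)^(1/2)
 = ∑_j ∑_{h ≤ k} ch k h t^h ec(k-h) (1 + a_j t)^(k-h) (1 + a_j t)^(1/2)
 = ∑_j ∑_{h ≤ k} ∑_r ec(k-h) ch k h ch (k-h) r t^(h+r) a_j^r`   (`ch_hasSum`)
` = ∑_m ch k m t^m ∑_j ∑_{h ≤ min(k,m)} (m.choose h) a_j^(m-h) ec(k-h)`   (`ch_mul`, `m = h + r`).
The inner sum is `0` for `m < 3 k` (`sum_zpow`) and at most `3 E (2 ρ)^m` in absolute value always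
(`∑_h (m.choose h) ≤ 2^m`, `‖a_j‖^(m-h) ≤ ρ^m`); `‖ch k m‖ ≤ 2^k`; geometric series with ratio
`2 ρ ‖t‖ ≤ 1/2` from `m = 3 k` on. -/
theorem order (a : Fin 3 → ℂ) (ha : Function.Injective a) (k : ℕ) (i : Fin 3) (t : ℂ) (ρ E : ℝ)
    (hρ : 1 ≤ ρ) (hE : 0 ≤ E) (haρ : ∀ j, ‖a j‖ ≤ ρ) (hec : ∀ j r, r ≤ k → ‖ec a k i j r‖ ≤ E)
    (ht : 4 * ρ * ‖t‖ ≤ 1) :
    ‖∑ j : Fin 3, Pm a k 1 t i j * (1 + a j * t) ^ ((1 : ℂ) / 2)‖
      ≤ 6 * 2 ^ k * E * (2 * ρ * ‖t‖) ^ (3 * k) := by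
  have hρ0 : 0 < ρ := by linarith
  have ht0 := norm_nonneg t
  have hx : ∀ j, ‖a j * t‖ < 1 := by
    intro j
    rw [norm_mul]
    have h1 := mul_le_mul_of_nonneg_right (haρ j) ht0
    nlinarith
  set q : ℝ := 2 * ρ * ‖t‖ with hq
  have hq0 : 0 ≤ q := by positivity
  have hq2 : q ≤ 1 / 2 := by
    rw [hq]
    linarith
  -- the series
  have hS : HasSum (fun m => ∑ j : Fin 3, ∑ h ∈ Finset.range (k + 1), tm a k i t j h m)
      (∑ j : Fin 3, Pm a k 1 t i j * (1 + a j * t) ^ ((1 : ℂ) / 2)) := by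
    apply hasSum_sum
    intro j _
    have h1 : Pm a k 1 t i j * (1 + a j * t) ^ ((1 : ℂ) / 2)
        = ∑ h ∈ Finset.range (k + 1), ch k h * t ^ h * (1 + a j * t) ^ (k - h) * ec a k i j (k - h)
          * (1 + a j * t) ^ ((1 : ℂ) / 2) := by
      unfold Pm
      rw [Finset.sum_mul]
    rw [h1]
    apply hasSum_sum
    intro h hh
    exact hasSum_tm a k i t j h (Nat.lt_succ_iff.1 (Finset.mem_range.1 hh)) (hx j)
  have hfac : ∀ m, ∑ j : Fin 3, ∑ h ∈ Finset.range (k + 1), tm a k i t j h m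
      = ch k m * t ^ m * ∑ j : Fin 3, ∑ h ∈ Finset.range (k + 1),
        (m.choose h : ℂ) * a j ^ (m - h) * ec a k i j (k - h) := by
    intro m
    rw [Finset.mul_sum]
    apply Finset.sum_congr rfl
    intro j _
    rw [Finset.mul_sum]
    rfl
  have hzero : ∑ m ∈ Finset.range (3 * k), ∑ j : Fin 3, ∑ h ∈ Finset.range (k + 1),
      tm a k i t j h m = 0 := by
    apply Finset.sum_eq_zero
    intro m hm
    rw [hfac, sum_zpow a ha k m (Finset.mem_range.1 hm) i, mul_zero]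
  have hS' := (hasSum_nat_add_iff'
    (f := fun m => ∑ j : Fin 3, ∑ h ∈ Finset.range (k + 1), tm a k i t j h m) (3 * k)).2 hS
  rw [hzero, sub_zero] at hS'
  -- the bound
  have hbound : ∀ m, ‖∑ j : Fin 3, ∑ h ∈ Finset.range (k + 1), tm a k i t j h m‖
      ≤ 3 * 2 ^ k * E * q ^ m := by
    intro m
    rw [hfac, norm_mul, norm_mul, norm_pow]
    have h1 : ‖∑ j : Fin 3, ∑ h ∈ Finset.range (k + 1),
        (m.choose h : ℂ) * a j ^ (m - h) * ec a k i j (k - h)‖ ≤ 3 * (E * ρ ^ m * 2 ^ m) := by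
      have h2 : ∀ j : Fin 3, ‖∑ h ∈ Finset.range (k + 1),
          (m.choose h : ℂ) * a j ^ (m - h) * ec a k i j (k - h)‖ ≤ E * ρ ^ m * 2 ^ m := by
        intro j
        refine (norm_sum_le _ _).trans ?_
        have h3 : ∀ h ∈ Finset.range (k + 1),
            ‖(m.choose h : ℂ) * a j ^ (m - h) * ec a k i j (k - h)‖
              ≤ E * ρ ^ m * (m.choose h : ℝ) := by
          intro h _
          rw [norm_mul, norm_mul, norm_pow, Complex.norm_natCast]
          have h4 : ‖a j‖ ^ (m - h) ≤ ρ ^ m :=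
            (pow_le_pow_left₀ (norm_nonneg _) (haρ j) _).trans
              (pow_le_pow_right₀ hρ (Nat.sub_le m h))
          have h5 : ‖ec a k i j (k - h)‖ ≤ E := hec j (k - h) (Nat.sub_le k h)
          have h6 : (0 : ℝ) ≤ m.choose h := Nat.cast_nonneg _
          calc (m.choose h : ℝ) * ‖a j‖ ^ (m - h) * ‖ec a k i j (k - h)‖
              ≤ (m.choose h : ℝ) * ρ ^ m * E := by
                apply mul_le_mul (mul_le_mul_of_nonneg_left h4 h6) h5 (norm_nonneg _)
                positivity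
            _ = E * ρ ^ m * (m.choose h : ℝ) := by ring
        refine (Finset.sum_le_sum h3).trans ?_
        rw [← Finset.mul_sum]
        apply mul_le_mul_of_nonneg_left _ (by positivity)
        exact_mod_cast sum_choose_le k m
      refine (norm_sum_le _ _).trans ((Finset.sum_le_sum (fun j _ => h2 j)).trans ?_)
      rw [Finset.sum_const, Finset.card_univ, Fintype.card_fin, nsmul_eq_mul]
      push_cast
      exact le_rfl
    have h7 := ch_le k m
    calc ‖ch k m‖ * ‖t‖ ^ m * ‖∑ j : Fin 3, ∑ h ∈ Finset.range (k + 1),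
          (m.choose h : ℂ) * a j ^ (m - h) * ec a k i j (k - h)‖
        ≤ 2 ^ k * ‖t‖ ^ m * (3 * (E * ρ ^ m * 2 ^ m)) := by
          apply mul_le_mul (mul_le_mul_of_nonneg_right h7 (by positivity)) h1 (norm_nonneg _)
          positivity
      _ = 3 * 2 ^ k * E * q ^ m := by
          rw [hq, mul_pow, mul_pow]
          ring
  have hgeo : HasSum (fun n => 3 * 2 ^ k * E * q ^ (3 * k) * q ^ n)
      (3 * 2 ^ k * E * q ^ (3 * k) * (1 - q)⁻¹) :=
    (hasSum_geometric_of_lt_one hq0 (by linarith)).mul_left _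
  have hfin := hS'.norm_le_of_bounded hgeo (by
    intro n
    refine (hbound (n + 3 * k)).trans (le_of_eq ?_)
    rw [pow_add]
    ring)
  refine hfin.trans ?_
  have h8 : (1 - q)⁻¹ ≤ 2 := by
    rw [inv_le_comm₀ (by linarith) (by norm_num)]
    linarith
  have h9 : 0 ≤ 3 * 2 ^ k * E * q ^ (3 * k) := by positivity
  calc 3 * 2 ^ k * E * q ^ (3 * k) * (1 - q)⁻¹ ≤ 3 * 2 ^ k * E * q ^ (3 * k) * 2 :=
        mul_le_mul_of_nonneg_left h8 h9
    _ = 6 * 2 ^ k * E * q ^ (3 * k) := by ring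

end TwPade
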