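import Pool.Agent.LibTwPade.D6

set_option autoImplicit false

namespace TwPade

open PowerSeries

/-- Row R6b2. Coefficient `h ≤ k` of `GG` is `ch k h D^h g^(k-h)`; `PowerSeries.coeff_mul`. -/
theorem GG_Pm (a : Fin 3 → ℂ) (k : ℕ) (X D : ℂ) (i j : Fin 3) (hg : X + a j * D ≠ 0) :
    PowerSeries.coeff k (GG a k X D j * ty a j (sp a i) * ((qs a j)⁻¹) ^ (k + 1))
      = Pm a k X D i j := by
  unfold Pm
  rw [mul_assoc, PowerSeries.coeff_mul, Finset.Nat.sum_antidiagonal_eq_sum_range_succ_mk]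
  refine Finset.sum_congr rfl fun h hh => ?_
  have hk : h ≤ k := Nat.lt_succ_iff.1 (Finset.mem_range.1 hh)
  have h1 : PowerSeries.coeff h (GG a k X D j) = ch k h * D ^ h * (X + a j * D) ^ (k - h) := by
    unfold GG bs
    rw [PowerSeries.coeff_C_mul, PowerSeries.coeff_mk, div_pow]
    have h2 : (X + a j * D) ^ k = (X + a j * D) ^ (k - h) * (X + a j * D) ^ h := by
      rw [← pow_add, Nat.sub_add_cancel hk]
    rw [h2]
    have h3 : (X + a j * D) ^ h ≠ 0 := pow_ne_zero _ hg
    field_simp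
  rw [h1]
  rfl

theorem R6b2_self (a : Fin 3 → ℂ) (l : Fin 3) : ty a l (sp a l) = qs a l := by
  have h1 : ∀ s : Finset (Fin 3), ty a l (∏ i ∈ s, (Polynomial.X - Polynomial.C (a i)))
      = ∏ i ∈ s, (PowerSeries.X + PowerSeries.C (a l - a i)) := by
    intro s
    induction s using Finset.induction_on with
    | empty =>
      rw [Finset.prod_empty, Finset.prod_empty]
      have h2 := ty_C a l 1
      rw [map_one, map_one] at h2
      exact h2
    | insert i s hi ih =>
      rw [Finset.prod_insert hi, Finset.prod_insert hi, ty_mul, ih]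
      have h2 : Polynomial.X - Polynomial.C (a i) = Polynomial.X + Polynomial.C (-a i) := by
        rw [map_neg, sub_eq_add_neg]
      rw [h2, ty_add, ty_X, ty_C, add_assoc, ← map_add, ← sub_eq_add_neg]
  exact h1 _

theorem R6b2_ne (a : Fin 3 → ℂ) {l j : Fin 3} (hlj : l ≠ j) :
    PowerSeries.constantCoeff (ty a l (sp a j)) = 0 := by
  unfold sp
  rw [← Finset.mul_prod_erase _ _ (Finset.mem_erase.2 ⟨hlj, Finset.mem_univ l⟩), ty_mul, map_mul]
  have h2 : Polynomial.X - Polynomial.C (a l) = Polynomial.X + Polynomial.C (-a l) := by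
    rw [map_neg, sub_eq_add_neg]
  rw [h2, ty_add, ty_X, ty_C, map_add, map_add, PowerSeries.constantCoeff_X, PowerSeries.constantCoeff_C,
    PowerSeries.constantCoeff_C]
  ring

/-- Row R6b2 bis. `ty l (A^k s_j) (q_l⁻¹)^(k+1) = x^k * (ty l s_j * q_l⁻¹)`; constant coefficients:
`GG` has `g_l^k`, and `ty l s_j * q_l⁻¹` has `1` if `l = j` and `0` otherwise. -/
theorem GG_test (a : Fin 3 → ℂ) (ha : Function.Injective a) (k : ℕ) (X D : ℂ) (j l : Fin 3) :
    PowerSeries.coeff k (GG a k X D l * ty a l (AA a ^ k * sp a j) * ((qs a l)⁻¹) ^ (k + 1))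
      = if l = j then (X + a l * D) ^ k else 0 := by
  have h1 : GG a k X D l * ty a l (AA a ^ k * sp a j) * ((qs a l)⁻¹) ^ (k + 1) =
      PowerSeries.X ^ k * (GG a k X D l * (ty a l (sp a j) * (qs a l)⁻¹)) := by
    have h2 : (qs a l) ^ k * ((qs a l)⁻¹) ^ k = 1 := by
      rw [← mul_pow, qs_inv a ha l, one_pow]
    rw [ty_mul, ty_pow, ty_AA, mul_pow, pow_succ]
    calc GG a k X D l * (PowerSeries.X ^ k * qs a l ^ k * ty a l (sp a j)) * ((qs a l)⁻¹ ^ k * (qs a l)⁻¹)
        = PowerSeries.X ^ k * (GG a k X D l * (ty a l (sp a j) * (qs a l)⁻¹)) *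
          (qs a l ^ k * (qs a l)⁻¹ ^ k) := by ring
      _ = _ := by rw [h2, mul_one]
  have hGG : PowerSeries.constantCoeff (GG a k X D l) = (X + a l * D) ^ k := by
    unfold GG bs
    rw [map_mul, PowerSeries.constantCoeff_C, ← PowerSeries.coeff_zero_eq_constantCoeff_apply,
      PowerSeries.coeff_mk]
    unfold ch
    rw [Ring.choose_zero_right, pow_zero, mul_one, mul_one]
  rw [h1]
  have h3 := PowerSeries.coeff_X_pow_mul (GG a k X D l * (ty a l (sp a j) * (qs a l)⁻¹)) k 0
  rw [zero_add] at h3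
  rw [h3, PowerSeries.coeff_zero_eq_constantCoeff_apply, map_mul, hGG]
  by_cases hlj : l = j
  · rw [if_pos hlj, ← hlj, R6b2_self, qs_inv a ha l, map_one, mul_one]
  · rw [if_neg hlj, map_mul, R6b2_ne a hlj, zero_mul, mul_zero]

end TwPade
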