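import Pool.Agent.LibTwPade.Defs

set_option autoImplicit false

namespace TwPade

open Polynomial

private lemma eval_sp (a : Fin 3 → ℂ) (i j : Fin 3) :
    (sp a i).eval (a j) = ∏ l ∈ Finset.univ.erase i, (a j - a l) := by
  unfold sp
  rw [Polynomial.eval_prod]
  refine Finset.prod_congr rfl fun l _ => ?_
  rw [Polynomial.eval_sub, Polynomial.eval_X, Polynomial.eval_C]

private lemma eval_sp_ne (a : Fin 3 → ℂ) {i j : Fin 3} (h : j ≠ i) : (sp a i).eval (a j) = 0 := by
  rw [eval_sp]
  exact Finset.prod_eq_zero (Finset.mem_erase.2 ⟨h, Finset.mem_univ j⟩) (sub_self _)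

private lemma natDegree_sp (a : Fin 3 → ℂ) (i : Fin 3) : (sp a i).natDegree ≤ 2 := by
  unfold sp
  refine (Polynomial.natDegree_prod_le _ _).trans ?_
  simp only [Function.comp_apply, Polynomial.natDegree_X_sub_C, Finset.sum_const, smul_eq_mul,
    mul_one]
  rw [Finset.card_erase_of_mem (Finset.mem_univ i), Finset.card_univ, Fintype.card_fin]

/-- Row R6c. Lagrange: `φ = ∑_i c_i s_i` with `c_i = φ(a_i) / ∏_{l ≠ i} (a_i - a_l)` (both sides have
degree `≤ 2` and agree at three points). -/
theorem span_sp (a : Fin 3 → ℂ) (ha : Function.Injective a) (φ : Polynomial ℂ)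
    (hφ : φ.natDegree ≤ 2) : ∃ c : Fin 3 → ℂ, φ = ∑ i : Fin 3, Polynomial.C (c i) * sp a i := by
  refine ⟨fun i => φ.eval (a i) / (sp a i).eval (a i), ?_⟩
  rw [← sub_eq_zero]
  refine Polynomial.eq_zero_of_natDegree_lt_card_of_eval_eq_zero _ ha ?_ ?_
  · intro j
    have hne : (sp a j).eval (a j) ≠ 0 := by
      rw [eval_sp]
      refine Finset.prod_ne_zero_iff.2 fun l hl => ?_
      exact sub_ne_zero.2 fun h => (Finset.mem_erase.1 hl).1 (ha h).symm
    rw [Polynomial.eval_sub, Polynomial.eval_finset_sum, Finset.sum_eq_single j]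
    · rw [Polynomial.eval_mul, Polynomial.eval_C, div_mul_cancel₀ _ hne, sub_self]
    · intro i _ hi
      rw [Polynomial.eval_mul, eval_sp_ne a (Ne.symm hi), mul_zero]
    · intro h
      exact absurd (Finset.mem_univ j) h
  · rw [Fintype.card_fin]
    refine lt_of_le_of_lt ((Polynomial.natDegree_sub_le _ _).trans (max_le hφ ?_)) (by norm_num)
    refine Polynomial.natDegree_sum_le_of_forall_le _ _ fun i _ => ?_
    exact (Polynomial.natDegree_C_mul_le _ _).trans (natDegree_sp a i)

end TwPade
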