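import Pool.Agent.LibTwPade.R6c2

set_option autoImplicit false

namespace TwPade

open Polynomial

/-- Row R6c3. A linear functional on polynomials which vanishes on degree `≤ 2` and on all
`NN (z^d)` vanishes: strong induction on `n` for `z^n` (use `NN_lead` with `d = n - 3`, the
remainder is a combination of `z^m`, `m ≤ d + 2 < n`). -/
theorem functional_zero (a : Fin 3 → ℂ) (k : ℕ) (X D : ℂ) (hD : D ≠ 0)
    (M : Polynomial ℂ →ₗ[ℂ] ℂ) (h2 : ∀ φ : Polynomial ℂ, φ.natDegree ≤ 2 → M φ = 0)
    (hN : ∀ d : ℕ, M (NN a k X D (Polynomial.X ^ d)) = 0) : M = 0 := by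
  have hX : ∀ n : ℕ, M (Polynomial.X ^ n) = 0 := by
    intro n
    induction n using Nat.strong_induction_on with
    | _ n ih =>
      rcases Nat.lt_or_ge n 3 with h | h
      · exact h2 _ ((natDegree_X_pow n).le.trans (by omega))
      · obtain ⟨d, rfl⟩ := Nat.exists_eq_add_of_le' h
        obtain ⟨c, hc, hdeg⟩ := NN_lead a k d X D hD
        obtain ⟨Q, hQ⟩ : ∃ Q : Polynomial ℂ,
            Q = NN a k X D (Polynomial.X ^ d) - Polynomial.C c * Polynomial.X ^ (d + 3) := ⟨_, rfl⟩
        rw [← hQ] at hdeg
        have h1 : M Q = 0 := by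
          rw [Q.as_sum_range_C_mul_X_pow, map_sum]
          refine Finset.sum_eq_zero fun i hi => ?_
          have hi' : i < d + 3 := by
            have := Finset.mem_range.1 hi
            omega
          rw [← Polynomial.smul_eq_C_mul, map_smul, ih i hi', smul_zero]
        have h3 : M (Polynomial.C c * Polynomial.X ^ (d + 3)) = 0 := by
          have h4 : Polynomial.C c * Polynomial.X ^ (d + 3)
              = NN a k X D (Polynomial.X ^ d) - Q := by rw [hQ]; ring
          rw [h4, map_sub, hN d, h1, sub_zero]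
        rw [← Polynomial.smul_eq_C_mul, map_smul, smul_eq_mul] at h3
        exact (mul_eq_zero.1 h3).resolve_left hc
  ext n
  simp [← Polynomial.X_pow_eq_monomial, hX n]

end TwPade
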