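import Pool.Agent.LibTwPade.R6b
import Pool.Agent.LibTwPade.R6b2
import Pool.Agent.LibTwPade.R6c
import Pool.Agent.LibTwPade.R6c3

set_option autoImplicit false

namespace TwPade

/-- the linear functional of row R6 -/
private noncomputable def MM (a : Fin 3 → ℂ) (k : ℕ) (X D : ℂ) (y : Fin 3 → ℂ) :
    Polynomial ℂ →ₗ[ℂ] ℂ where
  toFun := fun φ => ∑ j : Fin 3,
    y j * PowerSeries.coeff k (GG a k X D j * ty a j φ * ((qs a j)⁻¹) ^ (k + 1))
  map_add' := by
    intro φ ψ
    rw [← Finset.sum_add_distrib]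
    refine Finset.sum_congr rfl (fun j _ => ?_)
    rw [ty_add, mul_add, add_mul, map_add, mul_add]
  map_smul' := by
    intro c φ
    rw [RingHom.id_apply, smul_eq_mul, Finset.mul_sum]
    refine Finset.sum_congr rfl (fun j _ => ?_)
    rw [Polynomial.smul_eq_C_mul, ty_mul, ty_C]
    have h1 : GG a k X D j * (PowerSeries.C c * ty a j φ) * ((qs a j)⁻¹) ^ (k + 1)
        = PowerSeries.C c * (GG a k X D j * ty a j φ * ((qs a j)⁻¹) ^ (k + 1)) := by ring
    rw [h1, PowerSeries.coeff_C_mul]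
    ring

private theorem MM_apply (a : Fin 3 → ℂ) (k : ℕ) (X D : ℂ) (y : Fin 3 → ℂ) (φ : Polynomial ℂ) :
    MM a k X D y φ = ∑ j : Fin 3,
      y j * PowerSeries.coeff k (GG a k X D j * ty a j φ * ((qs a j)⁻¹) ^ (k + 1)) := rfl

/-- Row R6. `M φ = ∑_j y_j * coeff k (GG_j * ty a j φ * (q_j⁻¹)^(k+1))` is linear (`ty_add`, `ty_C`,
`ty_mul`), vanishes on the `s_i` (`GG_Pm` and the hypothesis), so on degree `≤ 2` (`span_sp`), and on
`NN r` (`GG_exact`); `functional_zero` and `GG_test` give `y_l (X + a_l D)^k = 0`. -/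
theorem nonvanish (a : Fin 3 → ℂ) (ha : Function.Injective a) (k : ℕ) (X D : ℂ) (hD : D ≠ 0)
    (hg : ∀ j, X + a j * D ≠ 0) (y : Fin 3 → ℂ)
    (h : ∀ i, ∑ j : Fin 3, Pm a k X D i j * y j = 0) : y = 0 := by
  have hs : ∀ i, MM a k X D y (sp a i) = 0 := by
    intro i
    rw [MM_apply, ← h i]
    refine Finset.sum_congr rfl (fun j _ => ?_)
    rw [GG_Pm a k X D i j (hg j), mul_comm]
  have h2 : ∀ φ : Polynomial ℂ, φ.natDegree ≤ 2 → MM a k X D y φ = 0 := by
    intro φ hφ
    obtain ⟨c, hc⟩ := span_sp a ha φ hφ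
    rw [hc, map_sum]
    refine Finset.sum_eq_zero (fun i _ => ?_)
    rw [← Polynomial.smul_eq_C_mul, map_smul, hs i, smul_zero]
  have hN : ∀ d : ℕ, MM a k X D y (NN a k X D (Polynomial.X ^ d)) = 0 := by
    intro d
    rw [MM_apply]
    refine Finset.sum_eq_zero (fun j _ => ?_)
    rw [GG_exact a ha k X D j (hg j), mul_zero]
  have hM := functional_zero a k X D hD (MM a k X D y) h2 hN
  funext j
  have h3 : MM a k X D y (AA a ^ k * sp a j) = 0 := by
    rw [hM]
    rfl
  rw [MM_apply] at h3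
  have h4 : ∀ l : Fin 3, y l * PowerSeries.coeff k (GG a k X D l * ty a l (AA a ^ k * sp a j)
      * ((qs a l)⁻¹) ^ (k + 1)) = if l = j then y l * (X + a l * D) ^ k else 0 := by
    intro l
    rw [GG_test a ha k X D j l]
    split_ifs <;> simp
  rw [Finset.sum_congr rfl (fun l _ => h4 l), Finset.sum_ite_eq' Finset.univ j] at h3
  simp only [Finset.mem_univ, if_true] at h3
  rcases mul_eq_zero.1 h3 with h5 | h5
  · exact h5
  · exact absurd h5 (pow_ne_zero _ (hg j))

end TwPade
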