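import Pool.Agent.LibTwPade.D6

set_option autoImplicit false

namespace TwPade

open PowerSeries

/-- Row R6b. `g = X + a_j D ≠ 0`, `q = qs a j`, `R = ty a j r`,
`S = C (g^(k+1)) * bs (k+1) (D/g) * R * (q⁻¹)^k`. With `bs_succ`, `bs_deriv`, `ty_*`, `qs_inv`:
`C (g^(k+1)) * bs (k+1) (D/g) = ty a j (X + D z) * GG`, and
`GG * ty a j (NN r) * (q⁻¹)^(k+1) = X * d S - k S`, whose coefficient `k` is `0`
(for `k = 0`: coefficient `0` of `X * d S`). -/
theorem GG_exact (a : Fin 3 → ℂ) (ha : Function.Injective a) (k : ℕ) (X D : ℂ) (j : Fin 3)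
    (hg : X + a j * D ≠ 0) (r : Polynomial ℂ) :
    PowerSeries.coeff k (GG a k X D j * ty a j (NN a k X D r) * ((qs a j)⁻¹) ^ (k + 1)) = 0 := by
  set g : ℂ := X + a j * D with hgdef
  set q := qs a j with hq
  set R := ty a j r with hR
  set δ := PowerSeries.derivative ℂ with hδ
  have hCmul : ∀ (c : ℂ) (f : PowerSeries ℂ), δ (PowerSeries.C c * f) = PowerSeries.C c * δ f := by
    intro c f
    rw [← PowerSeries.smul_eq_C_mul, ← PowerSeries.smul_eq_C_mul, Derivation.map_smul]
  set B := PowerSeries.C (g ^ (k + 1)) * bs (k + 1) (D / g) with hB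
  have hG : GG a k X D j = PowerSeries.C (g ^ k) * bs k (D / g) := rfl
  -- the linear factor
  have hlin : ty a j (Polynomial.C X + Polynomial.C D * Polynomial.X) =
      PowerSeries.C g * (1 + PowerSeries.C (D / g) * PowerSeries.X) := by
    rw [ty_add, ty_mul, ty_C, ty_C, ty_X]
    have h1 : PowerSeries.C g * PowerSeries.C (D / g) = PowerSeries.C D := by
      rw [← map_mul]
      congr 1
      field_simp
    have h2 : (PowerSeries.C g : PowerSeries ℂ) =
        PowerSeries.C X + PowerSeries.C (a j) * PowerSeries.C D := by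
      rw [hgdef, map_add, map_mul]
    calc (PowerSeries.C X : PowerSeries ℂ) + PowerSeries.C D * (PowerSeries.X + PowerSeries.C (a j))
        = (PowerSeries.C X + PowerSeries.C (a j) * PowerSeries.C D) +
          PowerSeries.C D * PowerSeries.X := by ring
      _ = PowerSeries.C g + (PowerSeries.C g * PowerSeries.C (D / g)) * PowerSeries.X := by
          rw [h1, ← h2]
      _ = _ := by ring
  have hBG : GG a k X D j * ty a j (Polynomial.C X + Polynomial.C D * Polynomial.X) = B := by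
    rw [hlin, hG, hB, bs_succ, pow_succ, map_mul]
    ring
  have hdB : δ B = PowerSeries.C (((k : ℂ) + 3 / 2) * D) * GG a k X D j := by
    rw [hB, hCmul, bs_deriv, hG, ← mul_assoc, ← mul_assoc, ← map_mul, ← map_mul]
    congr 2
    rw [pow_succ]
    field_simp
  have hqi : q * q⁻¹ = 1 := qs_inv a ha j
  have hdqi : δ q⁻¹ = -(δ q * q⁻¹ ^ 2) := by
    have h1 : δ (q * q⁻¹) = 0 := by rw [hqi, Derivation.map_one_eq_zero]
    rw [Derivation.leibniz, smul_eq_mul, smul_eq_mul] at h1
    have h2 : q⁻¹ * (q * δ q⁻¹ + q⁻¹ * δ q) = 0 := by rw [h1, mul_zero]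
    have h3 : q⁻¹ * (q * δ q⁻¹ + q⁻¹ * δ q) = (q * q⁻¹) * δ q⁻¹ + q⁻¹ ^ 2 * δ q := by ring
    rw [h3, hqi, one_mul] at h2
    rw [mul_comm (δ q)]
    exact eq_neg_of_add_eq_zero_left h2
  have hdpow : δ (q⁻¹ ^ k) = -((k : PowerSeries ℂ) * (q⁻¹ ^ (k + 1) * δ q)) := by
    cases k with
    | zero => simp
    | succ n =>
      rw [Derivation.leibniz_pow, hdqi, smul_eq_mul, nsmul_eq_mul, Nat.add_sub_cancel]
      ring
  set S := B * R * q⁻¹ ^ k with hS
  have hdS : δ S = (PowerSeries.C (((k : ℂ) + 3 / 2) * D) * GG a k X D j) * R * q⁻¹ ^ k +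
      B * δ R * q⁻¹ ^ k - (k : PowerSeries ℂ) * B * R * (q⁻¹ ^ (k + 1) * δ q) := by
    rw [hS, Derivation.leibniz, Derivation.leibniz, hdB, hdpow]
    simp only [smul_eq_mul]
    ring
  have hNN : ty a j (NN a k X D r) = PowerSeries.C (((k : ℂ) + 3 / 2) * D) * (R * (PowerSeries.X * q)) +
      ty a j (Polynomial.C X + Polynomial.C D * Polynomial.X) *
        (δ R * (PowerSeries.X * q) - (k : PowerSeries ℂ) * (R * (q + PowerSeries.X * δ q))) := by
    have hsub : ∀ φ ψ : Polynomial ℂ, ty a j (φ - ψ) = ty a j φ - ty a j ψ := by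
      intro φ ψ
      have h1 := ty_add a j (φ - ψ) ψ
      rw [sub_add_cancel] at h1
      rw [h1]
      ring
    have h2 : δ (PowerSeries.X * q) = q + PowerSeries.X * δ q := by
      rw [Derivation.leibniz, hδ, PowerSeries.derivative_X]
      simp only [smul_eq_mul]
      ring
    have h3 : (PowerSeries.C (k : ℂ) : PowerSeries ℂ) = (k : PowerSeries ℂ) := map_natCast _ k
    unfold NN
    rw [ty_add, ty_mul, ty_mul, ty_mul, ty_C, hsub, ty_mul, ty_mul, ty_mul, ty_C, ty_deriv, ty_deriv,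
      ty_AA, ← hδ, ← hq, ← hR, h2, h3]
  have hmain : GG a k X D j * ty a j (NN a k X D r) * q⁻¹ ^ (k + 1) =
      PowerSeries.X * δ S - (k : PowerSeries ℂ) * S := by
    rw [hNN, hdS, hS]
    have e1 : q * q⁻¹ ^ (k + 1) = q⁻¹ ^ k := by
      rw [pow_succ', ← mul_assoc, hqi, one_mul]
    calc GG a k X D j * (PowerSeries.C (((k : ℂ) + 3 / 2) * D) * (R * (PowerSeries.X * q)) +
        ty a j (Polynomial.C X + Polynomial.C D * Polynomial.X) *
          (δ R * (PowerSeries.X * q) - (k : PowerSeries ℂ) * (R * (q + PowerSeries.X * δ q)))) *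
          q⁻¹ ^ (k + 1)
        = (PowerSeries.C (((k : ℂ) + 3 / 2) * D) * GG a k X D j) * R * PowerSeries.X *
            (q * q⁻¹ ^ (k + 1)) +
          (GG a k X D j * ty a j (Polynomial.C X + Polynomial.C D * Polynomial.X)) *
            (δ R * PowerSeries.X * (q * q⁻¹ ^ (k + 1)) - (k : PowerSeries ℂ) * R *
              (q * q⁻¹ ^ (k + 1)) - (k : PowerSeries ℂ) * R * PowerSeries.X * δ q *
                q⁻¹ ^ (k + 1)) := by ring
      _ = _ := by
        rw [e1, hBG]
        ring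
  rw [hmain, map_sub]
  have h3 : (k : PowerSeries ℂ) = PowerSeries.C (k : ℂ) := (map_natCast _ k).symm
  rw [h3, PowerSeries.coeff_C_mul]
  cases k with
  | zero => simp
  | succ n =>
    rw [PowerSeries.coeff_succ_X_mul, hδ, PowerSeries.coeff_derivative]
    push_cast
    ring

end TwPade
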