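import Pool.Agent.LibTwPade.D6

set_option autoImplicit false

namespace TwPade

open Polynomial

private theorem AA_lead (a : Fin 3 → ℂ) :
    ∃ R : Polynomial ℂ, AA a = Polynomial.X ^ 3 + R ∧ R.natDegree ≤ 2 := by
  refine ⟨-Polynomial.C (a 0 + a 1 + a 2) * Polynomial.X ^ 2
    + Polynomial.C (a 0 * a 1 + a 0 * a 2 + a 1 * a 2) * Polynomial.X
    - Polynomial.C (a 0 * a 1 * a 2), ?_, ?_⟩
  · simp only [AA, Fin.prod_univ_three, map_add, map_mul]
    ring
  · compute_degree

private theorem ndm {p q : Polynomial ℂ} {m n l : ℕ} (hp : p.natDegree ≤ m)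
    (hq : q.natDegree ≤ n) (h : m + n ≤ l) : (p * q).natDegree ≤ l :=
  (natDegree_mul_le_of_le hp hq).trans h

private theorem nda {p q : Polynomial ℂ} {l : ℕ} (hp : p.natDegree ≤ l)
    (hq : q.natDegree ≤ l) : (p + q).natDegree ≤ l :=
  natDegree_add_le_of_degree_le hp hq

private theorem nds {p q : Polynomial ℂ} {l : ℕ} (hp : p.natDegree ≤ l)
    (hq : q.natDegree ≤ l) : (p - q).natDegree ≤ l :=
  (natDegree_sub_le_iff_left hq).2 hp

private theorem ndC (x : ℂ) : (Polynomial.C x : Polynomial ℂ).natDegree ≤ 0 :=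
  (natDegree_C x).le

private theorem ndX (n : ℕ) : (Polynomial.X ^ n : Polynomial ℂ).natDegree ≤ n :=
  (natDegree_X_pow n).le

/-- `(z^d)' A - k z^d A' = (d - 3 k) z^(d+2) + S`, `deg S ≤ d + 1`. -/
private theorem inner_lead (a : Fin 3 → ℂ) (k d : ℕ) :
    ∃ S : Polynomial ℂ, S.natDegree ≤ d + 1 ∧
      Polynomial.derivative (Polynomial.X ^ d) * AA a
        - Polynomial.C (k : ℂ) * (Polynomial.X ^ d * Polynomial.derivative (AA a))
      = Polynomial.C ((d : ℂ) - 3 * k) * Polynomial.X ^ (d + 2) + S := by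
  obtain ⟨R, hR, hdeg⟩ := AA_lead a
  have hdeg' : (Polynomial.derivative R).natDegree ≤ 1 :=
    (natDegree_derivative_le R).trans (by omega)
  have h3 : (Polynomial.C (3 : ℂ) : Polynomial ℂ) = 3 := map_ofNat Polynomial.C 3
  have hA : Polynomial.derivative (AA a) = 3 * Polynomial.X ^ 2 + Polynomial.derivative R := by
    rw [hR, derivative_add, derivative_X_pow]
    norm_num [h3]
  rcases d with _ | e
  · refine ⟨-(Polynomial.C (k : ℂ) * Polynomial.derivative R), ?_, ?_⟩
    · rw [natDegree_neg]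
      exact ndm (ndC _) hdeg' (by omega)
    · rw [hA]
      simp only [pow_zero, derivative_one, zero_mul, one_mul, Nat.cast_zero, zero_sub, map_neg,
        map_mul, h3]
      ring
  · refine ⟨Polynomial.C ((e : ℂ) + 1) * (Polynomial.X ^ e * R)
      - Polynomial.C (k : ℂ) * (Polynomial.X ^ (e + 1) * Polynomial.derivative R), ?_, ?_⟩
    · refine nds ?_ ?_
      · exact ndm (ndC _) (ndm (ndX e) hdeg le_rfl) (by omega)
      · exact ndm (ndC _) (ndm (ndX (e + 1)) hdeg' le_rfl) (by omega)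
    · rw [hA, hR]
      simp only [derivative_X_pow, map_sub, map_mul, map_add, map_one, map_natCast,
        Nat.cast_add, Nat.cast_one, Nat.add_sub_cancel, h3]
      ring

/-- Row R6c2. `NN (z^d)` has degree `d + 3` and leading coefficient
`D ((k + 3/2) + d - 3 k) = D (d + 3/2 - 2 k) ≠ 0`. -/
theorem NN_lead (a : Fin 3 → ℂ) (k d : ℕ) (X D : ℂ) (hD : D ≠ 0) :
    ∃ c : ℂ, c ≠ 0 ∧
      (NN a k X D (Polynomial.X ^ d) - Polynomial.C c * Polynomial.X ^ (d + 3)).natDegree
        ≤ d + 2 := by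
  obtain ⟨R, hR, hdeg⟩ := AA_lead a
  obtain ⟨S, hS, hin⟩ := inner_lead a k d
  refine ⟨D * ((k : ℂ) + 3 / 2 + ((d : ℂ) - 3 * k)), ?_, ?_⟩
  · refine mul_ne_zero hD fun h => ?_
    have h1 : ((2 * d + 3 - 4 * k : ℤ) : ℂ) = 0 := by
      push_cast
      linear_combination 2 * h
    have h2 : (2 * d + 3 - 4 * k : ℤ) = 0 := by exact_mod_cast h1
    omega
  · have e1 : NN a k X D (Polynomial.X ^ d)
        - Polynomial.C (D * ((k : ℂ) + 3 / 2 + ((d : ℂ) - 3 * k))) * Polynomial.X ^ (d + 3)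
        = Polynomial.C (((k : ℂ) + 3 / 2) * D) * (Polynomial.X ^ d * R)
          + Polynomial.C X * (Polynomial.C ((d : ℂ) - 3 * k) * Polynomial.X ^ (d + 2))
          + Polynomial.C X * S + Polynomial.C D * (Polynomial.X ^ 1 * S) := by
      rw [NN, hin, hR]
      simp only [map_mul, map_add]
      ring
    rw [e1]
    refine nda (nda (nda ?_ ?_) ?_) ?_
    · exact ndm (ndC _) (ndm (ndX d) hdeg le_rfl) (by omega)
    · exact ndm (ndC _) (ndm (ndC _) (ndX (d + 2)) le_rfl) (by omega)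
    · exact ndm (ndC _) hS (by omega)
    · exact ndm (ndC _) (ndm (ndX 1) hS le_rfl) (by omega)

end TwPade
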