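import Pool.Agent.LibTwPade.R1

set_option autoImplicit false

namespace TwPade

open PowerSeries

/-- Row R7a. Coefficients of `(x + c)^(-n)`. (Natural subtraction: for `n = 0` the binomial
coefficient is `1` for `r = 0` and `0` for `r > 0`.) Induction on `n`, multiplying by `x + c`, or
`PowerSeries.invOneSubPow`. -/
theorem coeff_inv_pow (c : ℂ) (hc : c ≠ 0) (n r : ℕ) :
    PowerSeries.coeff r (((PowerSeries.X + PowerSeries.C c : PowerSeries ℂ)⁻¹) ^ n)
      = (-1) ^ r * ((n + r - 1).choose r : ℂ) * c⁻¹ ^ (n + r) := by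
  have hstep : ∀ n : ℕ, (PowerSeries.X + PowerSeries.C c : PowerSeries ℂ)
      * PowerSeries.mk (fun r => (-1 : ℂ) ^ r * (((n + 1) + r - 1).choose r : ℂ)
        * c⁻¹ ^ ((n + 1) + r))
      = PowerSeries.mk (fun r => (-1 : ℂ) ^ r * ((n + r - 1).choose r : ℂ) * c⁻¹ ^ (n + r)) := by
    intro n
    ext r
    rw [add_mul, map_add, PowerSeries.coeff_C_mul]
    rcases r with _ | r
    · rw [PowerSeries.coeff_zero_X_mul, PowerSeries.coeff_mk, PowerSeries.coeff_mk]
      simp only [Nat.choose_zero_right, Nat.cast_one, pow_zero, add_zero]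
      rw [pow_succ]
      field_simp
      ring
    · rw [PowerSeries.coeff_succ_X_mul, PowerSeries.coeff_mk, PowerSeries.coeff_mk,
        PowerSeries.coeff_mk]
      have e1 : n + 1 + r - 1 = n + r := by omega
      have e2 : n + 1 + (r + 1) - 1 = n + r + 1 := by omega
      have e3 : n + (r + 1) - 1 = n + r := by omega
      rw [e1, e2, e3, Nat.choose_succ_succ (n + r) r]
      have e4 : n + 1 + (r + 1) = (n + 1 + r) + 1 := by omega
      have e5 : n + (r + 1) = n + 1 + r := by omega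
      rw [e4, e5, pow_succ c⁻¹ (n + 1 + r), pow_succ (-1 : ℂ) r]
      push_cast
      have hcc : c * c⁻¹ = 1 := mul_inv_cancel₀ hc
      linear_combination (-(-1 : ℂ) ^ r * (((n + r).choose r : ℂ) + ((n + r).choose (r + 1) : ℂ))
        * c⁻¹ ^ (n + 1 + r)) * hcc
  have hconst : PowerSeries.constantCoeff (PowerSeries.X + PowerSeries.C c : PowerSeries ℂ) ≠ 0 := by
    simpa using hc
  have hind : ∀ n : ℕ, ((PowerSeries.X + PowerSeries.C c : PowerSeries ℂ)⁻¹) ^ n
      = PowerSeries.mk (fun r => (-1 : ℂ) ^ r * ((n + r - 1).choose r : ℂ) * c⁻¹ ^ (n + r)) := by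
    intro n
    induction n with
    | zero =>
      ext r
      rw [pow_zero, PowerSeries.coeff_mk, PowerSeries.coeff_one]
      rcases r with _ | r
      · simp
      · rw [if_neg (Nat.succ_ne_zero r)]
        have e1 : 0 + (r + 1) - 1 = r := by omega
        rw [e1, Nat.choose_succ_self]
        simp
    | succ n ih =>
      rw [pow_succ', ih, ← hstep n, ← mul_assoc, PowerSeries.inv_mul_cancel _ hconst, one_mul]
  rw [hind n, PowerSeries.coeff_mk]

private theorem erase_eq : ∀ j l l' : Fin 3, l ≠ j → l' ≠ j → l ≠ l' →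
    Finset.univ.erase j = {l, l'} := by
  decide

/-- Row R7b. The two factors (`Fin 3` minus `j` has two elements `l, l'`). -/
theorem qs_inv_pow (a : Fin 3 → ℂ) (ha : Function.Injective a) (j l l' : Fin 3) (h : l ≠ j)
    (h' : l' ≠ j) (hl : l ≠ l') (n : ℕ) :
    ((qs a j)⁻¹) ^ n = ((PowerSeries.X + PowerSeries.C (a j - a l) : PowerSeries ℂ)⁻¹) ^ n
      * ((PowerSeries.X + PowerSeries.C (a j - a l') : PowerSeries ℂ)⁻¹) ^ n := by
  rw [qs, erase_eq j l l' h h' hl, Finset.prod_pair hl, PowerSeries.mul_inv_rev, mul_comm, mul_pow]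

/-- Row R7c. `s_i(a_j + x) = (x + u)(x + v)` with `u = a_j - a_l`, `v = a_j - a_l'`,
`{l, l'} = {0,1,2} \ {i}`. -/
theorem ty_sp (a : Fin 3 → ℂ) (i j l l' : Fin 3) (h : l ≠ i) (h' : l' ≠ i) (hl : l ≠ l') :
    ty a j (sp a i) = (PowerSeries.X + PowerSeries.C (a j - a l))
      * (PowerSeries.X + PowerSeries.C (a j - a l')) := by
  have hlin : ∀ z : ℂ, ty a j (Polynomial.X - Polynomial.C z)
      = PowerSeries.X + PowerSeries.C (a j - z) := by
    intro z
    rw [sub_eq_add_neg, ← Polynomial.C_neg, ty_add, ty_X, ty_C, add_assoc, ← map_add,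
      ← sub_eq_add_neg]
  rw [sp, erase_eq i l l' h h' hl, Finset.prod_pair hl, ty_mul, hlin, hlin]

end TwPade
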