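import Pool.Agent.LibTwPade.R7

set_option autoImplicit false

namespace TwPade

open PowerSeries

theorem r7d_exists (j : Fin 3) : ∃ l l' : Fin 3, l ≠ j ∧ l' ≠ j ∧ l ≠ l' := by
  revert j
  decide

theorem r7d_term (c : ℂ) (hc : c ≠ 0) (k s : ℕ) (ρ : ℝ) (hi : ‖c⁻¹‖ ≤ ρ) :
    ‖PowerSeries.coeff s (((PowerSeries.X + PowerSeries.C c : PowerSeries ℂ)⁻¹) ^ (k + 1))‖
      ≤ 2 ^ (k + s) * ρ ^ (k + 1 + s) := by
  rw [coeff_inv_pow c hc, norm_mul, norm_mul, norm_pow, norm_neg, norm_one, one_pow, one_mul]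
  have h1 : k + 1 + s - 1 = k + s := by omega
  rw [h1]
  have h2 : ‖(((k + s).choose s : ℕ) : ℂ)‖ ≤ 2 ^ (k + s) := by
    rw [Complex.norm_natCast]
    have := Nat.choose_le_two_pow (k + s) s
    exact_mod_cast this
  have h3 : ‖c⁻¹ ^ (k + 1 + s)‖ ≤ ρ ^ (k + 1 + s) := by
    rw [norm_pow]
    exact pow_le_pow_left₀ (norm_nonneg _) hi _
  exact mul_le_mul h2 h3 (norm_nonneg _) (by positivity)

/-- Row R7d. `coeff_inv_pow`, `qs_inv_pow`, `PowerSeries.coeff_mul` (antidiagonal of `r`, at most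
`r + 1 ≤ 2^k` terms), `choose (k + r₁) r₁ ≤ 2^(k + r₁)`, total `2^k * 2^(2k + r) ρ^(2(k+1) + r)`. -/
theorem qs_coeff_le (a : Fin 3 → ℂ) (ha : Function.Injective a) (k : ℕ) (j : Fin 3) (r : ℕ)
    (hr : r ≤ k) (ρ : ℝ) (hρ : 1 ≤ ρ) (hi : ∀ j l, j ≠ l → ‖(a j - a l)⁻¹‖ ≤ ρ) :
    ‖PowerSeries.coeff r (((qs a j)⁻¹) ^ (k + 1))‖ ≤ 2 ^ (4 * k) * ρ ^ (3 * k + 2) := by
  obtain ⟨l, l', hl, hl', hll⟩ := r7d_exists j
  rw [qs_inv_pow a ha j l l' hl hl' hll, PowerSeries.coeff_mul]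
  have hu : a j - a l ≠ 0 := sub_ne_zero.2 fun h => hl (ha h).symm
  have hv : a j - a l' ≠ 0 := sub_ne_zero.2 fun h => hl' (ha h).symm
  have hterm : ∀ p ∈ Finset.HasAntidiagonal.antidiagonal r,
      ‖PowerSeries.coeff p.1 (((PowerSeries.X + PowerSeries.C (a j - a l) : PowerSeries ℂ)⁻¹) ^ (k + 1))
        * PowerSeries.coeff p.2
          (((PowerSeries.X + PowerSeries.C (a j - a l') : PowerSeries ℂ)⁻¹) ^ (k + 1))‖
        ≤ 2 ^ (3 * k) * ρ ^ (3 * k + 2) := by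
    intro p hp
    have hp' : p.1 + p.2 = r := Finset.HasAntidiagonal.mem_antidiagonal.1 hp
    rw [norm_mul]
    have h1 := r7d_term (a j - a l) hu k p.1 ρ (hi j l hl.symm)
    have h2 := r7d_term (a j - a l') hv k p.2 ρ (hi j l' hl'.symm)
    refine (mul_le_mul h1 h2 (norm_nonneg _) (by positivity)).trans ?_
    have h3 : (2 : ℝ) ^ (k + p.1) * ρ ^ (k + 1 + p.1) * (2 ^ (k + p.2) * ρ ^ (k + 1 + p.2)) =
        2 ^ (2 * k + r) * ρ ^ (2 * k + 2 + r) := by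
      rw [← hp']
      ring
    rw [h3]
    apply mul_le_mul
    · exact pow_le_pow_right₀ one_le_two (by omega)
    · exact pow_le_pow_right₀ hρ (by omega)
    · positivity
    · positivity
  refine (norm_sum_le _ _).trans ((Finset.sum_le_card_nsmul _ _ _ hterm).trans ?_)
  rw [Finset.Nat.card_antidiagonal, nsmul_eq_mul]
  have h4 : ((r + 1 : ℕ) : ℝ) ≤ 2 ^ k := by
    have h5 : r + 1 ≤ 2 ^ k := by
      have := Nat.lt_two_pow_self (n := k)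
      omega
    exact_mod_cast h5
  have h6 : (2 : ℝ) ^ (4 * k) * ρ ^ (3 * k + 2) = 2 ^ k * (2 ^ (3 * k) * ρ ^ (3 * k + 2)) := by
    ring
  rw [h6]
  exact mul_le_mul_of_nonneg_right h4 (by positivity)

theorem r7d_mul (Q : PowerSeries ℂ) (u : ℂ) (r : ℕ) (M ρ : ℝ) (hρ : 1 ≤ ρ) (hM : 0 ≤ M)
    (hu : ‖u‖ ≤ 2 * ρ) (hQ : ∀ s ≤ r, ‖PowerSeries.coeff s Q‖ ≤ M) :
    ∀ s ≤ r, ‖PowerSeries.coeff s ((PowerSeries.X + PowerSeries.C u) * Q)‖ ≤ 3 * ρ * M := by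
  intro s hs
  rw [add_mul, map_add, PowerSeries.coeff_C_mul]
  have h1 : ‖PowerSeries.coeff s (PowerSeries.X * Q)‖ ≤ M := by
    cases s with
    | zero =>
      rw [PowerSeries.coeff_zero_X_mul, norm_zero]
      exact hM
    | succ s =>
      rw [PowerSeries.coeff_succ_X_mul]
      exact hQ s (by omega)
  have h2 : ‖u * PowerSeries.coeff s Q‖ ≤ 2 * ρ * M := by
    rw [norm_mul]
    exact mul_le_mul hu (hQ s hs) (norm_nonneg _) (by positivity)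
  have h3 : M ≤ ρ * M := by nlinarith
  calc ‖PowerSeries.coeff s (PowerSeries.X * Q) + u * PowerSeries.coeff s Q‖
      ≤ ‖PowerSeries.coeff s (PowerSeries.X * Q)‖ + ‖u * PowerSeries.coeff s Q‖ := norm_add_le _ _
    _ ≤ M + 2 * ρ * M := add_le_add h1 h2
    _ ≤ 3 * ρ * M := by linarith

/-- Row R7e. With `ty_sp`: coefficients `1, u + v, u v` with `‖u‖, ‖v‖ ≤ 2 ρ`. -/
theorem ec_le (a : Fin 3 → ℂ) (ha : Function.Injective a) (k : ℕ) (i j : Fin 3) (r : ℕ)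
    (hr : r ≤ k) (ρ : ℝ) (hρ : 1 ≤ ρ) (haρ : ∀ j, ‖a j‖ ≤ ρ)
    (hi : ∀ j l, j ≠ l → ‖(a j - a l)⁻¹‖ ≤ ρ) :
    ‖ec a k i j r‖ ≤ 9 * 2 ^ (4 * k) * ρ ^ (3 * k + 4) := by
  obtain ⟨l, l', hl, hl', hll⟩ := r7d_exists i
  unfold ec
  rw [ty_sp a i j l l' hl hl' hll, mul_assoc]
  have hu : ∀ m, ‖a j - a m‖ ≤ 2 * ρ := by
    intro m
    have := norm_sub_le (a j) (a m)
    have h1 := haρ j
    have h2 := haρ m
    linarith
  have hM : (0 : ℝ) ≤ 2 ^ (4 * k) * ρ ^ (3 * k + 2) := by positivity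
  have h1 := r7d_mul (((qs a j)⁻¹) ^ (k + 1)) (a j - a l') r _ ρ hρ hM (hu l')
    fun s hs => qs_coeff_le a ha k j s (hs.trans hr) ρ hρ hi
  have h2 := r7d_mul _ (a j - a l) r _ ρ hρ (by positivity) (hu l) h1 r le_rfl
  refine h2.trans (le_of_eq ?_)
  ring

end TwPade
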